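import Pool.Agent.Helper853.Bk.Scv

open scoped Topology ContDiff ENNReal
open MeasureTheory Filter Metric

namespace Pool.Agent.Helper853.Bk

/-- rotations preserve Lebesgue measure on `ℂ^n` -/
lemma measurePreserving_rot {n : ℕ} (θ : ℝ) :
    MeasurePreserving (fun w : Fin n → ℂ => Complex.exp (θ * Complex.I) • w) volume volume := by
  have h1 : MeasurePreserving (fun z : ℂ => Complex.exp (θ * Complex.I) * z) volume volume := by
    have := (rotation (Circle.exp θ)).measurePreserving
    exact this
  exact volume_preserving_pi fun _ => h1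

/-- mean value inequality on a circle -/
lemma circle_ineq {g : ℂ → ℂ} (hg : DiffContOnCl ℂ g (ball 0 1)) :
    ENNReal.ofReal (2 * Real.pi) * ENNReal.ofReal (‖g 0‖ ^ 2) ≤
      ∫⁻ θ in Set.Ioc (0 : ℝ) (2 * Real.pi), ENNReal.ofReal (‖g (Complex.exp (θ * Complex.I))‖ ^ 2)
      := by
  have hg2 : DiffContOnCl ℂ (fun z => g z * g z) (ball 0 |(1 : ℝ)|) := by
    rw [abs_one]
    exact ⟨hg.1.fun_mul hg.1, hg.2.fun_mul hg.2⟩
  have h1 := hg2.circleAverage
  rw [Real.circleAverage_def] at h1
  simp only [circleMap_zero, Complex.ofReal_one, one_mul] at h1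
  have hcont : Continuous fun θ : ℝ => g (Complex.exp (θ * Complex.I)) := by
    have hc : ContinuousOn g (closedBall 0 1) := by
      have := hg.2
      rwa [closure_ball (0 : ℂ) one_ne_zero] at this
    apply hc.comp_continuous (by fun_prop)
    intro θ
    rw [mem_closedBall_zero_iff, Complex.norm_exp_ofReal_mul_I]
  have hpi : (0 : ℝ) < 2 * Real.pi := by positivity
  have hcn : Continuous fun θ : ℝ => ‖g (Complex.exp (θ * Complex.I))‖ ^ 2 := hcont.norm.pow 2
  have h2 : ‖g 0‖ ^ 2 ≤ (2 * Real.pi)⁻¹ *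
      ∫ θ in (0 : ℝ)..(2 * Real.pi), ‖g (Complex.exp (θ * Complex.I))‖ ^ 2 := by
    have e : ‖g 0‖ ^ 2 = ‖(2 * Real.pi)⁻¹ • ∫ θ in (0 : ℝ)..(2 * Real.pi),
        g (Complex.exp (θ * Complex.I)) * g (Complex.exp (θ * Complex.I))‖ := by
      rw [h1, norm_mul, sq]
    rw [e, norm_smul, Real.norm_of_nonneg (by positivity)]
    apply mul_le_mul_of_nonneg_left _ (by positivity)
    refine (intervalIntegral.norm_integral_le_integral_norm hpi.le).trans (le_of_eq ?_)
    apply intervalIntegral.integral_congr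
    intro θ _
    simp only
    rw [norm_mul, sq]
  have h3 : 2 * Real.pi * ‖g 0‖ ^ 2 ≤
      ∫ θ in (0 : ℝ)..(2 * Real.pi), ‖g (Complex.exp (θ * Complex.I))‖ ^ 2 := by
    have := mul_le_mul_of_nonneg_left h2 hpi.le
    rwa [← mul_assoc, mul_inv_cancel₀ hpi.ne', one_mul] at this
  rw [← ENNReal.ofReal_mul hpi.le]
  rw [intervalIntegral.integral_of_le hpi.le] at h3
  rw [← ofReal_integral_eq_lintegral_ofReal]
  · exact ENNReal.ofReal_le_ofReal h3
  · exact hcn.integrableOn_Ioc
  · filter_upwards with θ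
    positivity

/-- The mean value inequality for holomorphic functions on polydiscs. -/
theorem bergman_ineq {n : ℕ} {Ω : Set (Fin n → ℂ)} {h : (Fin n → ℂ) → ℂ}
    (hh : DifferentiableOn ℂ h Ω) {z : Fin n → ℂ} {r : ℝ}
    (hz : closedBall z r ⊆ Ω) :
    ENNReal.ofReal (‖h z‖ ^ 2) * volume (closedBall z r) ≤
      ∫⁻ w in closedBall z r, ENNReal.ofReal (‖h w‖ ^ 2) := by
  have hpi : (0 : ℝ) < 2 * Real.pi := by positivity
  set H : (Fin n → ℂ) → ℝ≥0∞ := (closedBall z r).indicator fun w => ENNReal.ofReal (‖h w‖ ^ 2)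
    with hH
  have hHm : Measurable H := by
    have h1 : ContinuousOn (fun w => ENNReal.ofReal (‖h w‖ ^ 2)) (closedBall z r) := by
      apply ENNReal.continuous_ofReal.comp_continuousOn
      exact ((hh.continuousOn.mono hz).norm).pow 2
    classical
    have h2 := ContinuousOn.measurable_piecewise (s := closedBall z r) h1
      (continuousOn_const (c := (0 : ℝ≥0∞))) isClosed_closedBall.measurableSet
    have h3 := Set.piecewise_eq_indicator (s := closedBall z r)
      (f := fun w => ENNReal.ofReal (‖h w‖ ^ 2))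
    rw [hH, ← h3]
    exact h2
  -- pointwise inequality
  have hpt : ∀ w ∈ closedBall (0 : Fin n → ℂ) r, ENNReal.ofReal (2 * Real.pi) *
      ENNReal.ofReal (‖h z‖ ^ 2) ≤
      ∫⁻ θ in Set.Ioc (0 : ℝ) (2 * Real.pi), H (z + Complex.exp (θ * Complex.I) • w) := by
    intro w hw
    rw [mem_closedBall_zero_iff] at hw
    have hmaps : ∀ ζ ∈ closedBall (0 : ℂ) 1, z + ζ • w ∈ closedBall z r := by
      intro ζ hζ
      rw [mem_closedBall_zero_iff] at hζ
      rw [mem_closedBall, dist_eq_norm, add_sub_cancel_left, norm_smul]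
      calc ‖ζ‖ * ‖w‖ ≤ 1 * ‖w‖ := by gcongr
        _ ≤ r := by rw [one_mul]; exact hw
    have hg : DiffContOnCl ℂ (fun ζ : ℂ => h (z + ζ • w)) (ball 0 1) := by
      apply DifferentiableOn.diffContOnCl
      rw [closure_ball (0 : ℂ) one_ne_zero]
      exact hh.comp (by fun_prop) (fun ζ hζ => hz (hmaps ζ hζ))
    have h1 := circle_ineq hg
    simp only [zero_smul, add_zero] at h1
    refine h1.trans (le_of_eq ?_)
    apply lintegral_congr
    intro θ
    rw [hH, Set.indicator_of_mem]
    apply hmaps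
    rw [mem_closedBall_zero_iff, Complex.norm_exp_ofReal_mul_I]
  -- integrate over w
  have hint : ∫⁻ _w in closedBall (0 : Fin n → ℂ) r, ENNReal.ofReal (2 * Real.pi) *
      ENNReal.ofReal (‖h z‖ ^ 2) ≤
      ∫⁻ w in closedBall (0 : Fin n → ℂ) r, ∫⁻ θ in Set.Ioc (0 : ℝ) (2 * Real.pi),
        H (z + Complex.exp (θ * Complex.I) • w) :=
    setLIntegral_mono' isClosed_closedBall.measurableSet hpt
  rw [lintegral_const, Measure.restrict_apply MeasurableSet.univ, Set.univ_inter,
    lintegral_lintegral_swap] at hint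
  swap
  · apply Measurable.aemeasurable
    apply hHm.comp
    apply Continuous.measurable
    fun_prop
  have hvol : volume (closedBall (0 : Fin n → ℂ) r) = volume (closedBall z r) := by
    have := measure_preimage_add (volume : Measure (Fin n → ℂ)) (-z) (closedBall 0 r)
    rw [← this]
    congr 1
    ext w
    rw [Set.mem_preimage, mem_closedBall_zero_iff, mem_closedBall, dist_eq_norm,
      neg_add_eq_sub]
  have hrot : ∀ θ : ℝ, ∫⁻ w in closedBall (0 : Fin n → ℂ) r,
      H (z + Complex.exp (θ * Complex.I) • w) =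
      ∫⁻ w in closedBall z r, ENNReal.ofReal (‖h w‖ ^ 2) := by
    intro θ
    have e1 : ∫⁻ w in closedBall (0 : Fin n → ℂ) r, H (z + Complex.exp (θ * Complex.I) • w) =
        ∫⁻ w, H (z + Complex.exp (θ * Complex.I) • w) := by
      rw [← lintegral_indicator isClosed_closedBall.measurableSet]
      apply lintegral_congr
      intro w
      by_cases hw : w ∈ closedBall (0 : Fin n → ℂ) r
      · rw [Set.indicator_of_mem hw]
      · rw [Set.indicator_of_notMem hw, hH, Set.indicator_of_notMem]
        intro hc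
        apply hw
        rw [mem_closedBall, dist_eq_norm, add_sub_cancel_left, norm_smul,
          Complex.norm_exp_ofReal_mul_I, one_mul] at hc
        rwa [mem_closedBall_zero_iff]
    rw [e1, (measurePreserving_rot θ).lintegral_comp (f := fun w => H (z + w))
      (hHm.comp (measurable_const_add z)), lintegral_add_left_eq_self, hH,
      lintegral_indicator isClosed_closedBall.measurableSet]
  simp_rw [hrot] at hint
  rw [lintegral_const, Measure.restrict_apply MeasurableSet.univ, Set.univ_inter,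
    Real.volume_Ioc, sub_zero, hvol] at hint
  have hne : ENNReal.ofReal (2 * Real.pi) ≠ 0 := by
    rw [Ne, ENNReal.ofReal_eq_zero]
    push Not
    exact hpi
  have e3 : ENNReal.ofReal (2 * Real.pi) * ENNReal.ofReal (‖h z‖ ^ 2) * volume (closedBall z r) =
      (ENNReal.ofReal (‖h z‖ ^ 2) * volume (closedBall z r)) * ENNReal.ofReal (2 * Real.pi) := by
    ring
  rw [e3] at hint
  exact (ENNReal.mul_le_mul_iff_left hne ENNReal.ofReal_ne_top).mp hint

end Pool.Agent.Helper853.Bk
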