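import Pool.Agent.Helper853.Zm.LocalPsh

open scoped Topology ContDiff ComplexOrder ENNReal
open MeasureTheory Filter Metric

namespace Pool.Agent.Helper853.Bk

open Pool.Agent.Helper853.Zm

variable {n : ℕ}

/-- the bump used for testing weak convergence -/
noncomputable def kb (b : ℝ) (w : Fin n → ℂ) : ℝ := max (b - fsPot w) 0

lemma continuous_fsPot : Continuous (fsPot : (Fin n → ℂ) → ℝ) :=
  continuousOn_univ.mp sPsh_fsPot.1.continuousOn

lemma continuous_kb (b : ℝ) : Continuous (kb b : (Fin n → ℂ) → ℝ) :=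
  (continuous_const.sub continuous_fsPot).max continuous_const

lemma kb_nonneg (b : ℝ) (w : Fin n → ℂ) : 0 ≤ kb b w := le_max_right _ _

lemma fsPot_nonneg' (x : Fin n → ℂ) : 0 ≤ fsPot x := by
  unfold fsPot
  have : 0 ≤ Real.log (1 + ∑ j, ‖x j‖ ^ 2) := Real.log_nonneg (by
    have : 0 ≤ ∑ j, ‖x j‖ ^ 2 := Finset.sum_nonneg fun j _ => by positivity
    linarith)
  positivity

lemma fp_nonneg (p x : Fin n → ℂ) : 0 ≤ fp p x := fsPot_nonneg' _

lemma kb_le {b : ℝ} (hb : 0 ≤ b) (w : Fin n → ℂ) : kb b w ≤ b := by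
  unfold kb
  apply max_le _ hb
  have := fsPot_nonneg' w
  linarith

lemma kb_eq_zero {b : ℝ} {w : Fin n → ℂ} (hw : b ≤ fsPot w) : kb b w = 0 := by
  unfold kb
  apply max_eq_right
  linarith

lemma ofReal_kb (b : ℝ) (w : Fin n → ℂ) : ENNReal.ofReal (kb b w) = ENNReal.ofReal (b - fsPot w) := by
  unfold kb
  rcases le_total (b - fsPot w) 0 with h | h
  · rw [max_eq_right h, ENNReal.ofReal_zero, ENNReal.ofReal_of_nonpos h]
  · rw [max_eq_left h]

lemma hasCompactSupport_kb (b : ℝ) : HasCompactSupport (kb b : (Fin n → ℂ) → ℝ) := by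
  apply HasCompactSupport.intro (isCompact_fp (0 : Fin n → ℂ) b)
  intro w hw
  apply kb_eq_zero
  simp only [Set.mem_ofPred_eq, not_le, fp_zero] at hw
  exact hw.le

lemma integrable_kb (b : ℝ) : Integrable (kb b : (Fin n → ℂ) → ℝ) :=
  (continuous_kb b).integrable_of_hasCompactSupport (hasCompactSupport_kb b)

lemma integral_kb_pos {b : ℝ} (hb : 0 < b) : 0 < ∫ w : Fin n → ℂ, kb b w := by
  apply (continuous_kb b).integral_pos_of_hasCompactSupport_nonneg_nonzero
    (hasCompactSupport_kb b) (fun w => kb_nonneg b w) (x := 0)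
  have : kb b (0 : Fin n → ℂ) = b := by
    unfold kb
    have h0 : fsPot (0 : Fin n → ℂ) = 0 := by simp [fsPot]
    rw [h0, sub_zero]
    exact max_eq_left hb.le
  rw [this]
  exact hb.ne'

/-- Weak convergence can be tested on the bumps. -/
theorem tendsto_of_bumps {K : Set (Fin n → ℂ)} (hK : IsCompact K)
    {ν : ℕ → Measure (Fin n → ℂ)} {ν' : Measure (Fin n → ℂ)} {A : ℝ≥0∞} (hA : A ≠ ⊤)
    (hν : ∀ᶠ j in atTop, ν j Set.univ ≤ A) (hν' : ν' Set.univ ≤ A) {b₀ : ℝ} (hb₀ : 0 < b₀)
    (hbump : ∀ b, 0 < b → b < b₀ → ∀ p ∈ K,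
      Tendsto (fun j => ∫⁻ z, ENNReal.ofReal (b - fp p z) ∂(ν j)) atTop
        (𝓝 (∫⁻ z, ENNReal.ofReal (b - fp p z) ∂ν')))
    {f : (Fin n → ℂ) → ℝ} (hf : Continuous f) (hfK : ∀ x ∉ K, f x = 0) :
    Tendsto (fun j => ∫ z, f z ∂(ν j)) atTop (𝓝 (∫ z, f z ∂ν')) := by
  have hfc : HasCompactSupport f := HasCompactSupport.intro hK hfK
  obtain ⟨B, hB⟩ : ∃ B : ℝ, ∀ x, |f x| ≤ B := by
    obtain ⟨B, hB⟩ := hfc.exists_bound_of_continuous hf
    exact ⟨B, fun x => by simpa using hB x⟩
  have hB0 : 0 ≤ B := (abs_nonneg _).trans (hB 0)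
  have huc : UniformContinuous f := hfc.uniformContinuous_of_continuous hf
  set a : ℝ := A.toReal with ha
  have ha0 : 0 ≤ a := ENNReal.toReal_nonneg
  -- the smoothed functions
  set Fb : ℝ → (Fin n → ℂ) → ℝ := fun b z => ∫ p, f p * kb b (z - p) with hFb
  -- comparison of f with the smoothed function
  have happrox : ∀ ε : ℝ, 0 < ε → ∃ b, 0 < b ∧ b < b₀ ∧ ∀ z : Fin n → ℂ,
      |(∫ w : Fin n → ℂ, kb b w) * f z - Fb b z| ≤ ε * ∫ w : Fin n → ℂ, kb b w := by
    intro ε hε
    obtain ⟨δ, hδ, hδf⟩ := Metric.uniformContinuous_iff.mp huc ε hε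
    have h1 : Tendsto (fun b : ℝ => Real.exp (2 * b) - 1) (𝓝[>] 0) (𝓝 0) := by
      have hc : Continuous fun b : ℝ => Real.exp (2 * b) - 1 := by fun_prop
      have := hc.tendsto 0
      simp only [mul_zero, Real.exp_zero, sub_self] at this
      exact this.mono_left nhdsWithin_le_nhds
    obtain ⟨b, hb1, hb2⟩ := ((h1.eventually (gt_mem_nhds (show 0 < δ ^ 2 by positivity))).and
      (Ioo_mem_nhdsGT hb₀)).exists
    refine ⟨b, hb2.1, hb2.2, ?_⟩
    intro z
    have i1 : Integrable fun p : Fin n → ℂ => kb b (z - p) := (integrable_kb b).comp_sub_left z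
    have e0 : ∫ p : Fin n → ℂ, kb b (z - p) = ∫ w : Fin n → ℂ, kb b w :=
      integral_sub_left_eq_self (fun w => kb b w) volume z
    have i2 : Integrable fun p : Fin n → ℂ => f p * kb b (z - p) := by
      apply Continuous.integrable_of_hasCompactSupport
      · exact hf.mul ((continuous_kb b).comp (continuous_const.sub continuous_id))
      · exact hfc.mul_right
    have e1 : (∫ w : Fin n → ℂ, kb b w) * f z - Fb b z = ∫ p, (f z - f p) * kb b (z - p) := by
      rw [hFb, ← e0, mul_comm, ← integral_const_mul, ← integral_sub (i1.const_mul _) i2]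
      apply integral_congr_ae
      filter_upwards with p
      ring
    rw [e1]
    calc |∫ p, (f z - f p) * kb b (z - p)| ≤ ∫ p, |(f z - f p) * kb b (z - p)| :=
          abs_integral_le_integral_abs
      _ ≤ ∫ p : Fin n → ℂ, ε * kb b (z - p) := by
          apply integral_mono_of_nonneg (Filter.Eventually.of_forall fun p => abs_nonneg _)
            (i1.const_mul ε)
          filter_upwards with p
          rw [abs_mul, abs_of_nonneg (kb_nonneg b _)]
          by_cases hp : b ≤ fsPot (z - p)
          · rw [kb_eq_zero hp, mul_zero, mul_zero]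
          · push Not at hp
            apply mul_le_mul_of_nonneg_right _ (kb_nonneg b _)
            have h2 := fp_le_norm (p := p) (x := z) (b := b) hp.le
            have h3 : dist z p < δ := by
              rw [dist_eq_norm]
              by_contra hcon
              push Not at hcon
              have : δ ^ 2 ≤ ‖z - p‖ ^ 2 := by gcongr
              linarith
            have h4 := hδf h3
            rw [Real.dist_eq] at h4
            exact h4.le
      _ = ε * ∫ w : Fin n → ℂ, kb b w := by rw [integral_const_mul, e0]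
  -- Fubini
  have hfub : ∀ (μ : Measure (Fin n → ℂ)) (b : ℝ), 0 < b → μ Set.univ ≤ A →
      Integrable (Fb b) μ ∧ ∫ z, Fb b z ∂μ =
        ∫ p in K, f p * (∫⁻ z, ENNReal.ofReal (b - fp p z) ∂μ).toReal := by
    intro μ b hb hμ
    have : IsFiniteMeasure μ := ⟨lt_of_le_of_lt hμ (lt_top_iff_ne_top.mpr hA)⟩
    have hKfin : IsFiniteMeasure (volume.restrict K : Measure (Fin n → ℂ)) := by
      constructor
      rw [Measure.restrict_apply MeasurableSet.univ, Set.univ_inter]
      exact hK.measure_lt_top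
    have hcont : Continuous fun q : (Fin n → ℂ) × (Fin n → ℂ) => f q.2 * kb b (q.1 - q.2) :=
      (hf.comp continuous_snd).mul ((continuous_kb b).comp (continuous_fst.sub continuous_snd))
    have hint : Integrable (fun q : (Fin n → ℂ) × (Fin n → ℂ) => f q.2 * kb b (q.1 - q.2))
        (μ.prod (volume.restrict K)) := by
      apply Integrable.of_bound hcont.aestronglyMeasurable (B * b)
      filter_upwards with q
      rw [Real.norm_eq_abs, abs_mul, abs_of_nonneg (kb_nonneg b _)]
      exact mul_le_mul (hB _) (kb_le hb.le _) (kb_nonneg b _) hB0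
    have hFK : ∀ z, Fb b z = ∫ p in K, f p * kb b (z - p) := by
      intro z
      rw [hFb]
      simp only
      rw [setIntegral_eq_integral_of_forall_compl_eq_zero]
      intro p hp
      rw [hfK p hp, zero_mul]
    have hFe : Fb b = fun z => ∫ p in K, f p * kb b (z - p) := funext hFK
    constructor
    · rw [hFe]
      exact hint.integral_prod_left
    · rw [hFe]
      rw [integral_integral_swap hint]
      apply integral_congr_ae
      filter_upwards with p
      rw [integral_const_mul]
      congr 1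
      rw [integral_eq_lintegral_of_nonneg_ae]
      · congr 1
        apply lintegral_congr
        intro z
        rw [ofReal_kb]
        rfl
      · filter_upwards with z
        exact kb_nonneg b _
      · exact ((continuous_kb b).comp (continuous_id.sub continuous_const)).aestronglyMeasurable
  -- convergence for the smoothed functions
  have hconvF : ∀ b, 0 < b → b < b₀ → Tendsto (fun j => ∫ z, Fb b z ∂(ν j)) atTop
      (𝓝 (∫ z, Fb b z ∂ν')) := by
    intro b hb hb'
    rw [(hfub ν' b hb hν').2]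
    have hmain : Tendsto (fun j => ∫ p in K, f p *
        (∫⁻ z, ENNReal.ofReal (b - fp p z) ∂(ν j)).toReal) atTop
        (𝓝 (∫ p in K, f p * (∫⁻ z, ENNReal.ofReal (b - fp p z) ∂ν').toReal)) := by
      have hbd : ∀ (μ : Measure (Fin n → ℂ)), μ Set.univ ≤ A → ∀ p,
          ∫⁻ z, ENNReal.ofReal (b - fp p z) ∂μ ≤ ENNReal.ofReal b * A := by
        intro μ hμ p
        calc ∫⁻ z, ENNReal.ofReal (b - fp p z) ∂μ ≤ ∫⁻ z, ENNReal.ofReal b ∂μ := by
              apply lintegral_mono
              intro z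
              apply ENNReal.ofReal_le_ofReal
              have := fp_nonneg p z
              linarith
          _ = ENNReal.ofReal b * μ Set.univ := lintegral_const _
          _ ≤ ENNReal.ofReal b * A := by gcongr
      have hAb : ENNReal.ofReal b * A ≠ ⊤ := ENNReal.mul_ne_top ENNReal.ofReal_ne_top hA
      apply tendsto_integral_filter_of_dominated_convergence
        (fun _ => B * (ENNReal.ofReal b * A).toReal)
      · filter_upwards [hν] with j hj
        have : IsFiniteMeasure (ν j) := ⟨lt_of_le_of_lt hj (lt_top_iff_ne_top.mpr hA)⟩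
        apply AEStronglyMeasurable.mul hf.aestronglyMeasurable
        apply AEMeasurable.aestronglyMeasurable
        apply AEMeasurable.ennreal_toReal
        apply Measurable.aemeasurable
        have hm : Measurable (Function.uncurry fun (p z : Fin n → ℂ) =>
            ENNReal.ofReal (b - fp p z)) := by
          apply ENNReal.measurable_ofReal.comp
          apply Continuous.measurable
          exact continuous_const.sub (continuous_fsPot.comp (continuous_snd.sub continuous_fst))
        exact hm.lintegral_prod_right'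
      · filter_upwards [hν] with j hj
        filter_upwards with p
        rw [Real.norm_eq_abs, abs_mul, abs_of_nonneg ENNReal.toReal_nonneg]
        apply mul_le_mul (hB _) _ ENNReal.toReal_nonneg hB0
        exact ENNReal.toReal_mono hAb (hbd _ hj p)
      · have hKfin : IsFiniteMeasure (volume.restrict K : Measure (Fin n → ℂ)) := by
          constructor
          rw [Measure.restrict_apply MeasurableSet.univ, Set.univ_inter]
          exact hK.measure_lt_top
        exact integrable_const _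
      · rw [ae_restrict_iff' hK.measurableSet]
        filter_upwards with p hp
        apply Tendsto.const_mul
        have hne : ∫⁻ z, ENNReal.ofReal (b - fp p z) ∂ν' ≠ ⊤ :=
          ne_top_of_le_ne_top hAb (hbd _ hν' p)
        exact (ENNReal.tendsto_toReal hne).comp (hbump b hb hb' p hp)
    refine hmain.congr' ?_
    filter_upwards [hν] with j hj
    exact ((hfub (ν j) b hb hj).2).symm
  -- conclusion
  have hest : ∀ (μ : Measure (Fin n → ℂ)) (b ε : ℝ), 0 < b → 0 < ε → μ Set.univ ≤ A →
      (∀ z : Fin n → ℂ, |(∫ w : Fin n → ℂ, kb b w) * f z - Fb b z| ≤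
        ε * ∫ w : Fin n → ℂ, kb b w) →
      |(∫ w : Fin n → ℂ, kb b w) * (∫ z, f z ∂μ) - ∫ z, Fb b z ∂μ| ≤
        ε * (∫ w : Fin n → ℂ, kb b w) * a := by
    intro μ b ε hb hε hμ hz
    have : IsFiniteMeasure μ := ⟨lt_of_le_of_lt hμ (lt_top_iff_ne_top.mpr hA)⟩
    have hfi : Integrable f μ := Integrable.of_bound hf.aestronglyMeasurable B
      (Filter.Eventually.of_forall fun x => hB x)
    rw [← integral_const_mul, ← integral_sub (hfi.const_mul _) (hfub μ b hb hμ).1]
    have hk := (integral_kb_pos (n := n) hb).le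
    calc |∫ z, ((∫ w : Fin n → ℂ, kb b w) * f z - Fb b z) ∂μ|
        ≤ ∫ z, |(∫ w : Fin n → ℂ, kb b w) * f z - Fb b z| ∂μ := abs_integral_le_integral_abs
      _ ≤ ∫ _z, (ε * ∫ w : Fin n → ℂ, kb b w) ∂μ :=
          integral_mono_of_nonneg (Filter.Eventually.of_forall fun z => abs_nonneg _)
            (integrable_const _) (Filter.Eventually.of_forall hz)
      _ = ε * (∫ w : Fin n → ℂ, kb b w) * (μ Set.univ).toReal := by
          rw [integral_const]
          simp only [Measure.real, smul_eq_mul]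
          ring
      _ ≤ ε * (∫ w : Fin n → ℂ, kb b w) * a := by
          apply mul_le_mul_of_nonneg_left (ENNReal.toReal_mono hA hμ)
          positivity
  rw [Metric.tendsto_atTop]
  intro δ hδ
  obtain ⟨b, hb, hb', hz⟩ := happrox (δ / (8 * (a + 1))) (by positivity)
  set k₀ : ℝ := ∫ w : Fin n → ℂ, kb b w with hk₀
  have hk₀p : 0 < k₀ := integral_kb_pos hb
  have h1 := (Metric.tendsto_nhds.mp (hconvF b hb hb')) (δ / 4 * k₀) (by positivity)
  obtain ⟨N, hN⟩ := eventually_atTop.mp (h1.and hν)
  refine ⟨N, ?_⟩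
  intro j hj
  obtain ⟨h2, h3⟩ := hN j hj
  rw [Real.dist_eq] at h2 ⊢
  have h4 := hest (ν j) b _ hb (by positivity) h3 hz
  have h5 := hest ν' b _ hb (by positivity) hν' hz
  have h6 : δ / (8 * (a + 1)) * k₀ * a ≤ δ / 8 * k₀ := by
    have : δ / (8 * (a + 1)) * k₀ * a ≤ δ / (8 * (a + 1)) * k₀ * (a + 1) := by
      gcongr
      linarith
    refine this.trans (le_of_eq ?_)
    field_simp
  have h7 : k₀ * |(∫ z, f z ∂(ν j)) - ∫ z, f z ∂ν'| < k₀ * δ := by
    rw [← abs_of_pos hk₀p, ← abs_mul, abs_of_pos hk₀p, mul_sub]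
    have e : k₀ * (∫ z, f z ∂(ν j)) - k₀ * ∫ z, f z ∂ν' =
        (k₀ * (∫ z, f z ∂(ν j)) - ∫ z, Fb b z ∂(ν j)) -
        (k₀ * (∫ z, f z ∂ν') - ∫ z, Fb b z ∂ν') +
        ((∫ z, Fb b z ∂(ν j)) - ∫ z, Fb b z ∂ν') := by ring
    rw [e]
    have t1 := abs_add_le ((k₀ * (∫ z, f z ∂(ν j)) - ∫ z, Fb b z ∂(ν j)) -
        (k₀ * (∫ z, f z ∂ν') - ∫ z, Fb b z ∂ν')) ((∫ z, Fb b z ∂(ν j)) - ∫ z, Fb b z ∂ν')
    have t2 := abs_sub (k₀ * (∫ z, f z ∂(ν j)) - ∫ z, Fb b z ∂(ν j))
        (k₀ * (∫ z, f z ∂ν') - ∫ z, Fb b z ∂ν')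
    have : 0 < δ * k₀ := by positivity
    nlinarith
  exact lt_of_mul_lt_mul_left h7 hk₀p.le

end Pool.Agent.Helper853.Bk
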