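import Pool.Agent.Helper853.Zm.Defs

open scoped Topology ENNReal ComplexConjugate
open MeasureTheory Filter

namespace Pool.Agent.Helper853.Bk

open Pool.Agent.Helper853.Zm

/-- The weight `e^{-2jφ}`, with values in `[0, ∞]` (it is `∞` where `φ = -∞` and `j ≥ 1`). -/
noncomputable def weight {n : ℕ} (φ : (Fin n → ℂ) → EReal) (j : ℕ) (z : Fin n → ℂ) : ℝ≥0∞ :=
  EReal.exp (-(2 * (j : EReal) * φ z))

/-- The measure `e^{-2jφ} dV` on the unit ball of `ℂ^n`, where `dV` is Lebesgue measure. -/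
noncomputable def wMeasure {n : ℕ} (φ : (Fin n → ℂ) → EReal) (j : ℕ) : Measure (Fin n → ℂ) :=
  (volume.restrict (unitBall n)).withDensity (weight φ j)

/-- `f` belongs to `H(jφ)`: it is holomorphic on the unit ball and
`∫_B |f|^2 e^{-2jφ} dV < ∞`. -/
def MemH {n : ℕ} (φ : (Fin n → ℂ) → EReal) (j : ℕ) (f : (Fin n → ℂ) → ℂ) : Prop :=
  DifferentiableOn ℂ f (unitBall n) ∧ ∫⁻ z, ENNReal.ofReal (‖f z‖ ^ 2) ∂(wMeasure φ j) < ⊤

/-- The sequence `(f_k)` is an orthonormal basis of the Hilbert space `H(jφ)`: all `f_k` belong to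
`H(jφ)`, they are orthonormal for the inner product `∫_B f \bar g e^{-2jφ} dV`, and their finite
linear combinations are dense in `H(jφ)` for the norm `(∫_B |f|^2 e^{-2jφ} dV)^{1/2}`. -/
structure IsONB {n : ℕ} (φ : (Fin n → ℂ) → EReal) (j : ℕ) (f : ℕ → (Fin n → ℂ) → ℂ) : Prop where
  mem : ∀ k, MemH φ j (f k)
  orthonormal : ∀ k l, ∫ z, f k z * conj (f l z) ∂(wMeasure φ j) = if k = l then 1 else 0
  dense : ∀ g, MemH φ j g → ∀ ε : ℝ≥0∞, 0 < ε → ∃ (N : ℕ) (c : ℕ → ℂ),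
    ∫⁻ z, ENNReal.ofReal (‖g z - ∑ k ∈ Finset.range N, c k * f k z‖ ^ 2) ∂(wMeasure φ j) < ε

/-- The Bergman potential `φ_j = (1/(2j)) log ∑_k |f_k|^2` attached to a sequence `(f_k)`, with
values in `[-∞, ∞]`. -/
noncomputable def bergmanPotential {n : ℕ} (j : ℕ) (f : ℕ → (Fin n → ℂ) → ℂ) (z : Fin n → ℂ) :
    EReal :=
  ((1 / (2 * j) : ℝ) : EReal) * ENNReal.log (∑' k, ENNReal.ofReal (‖f k z‖ ^ 2))

end Pool.Agent.Helper853.Bk
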