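import Pool.Agent.Helper853.Bk.Hilb

open scoped Topology ContDiff ENNReal ComplexConjugate InnerProductSpace
open MeasureTheory Filter Metric

namespace Pool.Agent.Helper853.Bk

open Pool.Agent.Helper853.Zm

variable {n : ℕ} {φ : (Fin n → ℂ) → EReal} {j : ℕ}

/-- the classes of holomorphic functions in `L²` -/
noncomputable def HE (φ : (Fin n → ℂ) → EReal) (j : ℕ) :
    Submodule ℂ (Lp ℂ 2 (wMeasure φ j)) where
  carrier := {u | ∃ f, DifferentiableOn ℂ f (unitBall n) ∧ u =ᵐ[wMeasure φ j] f}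
  add_mem' := by
    rintro u v ⟨f, hf, huf⟩ ⟨g, hg, hvg⟩
    refine ⟨fun z => f z + g z, hf.add hg, ?_⟩
    filter_upwards [Lp.coeFn_add u v, huf, hvg] with z h1 h2 h3
    rw [h1, Pi.add_apply, h2, h3]
  zero_mem' := ⟨fun _ => 0, differentiableOn_const _, Lp.coeFn_zero _ _ _⟩
  smul_mem' := by
    rintro c u ⟨f, hf, huf⟩
    refine ⟨fun z => c * f z, hf.const_mul c, ?_⟩
    filter_upwards [Lp.coeFn_smul c u, huf] with z h1 h2
    rw [h1, Pi.smul_apply, h2, smul_eq_mul]

lemma mem_HE {u : Lp ℂ 2 (wMeasure φ j)} :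
    u ∈ HE φ j ↔ ∃ f, DifferentiableOn ℂ f (unitBall n) ∧ u =ᵐ[wMeasure φ j] f := Iff.rfl

lemma toLp_mem {f : (Fin n → ℂ) → ℂ} (hf : MemH φ j f) : hf.memLp.toLp f ∈ HE φ j :=
  ⟨f, hf.1, hf.memLp.coeFn_toLp⟩

/-- the inner product in terms of representatives -/
lemma inner_repr {u v : Lp ℂ 2 (wMeasure φ j)} {f g : (Fin n → ℂ) → ℂ}
    (hu : u =ᵐ[wMeasure φ j] f) (hv : v =ᵐ[wMeasure φ j] g) :
    ∫ z, f z * conj (g z) ∂(wMeasure φ j) = ⟪v, u⟫_ℂ := by
  rw [L2.inner_def]
  apply integral_congr_ae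
  filter_upwards [hu, hv] with z h1 h2
  rw [h1, h2]
  simp [RCLike.inner_apply]

lemma poly_memH (h : GoodWeight φ j) (i : Fin n) (p : Polynomial ℂ) :
    MemH φ j fun z => p.eval (z i) := by
  have hd : Differentiable ℂ fun z : Fin n → ℂ => p.eval (z i) :=
    p.differentiable.comp (differentiable_apply i)
  refine ⟨hd.differentiableOn, ?_⟩
  obtain ⟨C, hC⟩ := ((isCompact_closedBall (0 : Fin n → ℂ) 1).image hd.continuous.norm).bddAbove
  have h1 : ∀ z ∈ unitBall n, ‖p.eval (z i)‖ ≤ C := by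
    intro z hz
    apply hC
    refine ⟨z, ?_, rfl⟩
    have hz' : ∑ i, ‖z i‖ ^ 2 < 1 := hz
    rw [mem_closedBall_zero_iff, pi_norm_le_iff_of_nonneg zero_le_one]
    intro i
    have h1 : ‖z i‖ ^ 2 ≤ ∑ i, ‖z i‖ ^ 2 :=
      Finset.single_le_sum (f := fun i => ‖z i‖ ^ 2) (fun i _ => by positivity)
        (Finset.mem_univ i)
    have h2 : ‖z i‖ ^ 2 ≤ 1 := by linarith
    exact (pow_le_one_iff_of_nonneg (norm_nonneg _) two_ne_zero).mp h2
  have h2 : ∀ᵐ z ∂(wMeasure φ j), ENNReal.ofReal (‖p.eval (z i)‖ ^ 2) ≤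
      ENNReal.ofReal (C ^ 2) := by
    have h3 : ∀ᵐ z ∂(volume.restrict (unitBall n)), ENNReal.ofReal (‖p.eval (z i)‖ ^ 2) ≤
        ENNReal.ofReal (C ^ 2) := by
      rw [ae_restrict_iff' isOpen_unitBall.measurableSet]
      filter_upwards with z hz
      apply ENNReal.ofReal_le_ofReal
      have := h1 z hz
      gcongr
    exact wMeasure_ac.ae_le h3
  calc ∫⁻ z, ENNReal.ofReal (‖p.eval (z i)‖ ^ 2) ∂(wMeasure φ j) ≤
      ∫⁻ _, ENNReal.ofReal (C ^ 2) ∂(wMeasure φ j) := lintegral_mono_ae h2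
    _ = ENNReal.ofReal (C ^ 2) * wMeasure φ j Set.univ := lintegral_const _
    _ < ⊤ := ENNReal.mul_lt_top ENNReal.ofReal_lt_top h.fin

/-- the polynomials in one of the variables as elements of `H(jφ)` -/
noncomputable def polyMap (h : GoodWeight φ j) (i : Fin n) : Polynomial ℂ →ₗ[ℂ] HE φ j where
  toFun p := ⟨(poly_memH h i p).memLp.toLp _, toLp_mem (poly_memH h i p)⟩
  map_add' := by
    intro p q
    apply Subtype.ext
    simp only [Submodule.coe_add]
    rw [← MemLp.toLp_add]
    congr 1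
    ext z
    simp
  map_smul' := by
    intro c p
    apply Subtype.ext
    simp only [RingHom.id_apply, Submodule.coe_smul]
    rw [← MemLp.toLp_const_smul]
    congr 1
    ext z
    simp

lemma polyMap_injective (h : GoodWeight φ j) (i : Fin n) :
    Function.Injective (polyMap h i) := by
  rw [injective_iff_map_eq_zero]
  intro p hp
  have h1 : (poly_memH h i p).memLp.toLp _ = 0 := congrArg Subtype.val hp
  have h2 : (fun z : Fin n → ℂ => p.eval (z i)) =ᵐ[wMeasure φ j] 0 := by
    have h1' := (Lp.eq_zero_iff_ae_eq_zero).mp h1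
    exact (poly_memH h i p).memLp.coeFn_toLp.symm.trans h1'
  have h3 : ∫⁻ z, ENNReal.ofReal (‖p.eval (z i)‖ ^ 2) ∂(wMeasure φ j) = 0 := by
    rw [lintegral_eq_zero_iff']
    · filter_upwards [h2] with z hz
      have hz' : p.eval (z i) = 0 := hz
      rw [hz']
      norm_num
    · exact ((poly_memH h i p).aesm.norm.pow 2).aemeasurable.ennreal_ofReal
  have h4 : ∀ z ∈ unitBall n, p.eval (z i) = 0 := by
    intro z hz
    obtain ⟨r, hr, A, hA0, hA, hsub, hB⟩ := h.bergman hz
    have h5 := hB _ (poly_memH h i p).1 z (mem_ball_self hr)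
    rw [h3, mul_zero, nonpos_iff_eq_zero, ENNReal.ofReal_eq_zero] at h5
    have h6 : ‖p.eval (z i)‖ ^ 2 = 0 := le_antisymm h5 (by positivity)
    simpa using h6
  have h5 : ∀ t : ℂ, ‖t‖ < 1 → p.eval t = 0 := by
    intro t ht
    have h6 : (Pi.single i t : Fin n → ℂ) ∈ unitBall n := by
      change ∑ k, ‖(Pi.single i t : Fin n → ℂ) k‖ ^ 2 < 1
      rw [Finset.sum_eq_single i]
      · rw [Pi.single_eq_same]
        nlinarith [norm_nonneg t]
      · intro k _ hk
        rw [Pi.single_eq_of_ne hk]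
        simp
      · simp
    have h7 := h4 _ h6
    rwa [Pi.single_eq_same] at h7
  apply Polynomial.eq_zero_of_infinite_isRoot
  apply Set.Infinite.mono (s := Metric.ball (0 : ℂ) 1)
  · intro t ht
    exact h5 t (by simpa using ht)
  · intro hfin
    have h8 : (volume : Measure ℂ) (Metric.ball (0 : ℂ) 1) = 0 := hfin.measure_zero _
    exact (measure_ball_pos volume (0 : ℂ) one_pos).ne' h8

/-- the space `H(jφ)` is infinite dimensional -/
lemma not_finite_HE (h : GoodWeight φ j) (i : Fin n) : ¬ Module.Finite ℂ (HE φ j) := by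
  intro hfin
  have h1 : Module.Finite ℂ (Polynomial ℂ) :=
    Module.Finite.of_injective (polyMap h i) (polyMap_injective h i)
  exact Polynomial.not_finite h1

/-- existence of an orthonormal basis -/
theorem GoodWeight.exists_onb (h : GoodWeight φ j) (i : Fin n) : ∃ f, IsONB φ j f := by
  classical
  have hfinm : IsFiniteMeasure (wMeasure φ j) := ⟨h.fin⟩
  have hfact : Fact ((2 : ℝ≥0∞) ≠ ⊤) := ⟨by simp⟩
  have hsc : SecondCountableTopology (Lp ℂ 2 (wMeasure φ j)) := inferInstance
  have hsep : TopologicalSpace.SeparableSpace (HE φ j) := inferInstance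
  set s : ℕ → HE φ j := TopologicalSpace.denseSeq (HE φ j) with hs
  obtain ⟨b, hbs, hspan, hli⟩ := exists_linearIndependent ℂ (Set.range s)
  have hdense : Dense ((Submodule.span ℂ b : Submodule ℂ (HE φ j)) : Set (HE φ j)) := by
    rw [hspan]
    exact (TopologicalSpace.denseRange_denseSeq (HE φ j)).mono Submodule.subset_span
  have hbc : b.Countable := (Set.countable_range s).mono hbs
  have hbi : b.Infinite := by
    intro hfin
    apply not_finite_HE h i
    have h1 : FiniteDimensional ℂ (Submodule.span ℂ b) := FiniteDimensional.span_of_finite ℂ hfin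
    have h2 : IsClosed ((Submodule.span ℂ b : Submodule ℂ (HE φ j)) : Set (HE φ j)) :=
      Submodule.closed_of_finiteDimensional _
    have h3 : Submodule.span ℂ b = ⊤ := by
      apply SetLike.coe_injective
      rw [← h2.closure_eq, hdense.closure_eq]
      rfl
    rw [h3] at h1
    exact Module.Finite.equiv (Submodule.topEquiv (R := ℂ) (M := HE φ j))
  have hbC : Countable b := hbc.to_subtype
  have hbI : Infinite b := hbi.to_subtype
  obtain ⟨e⟩ : Nonempty (ℕ ≃ b) := nonempty_equiv_of_countable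
  set v : ℕ → HE φ j := fun i => (e i : HE φ j) with hv
  have hvli : LinearIndependent ℂ v := hli.comp e e.injective
  have hvrange : Set.range v = b := by
    ext x
    constructor
    · rintro ⟨i, rfl⟩
      exact (e i).2
    · intro hx
      exact ⟨e.symm ⟨x, hx⟩, by simp [hv]⟩
  set G : ℕ → HE φ j := InnerProductSpace.gramSchmidtNormed ℂ v with hG
  have hGo : Orthonormal ℂ G := InnerProductSpace.gramSchmidtNormed_orthonormal hvli
  have hGspan : Submodule.span ℂ (Set.range G) = Submodule.span ℂ b := by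
    rw [hG, InnerProductSpace.span_gramSchmidtNormed_range, InnerProductSpace.span_gramSchmidt,
      hvrange]
  choose f hfd hfe using fun k => mem_HE.mp (G k).2
  refine ⟨f, ?_, ?_, ?_⟩
  · intro k
    apply memH_of_memLp (hfd k)
    exact (memLp_congr_ae (hfe k)).mp (Lp.memLp _)
  · intro k l
    rw [inner_repr (hfe k) (hfe l)]
    have h1 := orthonormal_iff_ite.mp hGo l k
    rw [Submodule.coe_inner] at h1
    rw [h1]
    simp only [eq_comm]
  · intro g hg ε hε
    -- a real number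
    obtain ⟨δ, hδ, hδε⟩ : ∃ δ : ℝ, 0 < δ ∧ ENNReal.ofReal (δ ^ 2) ≤ ε := by
      have h1 : min ε 1 ≠ ⊤ := (lt_of_le_of_lt (min_le_right _ _) ENNReal.one_lt_top).ne
      have h2 : 0 < (min ε 1).toReal := ENNReal.toReal_pos (lt_min hε one_pos).ne' h1
      have h3 : (min ε 1).toReal ≤ 1 := by
        have := ENNReal.toReal_mono ENNReal.one_ne_top (min_le_right ε 1)
        simpa using this
      refine ⟨(min ε 1).toReal, h2, ?_⟩
      calc ENNReal.ofReal ((min ε 1).toReal ^ 2) ≤ ENNReal.ofReal ((min ε 1).toReal) := by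
            apply ENNReal.ofReal_le_ofReal
            nlinarith
        _ = min ε 1 := ENNReal.ofReal_toReal h1
        _ ≤ ε := min_le_left _ _
    set u : HE φ j := ⟨hg.memLp.toLp g, toLp_mem hg⟩ with hu
    obtain ⟨x, hx, hxu⟩ : ∃ x ∈ (Submodule.span ℂ b : Submodule ℂ (HE φ j)), dist u x < δ := by
      obtain ⟨x, hx1, hx2⟩ := Metric.dense_iff.mp hdense u δ hδ
      exact ⟨x, hx2, by rw [dist_comm]; exact hx1⟩
    rw [← hGspan, Finsupp.mem_span_range_iff_exists_finsupp] at hx
    obtain ⟨c, hc⟩ := hx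
    obtain ⟨N, hN⟩ : ∃ N, c.support ⊆ Finset.range N := by
      refine ⟨c.support.sup id + 1, ?_⟩
      intro i hi
      rw [Finset.mem_range]
      exact Nat.lt_succ_of_le (Finset.le_sup (f := id) hi)
    refine ⟨N, c, ?_⟩
    have hxsum : x = ∑ k ∈ Finset.range N, c k • G k := by
      rw [← hc]
      exact Finsupp.sum_of_support_subset _ hN _ (fun i _ => zero_smul _ _)
    have hrep : ((u - x : HE φ j) : Lp ℂ 2 (wMeasure φ j)) =ᵐ[wMeasure φ j]
        fun z => g z - ∑ k ∈ Finset.range N, c k * f k z := by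
      have h1 : ∀ M : ℕ, (((∑ k ∈ Finset.range M, c k • G k : HE φ j) :
          Lp ℂ 2 (wMeasure φ j)) : (Fin n → ℂ) → ℂ) =ᵐ[wMeasure φ j]
          fun z => ∑ k ∈ Finset.range M, c k * f k z := by
        intro M
        induction M with
        | zero =>
          simp only [Finset.range_zero, Finset.sum_empty, Submodule.coe_zero]
          exact Lp.coeFn_zero _ _ _
        | succ M ih =>
          rw [Finset.sum_range_succ, Submodule.coe_add, Submodule.coe_smul]
          filter_upwards [ih, hfe M, Lp.coeFn_add ((∑ k ∈ Finset.range M, c k • G k : HE φ j) :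
            Lp ℂ 2 (wMeasure φ j)) (c M • ((G M : HE φ j) : Lp ℂ 2 (wMeasure φ j))),
            Lp.coeFn_smul (c M) ((G M : HE φ j) : Lp ℂ 2 (wMeasure φ j))] with z h1 h2 h3 h4
          rw [h3, Pi.add_apply, h4, Pi.smul_apply, h1, h2, Finset.sum_range_succ, smul_eq_mul]
      have h2 := h1 N
      rw [← hxsum] at h2
      rw [Submodule.coe_sub]
      filter_upwards [Lp.coeFn_sub (u : Lp ℂ 2 (wMeasure φ j)) (x : Lp ℂ 2 (wMeasure φ j)), h2,
        hg.memLp.coeFn_toLp] with z h3 h4 h5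
      rw [h3, Pi.sub_apply, h4]
      congr 1
    have h3 := inner_repr hrep hrep
    rw [inner_self_eq_norm_sq_to_K] at h3
    have h4 := lintegral_sq_eq ((memLp_congr_ae hrep).mp (Lp.memLp _))
      (s := ‖((u - x : HE φ j) : Lp ℂ 2 (wMeasure φ j))‖ ^ 2) (by rw [h3]; push_cast; rfl)
    rw [h4]
    refine lt_of_lt_of_le ?_ hδε
    rw [ENNReal.ofReal_lt_ofReal_iff (by positivity)]
    rw [dist_eq_norm] at hxu
    have h5 : ‖((u - x : HE φ j) : Lp ℂ 2 (wMeasure φ j))‖ < δ := hxu
    gcongr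

end Pool.Agent.Helper853.Bk
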