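import Pool.Agent.Helper853.Bk.Growth

open scoped Topology ENNReal
open MeasureTheory Filter Polynomial

namespace Pool.Agent.Helper853.Zm.Bk

open Pool.Agent.Helper853.Bk

variable {m : ℕ}

lemma rpow_neg_le {a b : ℝ≥0∞} (h : a ≤ b) {s : ℝ} (hs : 0 ≤ s) : b ^ (-s) ≤ a ^ (-s) := by
  rw [ENNReal.rpow_neg, ENNReal.rpow_neg]
  exact ENNReal.inv_le_inv.mpr (ENNReal.rpow_le_rpow h hs)

lemma ofReal_exp_rpow (u s : ℝ) :
    (ENNReal.ofReal (Real.exp u)) ^ s = ENNReal.ofReal (Real.exp (u * s)) := by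
  rw [ENNReal.ofReal_rpow_of_pos (Real.exp_pos _), ← Real.exp_mul]

/-- slice estimate -/
theorem slice_estimate {j : ℕ} (hj : 1 ≤ j) {ρ₀ : ℝ} (hρ₀ : 0 < ρ₀) :
    ∃ (ρ r : ℝ) (N : ℕ) (C : ℝ≥0∞), 0 < ρ ∧ ρ ≤ ρ₀ ∧ 0 < r ∧ r ≤ ρ₀ ∧ C < ⊤ ∧
      ∀ l ≥ N, ∀ a : ℂ, ‖a‖ ≤ r →
        ∫⁻ y in Metric.closedBall (0 : ℂ) ρ,
          (ENNReal.ofReal ‖pp m l a y‖) ^ (-(2 * j / 2 ^ l : ℝ)) ≤ C := by
  have hj' : (1 : ℝ) ≤ j := by exact_mod_cast hj
  obtain ⟨ρ, r, κ, N, hρ, hρle, hr, hrle, hest⟩ := poly_estimates (m := m)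
    (show (0 : ℝ) < 1 / (24 * j) by positivity) hρ₀
  set C₀ := max (volume (Metric.closedBall (0 : ℂ) ρ)) (ENNReal.ofReal (3 * ρ) *
        ∫⁻ z in Metric.closedBall (0 : ℂ) (3 * ρ), (ENNReal.ofReal ‖z‖)⁻¹) with hC₀
  have hC₀top : C₀ < ⊤ := by
    rw [hC₀]
    apply max_lt
    · exact measure_closedBall_lt_top
    · exact ENNReal.mul_lt_top ENNReal.ofReal_lt_top (lintegral_inv_norm_lt_top _)
  refine ⟨ρ, r, N, ENNReal.ofReal (Real.exp (-(2 * j * (κ - Real.log 3)))) * C₀, hρ, hρle, hr,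
    hrle, ENNReal.mul_lt_top ENNReal.ofReal_lt_top hC₀top, ?_⟩
  intro l hl a ha
  obtain ⟨hlow, hupp⟩ := hest l hl a ha
  set σ : ℝ := 2 * j / 2 ^ l with hσ
  have hσ0 : 0 ≤ σ := by positivity
  obtain ⟨S, hS, hcount, hlower⟩ := poly_lower (p := ppoly m a l) hρ
    (y₀ := (ρ : ℂ)) (by rw [Complex.norm_real, Real.norm_of_nonneg hρ.le])
    (M := Real.exp (2 ^ l * (κ + 6 * (1 / (24 * j))))) (by
      intro w hw
      rw [eval_ppoly]
      exact hupp w hw)
  rw [eval_ppoly] at hcount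
  have hN1 : σ * S.card ≤ 1 := by
    have h1 : 2 ^ S.card * Real.exp (2 ^ l * κ) ≤
        Real.exp (2 ^ l * (κ + 6 * (1 / (24 * j)))) := by
      refine le_trans ?_ hcount
      gcongr
    have h2 := Real.log_le_log (by positivity) h1
    rw [Real.log_mul (by positivity) (Real.exp_pos _).ne', Real.log_pow, Real.log_exp,
      Real.log_exp] at h2
    have h3 : (S.card : ℝ) * Real.log 2 ≤ 2 ^ l * (1 / (4 * j)) := by
      have e : (2 : ℝ) ^ l * (κ + 6 * (1 / (24 * j))) = 2 ^ l * κ + 2 ^ l * (1 / (4 * j)) := by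
        field_simp
        ring
      rw [e] at h2
      linarith
    have h4 : (S.card : ℝ) * (1 / 2) ≤ 2 ^ l * (1 / (4 * j)) := by
      refine le_trans ?_ h3
      have := Real.log_two_gt_d9
      gcongr
      linarith
    rw [hσ, div_mul_eq_mul_div, div_le_one (by positivity)]
    have h5 : 2 ^ l * (1 / (4 * (j : ℝ))) = 2 ^ l / (4 * j) := by ring
    rw [h5, le_div_iff₀ (by positivity)] at h4
    linarith
  have hpt : ∀ y ∈ Metric.closedBall (0 : ℂ) ρ,
      (ENNReal.ofReal ‖pp m l a y‖) ^ (-σ) ≤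
        ENNReal.ofReal (Real.exp (-(2 * j * (κ - Real.log 3)))) *
        (ENNReal.ofReal (S.map fun a => ‖y - a‖ / (3 * ρ)).prod) ^ (-σ) := by
    intro y hy
    rw [mem_closedBall_zero_iff] at hy
    have h1 := hlower y hy
    rw [eval_ppoly, eval_ppoly] at h1
    set P := (S.map fun a => ‖y - a‖ / (3 * ρ)).prod with hP
    have hP0 : 0 ≤ P := Multiset.prod_nonneg (by
        intro b hb
        obtain ⟨c, -, rfl⟩ := Multiset.mem_map.mp hb
        positivity)
    have h2 : Real.exp (2 ^ l * (κ - Real.log 3)) * P ≤ ‖pp m l a y‖ := by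
      refine le_trans ?_ h1
      apply mul_le_mul_of_nonneg_right _ hP0
      have e : Real.exp (2 ^ l * (κ - Real.log 3)) =
          Real.exp (2 ^ l * κ) * (1 / 3) ^ (2 ^ l) := by
        rw [mul_sub, sub_eq_add_neg, Real.exp_add]
        congr 1
        have e2 := Real.exp_nat_mul (-Real.log 3) (2 ^ l)
        rw [Real.exp_neg, Real.exp_log (by norm_num)] at e2
        rw [one_div, ← e2]
        push_cast
        ring_nf
      rw [e]
      have h3 : (1 / 3 : ℝ) ^ (2 ^ l) ≤ (1 / 3) ^ (ppoly m a l).natDegree :=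
        pow_le_pow_of_le_one (by norm_num) (by norm_num) (natDegree_ppoly l a)
      gcongr
    calc (ENNReal.ofReal ‖pp m l a y‖) ^ (-σ) ≤
        (ENNReal.ofReal (Real.exp (2 ^ l * (κ - Real.log 3)) * P)) ^ (-σ) :=
          rpow_neg_le (ENNReal.ofReal_le_ofReal h2) hσ0
      _ = (ENNReal.ofReal (Real.exp (2 ^ l * (κ - Real.log 3)))) ^ (-σ) *
          (ENNReal.ofReal P) ^ (-σ) := by
          rw [ENNReal.ofReal_mul (Real.exp_nonneg _), ENNReal.rpow_neg, ENNReal.rpow_neg,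
            ENNReal.rpow_neg, ENNReal.mul_rpow_of_nonneg _ _ hσ0, ENNReal.mul_inv]
          · right
            exact ENNReal.rpow_ne_top_of_nonneg hσ0 ENNReal.ofReal_ne_top
          · left
            exact ENNReal.rpow_ne_top_of_nonneg hσ0 ENNReal.ofReal_ne_top
      _ = _ := by
          rw [ofReal_exp_rpow]
          congr 3
          rw [hσ]
          field_simp
  calc ∫⁻ y in Metric.closedBall (0 : ℂ) ρ, (ENNReal.ofReal ‖pp m l a y‖) ^ (-σ)
      ≤ ∫⁻ y in Metric.closedBall (0 : ℂ) ρ,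
        ENNReal.ofReal (Real.exp (-(2 * j * (κ - Real.log 3)))) *
        (ENNReal.ofReal (S.map fun a => ‖y - a‖ / (3 * ρ)).prod) ^ (-σ) :=
        setLIntegral_mono' Metric.isClosed_closedBall.measurableSet hpt
    _ = ENNReal.ofReal (Real.exp (-(2 * j * (κ - Real.log 3)))) *
        ∫⁻ y in Metric.closedBall (0 : ℂ) ρ,
        (ENNReal.ofReal (S.map fun a => ‖y - a‖ / (3 * ρ)).prod) ^ (-σ) := by
        rw [lintegral_const_mul' _ _ ENNReal.ofReal_ne_top]
    _ ≤ _ := by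
        gcongr
        exact lintegral_prod_le hρ hS hN1

/-- the domain of the local estimate -/
def Wd (m : ℕ) (ρ r : ℝ) : Set (Fin (m + 2) → ℂ) := {x | ‖x 0‖ ≤ r ∧ ‖x 1‖ ≤ ρ ∧ ‖x‖ ≤ 1}

lemma isClosed_Wd (ρ r : ℝ) : IsClosed (Wd m ρ r) := by
  have e : Wd m ρ r = {x | ‖x 0‖ ≤ r} ∩ ({x | ‖x 1‖ ≤ ρ} ∩ {x | ‖x‖ ≤ 1}) := rfl
  rw [e]
  exact (isClosed_le (by fun_prop) continuous_const).inter
    ((isClosed_le (by fun_prop) continuous_const).inter
      (isClosed_le (by fun_prop) continuous_const))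

/-- Tonelli -/
lemma tonelli {ρ r : ℝ} {F : ℂ × ℂ → ℝ≥0∞} (hF : Measurable F) {C : ℝ≥0∞}
    (h : ∀ a : ℂ, ‖a‖ ≤ r → ∫⁻ y in Metric.closedBall (0 : ℂ) ρ, F (a, y) ≤ C) :
    ∫⁻ x in Wd m ρ r, F (x 0, x 1) ≤
      C * volume (Metric.closedBall (0 : Fin (m + 1) → ℂ) 1) := by
  classical
  set e := MeasurableEquiv.piFinSuccAbove (fun _ : Fin (m + 2) => ℂ) 1 with he
  have hmp : MeasurePreserving e volume volume :=
    volume_preserving_piFinSuccAbove (fun _ : Fin (m + 2) => ℂ) 1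
  set T : Set (ℂ × (Fin (m + 1) → ℂ)) := {q | ‖q.1‖ ≤ ρ ∧ ‖q.2 0‖ ≤ r ∧ ‖q.2‖ ≤ 1} with hT
  have hTm : MeasurableSet T := by
    have e : T = {q | ‖q.1‖ ≤ ρ} ∩ ({q | ‖q.2 0‖ ≤ r} ∩ {q | ‖q.2‖ ≤ 1}) := rfl
    rw [e]
    exact ((isClosed_le (by fun_prop) continuous_const).inter
      ((isClosed_le (by fun_prop) continuous_const).inter
        (isClosed_le (by fun_prop) continuous_const))).measurableSet
  set G : ℂ × (Fin (m + 1) → ℂ) → ℝ≥0∞ := T.indicator (fun q => F (q.2 0, q.1)) with hG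
  have hGm : Measurable G := by
    apply Measurable.indicator _ hTm
    apply hF.comp
    fun_prop
  have h1 : ∫⁻ x in Wd m ρ r, F (x 0, x 1) ≤ ∫⁻ x, G (e x) := by
    rw [← lintegral_indicator (isClosed_Wd ρ r).measurableSet]
    apply lintegral_mono
    intro x
    by_cases hx : x ∈ Wd m ρ r
    · have hex : e x ∈ T := by
        refine ⟨hx.2.1, hx.1, ?_⟩
        rw [pi_norm_le_iff_of_nonneg zero_le_one]
        intro i
        exact (norm_le_pi_norm x _).trans hx.2.2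
      simp only [Set.indicator_of_mem hx, hG, Set.indicator_of_mem hex]
      exact le_rfl
    · simp only [Set.indicator_of_notMem hx]
      exact zero_le
  refine h1.trans ?_
  rw [hmp.lintegral_comp hGm, Measure.volume_eq_prod, lintegral_prod_symm _ hGm.aemeasurable]
  calc ∫⁻ z : Fin (m + 1) → ℂ, ∫⁻ y : ℂ, G (y, z)
      ≤ ∫⁻ z : Fin (m + 1) → ℂ, (Metric.closedBall (0 : Fin (m + 1) → ℂ) 1).indicator
        (fun _ => C) z := by
        apply lintegral_mono
        intro z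
        simp only
        by_cases hz : ‖z 0‖ ≤ r ∧ ‖z‖ ≤ 1
        · rw [Set.indicator_of_mem (by simpa using hz.2)]
          refine le_trans ?_ (h (z 0) hz.1)
          rw [← lintegral_indicator Metric.isClosed_closedBall.measurableSet]
          apply lintegral_mono
          intro y
          by_cases hy : y ∈ Metric.closedBall (0 : ℂ) ρ
          · have : (y, z) ∈ T := ⟨by simpa using hy, hz.1, hz.2⟩
            simp only [hG, Set.indicator_of_mem hy, Set.indicator_of_mem this]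
            exact le_rfl
          · have : (y, z) ∉ T := fun h => hy (by simpa using h.1)
            simp only [hG, Set.indicator_of_notMem this]
            exact zero_le
        · have : ∀ y : ℂ, G (y, z) = 0 := by
            intro y
            simp only [hG]
            rw [Set.indicator_of_notMem]
            intro h
            exact hz h.2
          simp [this]
    _ = C * volume (Metric.closedBall (0 : Fin (m + 1) → ℂ) 1) := by
        rw [lintegral_indicator Metric.isClosed_closedBall.measurableSet]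
        simp

lemma continuous_pp (l : ℕ) : Continuous fun q : ℂ × ℂ => pp m l q.1 q.2 := by
  induction l with
  | zero =>
    simp only [pp]
    exact continuous_fst
  | succ l ih =>
    simp only [pp]
    exact (ih.pow 2).add (continuous_const.mul continuous_snd)

lemma exp_hc_le (l j : ℕ) {x : Fin (m + 2) → ℂ} (hx : x ≠ 0) :
    ENNReal.ofReal (Real.exp (-(2 * j * hc m l x))) ≤
      (ENNReal.ofReal ‖pp m l (x 0) (x 1)‖) ^ (-(2 * j / 2 ^ l : ℝ)) := by
  have h1 := norm_pp_le_exp (m := m) l hx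
  have h2 := rpow_neg_le (ENNReal.ofReal_le_ofReal h1)
    (show (0 : ℝ) ≤ 2 * j / 2 ^ l by positivity)
  rw [ofReal_exp_rpow] at h2
  refine le_trans (le_of_eq ?_) h2
  congr 2
  field_simp

lemma measurable_hc (l : ℕ) : Measurable (hc m l) := by
  have h : hc m l = fun x => 1 / (2 * 2 ^ l) * Real.log (‖pp m l (x 0) (x 1)‖ ^ 2 +
      ∑ j : Fin (m + 1), ‖x j.succ‖ ^ (2 * 2 ^ l)) := by
    ext x
    unfold hc hh
    rw [SS_homog]
  rw [h]
  apply Measurable.const_mul
  apply Real.measurable_log.comp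
  apply Continuous.measurable
  have h2 : Continuous fun x : Fin (m + 2) → ℂ => pp m l (x 0) (x 1) :=
    Continuous.comp (g := fun q : ℂ × ℂ => pp m l q.1 q.2)
      (f := fun x : Fin (m + 2) → ℂ => (x 0, x 1)) (continuous_pp l) (by fun_prop)
  fun_prop

lemma hc_tendsto {x : Fin (m + 2) → ℂ} (hx : x ≠ 0) :
    Tendsto (fun l => hc m l x) atTop (𝓝 (Vc m x)) := by
  rw [Metric.tendsto_atTop]
  intro ε hε
  obtain ⟨N, hN⟩ := hc_unif (m := m) (norm_pos_iff.mpr hx) (show 0 < ε / 2 by positivity)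
  refine ⟨N, fun l hl => ?_⟩
  rw [Real.dist_eq]
  have := hN l hl x le_rfl
  linarith

/-- local integrability of `e^{-2jφ}` near the pole -/
theorem lintegral_exp_local {j : ℕ} (hj : 1 ≤ j) {ρ₀ : ℝ} (hρ₀ : 0 < ρ₀) :
    ∃ (ρ r : ℝ), 0 < ρ ∧ ρ ≤ ρ₀ ∧ 0 < r ∧ r ≤ ρ₀ ∧
      ∫⁻ x in Wd m ρ r, ENNReal.ofReal (Real.exp (-(2 * j * Vc m x))) < ⊤ := by
  obtain ⟨ρ, r, N, C, hρ, hρle, hr, hrle, hC, hest⟩ := slice_estimate (m := m) hj hρ₀
  refine ⟨ρ, r, hρ, hρle, hr, hrle, ?_⟩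
  have hWm := (isClosed_Wd (m := m) ρ r).measurableSet
  have hne : ∀ᵐ x : Fin (m + 2) → ℂ ∂(volume.restrict (Wd m ρ r)), x ≠ 0 := by
    apply ae_restrict_of_ae
    rw [ae_iff]
    simp
  have hbound : ∀ l ≥ N, ∫⁻ x in Wd m ρ r, ENNReal.ofReal (Real.exp (-(2 * j * hc m l x))) ≤
      C * volume (Metric.closedBall (0 : Fin (m + 1) → ℂ) 1) := by
    intro l hl
    have hFm : Measurable fun q : ℂ × ℂ =>
        (ENNReal.ofReal ‖pp m l q.1 q.2‖) ^ (-(2 * j / 2 ^ l : ℝ)) := by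
      apply Measurable.pow_const
      exact ENNReal.measurable_ofReal.comp (continuous_pp l).norm.measurable
    refine le_trans (lintegral_mono_ae ?_) (tonelli (m := m) hFm (hest l hl))
    filter_upwards [hne] with x hx
    exact exp_hc_le l j hx
  have hlim : ∫⁻ x in Wd m ρ r, ENNReal.ofReal (Real.exp (-(2 * j * Vc m x))) =
      ∫⁻ x in Wd m ρ r, liminf (fun l => ENNReal.ofReal (Real.exp (-(2 * j * hc m l x))))
        atTop := by
    apply lintegral_congr_ae
    filter_upwards [hne] with x hx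
    symm
    apply Tendsto.liminf_eq
    apply ENNReal.tendsto_ofReal
    apply (Real.continuous_exp.tendsto _).comp
    exact ((hc_tendsto hx).const_mul _).neg
  rw [hlim]
  refine lt_of_le_of_lt (lintegral_liminf_le fun l => ?_) ?_
  · exact ENNReal.measurable_ofReal.comp (Real.measurable_exp.comp
      ((measurable_hc l).const_mul _).neg)
  · refine lt_of_le_of_lt (b := C * volume (Metric.closedBall (0 : Fin (m + 1) → ℂ) 1)) ?_
      (ENNReal.mul_lt_top hC measure_closedBall_lt_top)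
    apply liminf_le_of_frequently_le
    · apply Filter.Eventually.frequently
      filter_upwards [eventually_ge_atTop N] with l hl
      exact hbound l hl
    · isBoundedDefault

/-- integrability of `e^{-2jφ}` on the unit ball -/
theorem lintegral_exp_lt_top {j : ℕ} (hj : 1 ≤ j) :
    ∫⁻ x in {x : Fin (m + 2) → ℂ | ∑ i, ‖x i‖ ^ 2 < 1},
      ENNReal.ofReal (Real.exp (-(2 * j * Vc m x))) < ⊤ := by
  obtain ⟨ρ, r, hρ, -, hr, -, hlt⟩ := lintegral_exp_local (m := m) hj one_pos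
  set Z : Set (Fin (m + 2) → ℂ) := Metric.closedBall 0 1 ∩ ({x | r ≤ ‖x 0‖} ∪ {x | ρ ≤ ‖x 1‖})
    with hZ
  have hZc : IsCompact Z := by
    apply (isCompact_closedBall _ _).inter_right
    exact (isClosed_le continuous_const (by fun_prop)).union
      (isClosed_le continuous_const (by fun_prop))
  have hZ0 : ∀ x ∈ Z, x ≠ 0 := by
    rintro x hx rfl
    rcases hx.2 with h | h
    · simp only [Set.mem_ofPred_eq, Pi.zero_apply, norm_zero] at h
      linarith
    · simp only [Set.mem_ofPred_eq, Pi.zero_apply, norm_zero] at h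
      linarith
  have hcont : ContinuousOn (Vc m) Z := continuousOn_Vc.mono fun x hx => hZ0 x hx
  obtain ⟨c, hc⟩ := (hZc.image_of_continuousOn hcont).bddBelow
  have hsub : {x : Fin (m + 2) → ℂ | ∑ i, ‖x i‖ ^ 2 < 1} ⊆ Wd m ρ r ∪ Z := by
    intro x hx
    have hx' : ∑ i, ‖x i‖ ^ 2 < 1 := hx
    have hn : ‖x‖ ≤ 1 := by
      rw [pi_norm_le_iff_of_nonneg zero_le_one]
      intro i
      have h1 : ‖x i‖ ^ 2 ≤ ∑ i, ‖x i‖ ^ 2 :=
        Finset.single_le_sum (f := fun i => ‖x i‖ ^ 2) (fun i _ => by positivity)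
          (Finset.mem_univ i)
      have h2 : ‖x i‖ ^ 2 ≤ 1 := by linarith
      exact (pow_le_one_iff_of_nonneg (norm_nonneg _) two_ne_zero).mp h2
    by_cases hx0 : ‖x 0‖ ≤ r
    · by_cases hx1 : ‖x 1‖ ≤ ρ
      · exact Or.inl ⟨hx0, hx1, hn⟩
      · push Not at hx1
        exact Or.inr ⟨by simpa using hn, Or.inr hx1.le⟩
    · push Not at hx0
      exact Or.inr ⟨by simpa using hn, Or.inl hx0.le⟩
  refine lt_of_le_of_lt (lintegral_mono_set hsub) ?_
  refine lt_of_le_of_lt (lintegral_union_le _ _ _) ?_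
  apply ENNReal.add_lt_top.mpr
  refine ⟨hlt, ?_⟩
  calc ∫⁻ x in Z, ENNReal.ofReal (Real.exp (-(2 * j * Vc m x)))
      ≤ ∫⁻ x in Z, ENNReal.ofReal (Real.exp (-(2 * j * c))) := by
        apply setLIntegral_mono' hZc.measurableSet
        intro x hx
        apply ENNReal.ofReal_le_ofReal
        apply Real.exp_le_exp.mpr
        have : c ≤ Vc m x := hc ⟨x, hx, rfl⟩
        have h0 : (0 : ℝ) ≤ 2 * j := by positivity
        nlinarith
    _ = ENNReal.ofReal (Real.exp (-(2 * j * c))) * volume Z := by simp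
    _ < ⊤ := ENNReal.mul_lt_top ENNReal.ofReal_lt_top hZc.measure_lt_top

end Pool.Agent.Helper853.Zm.Bk
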