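import Pool.Agent.Helper853.Bk.Bumps

open scoped Topology ContDiff ComplexOrder ENNReal
open MeasureTheory Filter Metric

namespace Pool.Agent.Helper853.Bk

open Pool.Agent.Helper853.Zm

variable {m : ℕ}

/-- the truncated weight centred at `p` -/
noncomputable def wt {n : ℕ} (p : Fin n → ℂ) (b : ℝ) (x : Fin n → ℂ) : ℝ≥0∞ :=
  ENNReal.ofReal (b - fp p x)

lemma measurable_wt {n : ℕ} (p : Fin n → ℂ) (b : ℝ) : Measurable (wt p b) :=
  ENNReal.measurable_ofReal.comp (continuous_const.sub (continuous_fp p)).measurable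

lemma wt_eq_max {n : ℕ} (p : Fin n → ℂ) (b : ℝ) (x : Fin n → ℂ) :
    wt p b x = ENNReal.ofReal (max (b - fp p x) 0) := by
  unfold wt
  rcases le_total (b - fp p x) 0 with h | h
  · rw [max_eq_right h, ENNReal.ofReal_zero, ENNReal.ofReal_of_nonpos h]
  · rw [max_eq_left h]

lemma layer {n : ℕ} {Ω : Set (Fin n → ℂ)} (hΩ : IsOpen Ω) {p : Fin n → ℂ} {c : ℝ}
    (hc : {x | fp p x ≤ c} ⊆ Ω) {g : (Fin n → ℂ) → ℝ} (hg : SPsh Ω g) (b : ℝ) (hbc : b ≤ c) :
    ∫⁻ x in {x | fp p x ≤ c}, wt p b x * ENNReal.ofReal (dH g x) =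
      ∫⁻ t in Set.Ioi (0 : ℝ), ∫⁻ x in {x | fp p x ≤ b - t}, ENNReal.ofReal (dH g x) := by
  have hm : MeasurableSet {x : Fin n → ℂ | fp p x ≤ c} := (isCompact_fp p c).measurableSet
  have hdm : AEMeasurable (fun x => ENNReal.ofReal (dH g x))
      (volume.restrict {x : Fin n → ℂ | fp p x ≤ c}) := by
    apply AEMeasurable.ennreal_ofReal
    exact ((hg.continuousOn_dH hΩ).mono hc).aemeasurable hm
  set μ : Measure (Fin n → ℂ) := (volume.restrict {x : Fin n → ℂ | fp p x ≤ c}).withDensity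
    fun x => ENNReal.ofReal (dH g x) with hμ
  have e1 : ∫⁻ x in {x | fp p x ≤ c}, wt p b x * ENNReal.ofReal (dH g x) =
      ∫⁻ x, ENNReal.ofReal (max (b - fp p x) 0) ∂μ := by
    rw [hμ, lintegral_withDensity_eq_lintegral_mul₀ hdm]
    · apply lintegral_congr
      intro x
      rw [wt_eq_max, mul_comm]
      rfl
    · apply Measurable.aemeasurable
      exact ENNReal.measurable_ofReal.comp
        ((continuous_const.sub (continuous_fp p)).max continuous_const).measurable
  rw [e1, lintegral_eq_lintegral_meas_le]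
  · apply setLIntegral_congr_fun measurableSet_Ioi
    intro t ht
    have ht : (0 : ℝ) < t := ht
    simp only
    have hset : {a : Fin n → ℂ | t ≤ max (b - fp p a) 0} = {x | fp p x ≤ b - t} := by
      ext x
      simp only [Set.mem_ofPred_eq, le_max_iff]
      constructor
      · rintro (h | h)
        · linarith
        · linarith
      · intro h
        left
        linarith
    have hmt : MeasurableSet {x : Fin n → ℂ | fp p x ≤ b - t} := (isCompact_fp p _).measurableSet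
    rw [hset, hμ, withDensity_apply _ hmt, Measure.restrict_restrict hmt]
    congr 2
    apply Set.inter_eq_left.mpr
    intro x hx
    have hx : fp p x ≤ b - t := hx
    show fp p x ≤ c
    linarith
  · filter_upwards with x
    exact le_max_right _ _
  · exact ((continuous_const.sub (continuous_fp p)).max continuous_const).measurable.aemeasurable

/-- comparison of weighted masses -/
lemma weighted_compare {Ω : Set (Fin (m + 1) → ℂ)} (hΩ : IsOpen Ω)
    {u v : (Fin (m + 1) → ℂ) → ℝ} (hu : SPsh Ω u) (hv : SPsh Ω v) {p : Fin (m + 1) → ℂ}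
    {b c δ η s : ℝ} (hb : b + δ ≤ c) (hδ : 0 < δ) (hη : 0 < η) (hs : 0 ≤ s)
    (hsη : 16 * η ≤ s * δ) (hc : {x | fp p x ≤ c} ⊆ Ω)
    (hclose : ∀ x, fp p x ≤ c → |u x - v x| ≤ η) :
    ∫⁻ x in {x | fp p x ≤ c}, wt p b x * ENNReal.ofReal (dH u x) ≤
      ∫⁻ x in {x | fp p x ≤ c}, wt p (b + δ) x *
        ENNReal.ofReal (dH (fun y => v y + s * fp p y) x) := by
  have hf : SPsh Ω (fp p) := (sPsh_fp p).mono (Set.subset_univ _)
  rw [layer hΩ hc hu b (by linarith), layer hΩ hc (hv.add hΩ (hf.const_mul hΩ hs)) (b + δ) hb]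
  apply setLIntegral_mono' measurableSet_Ioi
  intro t ht
  have ht : (0 : ℝ) < t := ht
  have e : ∀ d ≤ c, {x | x ∈ Ω ∧ fp p x ≤ d} = {x | fp p x ≤ d} := by
    intro d hd
    ext x
    simp only [Set.mem_ofPred_eq, and_iff_right_iff_imp]
    intro hx
    exact hc (hx.trans hd)
  have hL : IsCompact {x | x ∈ Ω ∧ fp p x ≤ b + δ - t} := by
    rw [e _ (by linarith)]
    exact isCompact_fp p _
  have key := compare_local hΩ hf hu hv (a := b - t) (b := b + δ - t) (η := η) (s := s)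
    (by linarith) hη hs (by
      have : b + δ - t - (b - t) = δ := by ring
      rw [this]
      exact hsη) hL (fun x _ _ h2 => hclose x (by linarith))
  rw [e _ (by linarith), e _ (by linarith)] at key
  exact key

lemma wt_add_le {n : ℕ} (p : Fin n → ℂ) {b δ : ℝ} (hδ : 0 ≤ δ) (x : Fin n → ℂ) :
    wt p (b + δ) x ≤ wt p b x + ENNReal.ofReal δ := by
  unfold wt
  rw [show b + δ - fp p x = (b - fp p x) + δ by ring]
  exact ENNReal.ofReal_add_le

lemma wt_le {n : ℕ} (p : Fin n → ℂ) (b : ℝ) (x : Fin n → ℂ) :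
    wt p b x ≤ ENNReal.ofReal b := by
  unfold wt
  apply ENNReal.ofReal_le_ofReal
  have := fp_nonneg p x
  linarith

/-- one-sided estimate for weighted masses -/
lemma weighted_le {Ω : Set (Fin (m + 1) → ℂ)} (hΩ : IsOpen Ω)
    {u v : (Fin (m + 1) → ℂ) → ℝ} (hu : SPsh Ω u) (hv : SPsh Ω v) {p : Fin (m + 1) → ℂ}
    {b c δ η s : ℝ} (hb : b + δ ≤ c) (hδ : 0 < δ) (hη : 0 < η) (hs : 0 ≤ s) (hs1 : s ≤ 1)
    (hsη : 16 * η ≤ s * δ) (hc : {x | fp p x ≤ c} ⊆ Ω)
    (hclose : ∀ x, fp p x ≤ c → |u x - v x| ≤ η) :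
    ∫⁻ x in {x | fp p x ≤ c}, wt p b x * ENNReal.ofReal (dH u x) ≤
      (∫⁻ x in {x | fp p x ≤ c}, wt p b x * ENNReal.ofReal (dH v x)) +
      ENNReal.ofReal δ * (∫⁻ x in {x | fp p x ≤ c}, ENNReal.ofReal (dH v x)) +
      ENNReal.ofReal s * ENNReal.ofReal c *
        ∫⁻ x in {x | fp p x ≤ c}, ENNReal.ofReal (dH (fun y => v y + fp p y) x) := by
  have hf : SPsh Ω (fp p) := (sPsh_fp p).mono (Set.subset_univ _)
  have hm : MeasurableSet {x : Fin (m + 1) → ℂ | fp p x ≤ c} := (isCompact_fp p c).measurableSet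
  have haem : ∀ g : (Fin (m + 1) → ℂ) → ℝ, SPsh Ω g → AEMeasurable
      (fun x => ENNReal.ofReal (dH g x)) (volume.restrict {x | fp p x ≤ c}) := by
    intro g hg
    apply AEMeasurable.ennreal_ofReal
    exact ((hg.continuousOn_dH hΩ).mono hc).aemeasurable hm
  refine (weighted_compare hΩ hu hv hb hδ hη hs hsη hc hclose).trans ?_
  calc ∫⁻ x in {x | fp p x ≤ c}, wt p (b + δ) x *
        ENNReal.ofReal (dH (fun y => v y + s * fp p y) x)
      ≤ ∫⁻ x in {x | fp p x ≤ c}, ((wt p b x * ENNReal.ofReal (dH v x) +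
          ENNReal.ofReal δ * ENNReal.ofReal (dH v x)) +
          ENNReal.ofReal s * ENNReal.ofReal c *
            ENNReal.ofReal (dH (fun y => v y + fp p y) x)) := by
        apply setLIntegral_mono' hm
        intro x hx
        have hxΩ : x ∈ Ω := hc hx
        have h1 : ENNReal.ofReal (dH (fun y => v y + s * fp p y) x) ≤
            ENNReal.ofReal (dH v x) + ENNReal.ofReal s *
              ENNReal.ofReal (dH (fun y => v y + fp p y) x) := by
          rw [← ENNReal.ofReal_mul hs, ← ENNReal.ofReal_add (hv.dH_nonneg hΩ hxΩ)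
            (mul_nonneg hs ((hv.add hΩ hf).dH_nonneg hΩ hxΩ))]
          exact ENNReal.ofReal_le_ofReal (dH_mix_le hΩ hf hv hs hs1 hxΩ)
        calc wt p (b + δ) x * ENNReal.ofReal (dH (fun y => v y + s * fp p y) x)
            ≤ wt p (b + δ) x * (ENNReal.ofReal (dH v x) + ENNReal.ofReal s *
              ENNReal.ofReal (dH (fun y => v y + fp p y) x)) := by gcongr
          _ = wt p (b + δ) x * ENNReal.ofReal (dH v x) + wt p (b + δ) x * (ENNReal.ofReal s *
              ENNReal.ofReal (dH (fun y => v y + fp p y) x)) := by rw [mul_add]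
          _ ≤ (wt p b x + ENNReal.ofReal δ) * ENNReal.ofReal (dH v x) +
              ENNReal.ofReal c * (ENNReal.ofReal s *
              ENNReal.ofReal (dH (fun y => v y + fp p y) x)) := by
              gcongr
              · exact wt_add_le p hδ.le x
              · exact (wt_le p _ x).trans (ENNReal.ofReal_le_ofReal hb)
          _ = _ := by ring
    _ = _ := by
        rw [lintegral_add_left', lintegral_add_left',
          lintegral_const_mul' _ _ ENNReal.ofReal_ne_top,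
          lintegral_const_mul' _ _ (ENNReal.mul_ne_top ENNReal.ofReal_ne_top
            ENNReal.ofReal_ne_top)]
        · exact (measurable_wt p b).aemeasurable.mul (haem v hv)
        · exact ((measurable_wt p b).aemeasurable.mul (haem v hv)).add
            ((haem v hv).const_mul _)

/-- smooth psh functions decreasing to a smooth psh function -/
structure DecS (V : Set (Fin (m + 1) → ℂ)) (u : ℕ → (Fin (m + 1) → ℂ) → ℝ)
    (ψ : (Fin (m + 1) → ℂ) → ℝ) : Prop where
  isOpen : IsOpen V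
  psh : ∀ j, SPsh V (u j)
  psh' : SPsh V ψ
  anti : ∀ x ∈ V, Antitone fun j => u j x
  lim : ∀ x ∈ V, Tendsto (fun j => u j x) atTop (𝓝 (ψ x))

variable {V : Set (Fin (m + 1) → ℂ)} {u : ℕ → (Fin (m + 1) → ℂ) → ℝ}
  {ψ : (Fin (m + 1) → ℂ) → ℝ}

lemma DecS.dini (h : DecS V u ψ) {K : Set (Fin (m + 1) → ℂ)} (hK : IsCompact K) (hKV : K ⊆ V)
    {δ : ℝ} (hδ : 0 < δ) : ∃ N, ∀ j ≥ N, ∀ x ∈ K, |u j x - ψ x| ≤ δ := by
  have hcs : CompactSpace K := isCompact_iff_compactSpace.mp hK
  have hunif := Antitone.tendstoUniformly_of_forall_tendsto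
    (F := fun j (y : K) => u j (y : Fin (m + 1) → ℂ))
    (f := fun y : K => ψ (y : Fin (m + 1) → ℂ))
    (fun j => continuousOn_iff_continuous_domRestrict.mp ((h.psh j).1.continuousOn.mono hKV))
    (fun i j hij y => h.anti y (hKV y.2) hij)
    (continuousOn_iff_continuous_domRestrict.mp (h.psh'.1.continuousOn.mono hKV))
    (fun y => h.lim y (hKV y.2))
  rw [Metric.tendstoUniformly_iff] at hunif
  obtain ⟨N, hN⟩ := eventually_atTop.mp (hunif δ hδ)
  refine ⟨N, ?_⟩
  intro j hj x hx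
  have h2 := hN j hj ⟨x, hx⟩
  rw [dist_comm, Real.dist_eq] at h2
  exact h2.le

lemma mass_ne_top {Ω : Set (Fin (m + 1) → ℂ)} (hΩ : IsOpen Ω) {g : (Fin (m + 1) → ℂ) → ℝ}
    (hg : SPsh Ω g) {K : Set (Fin (m + 1) → ℂ)} (hK : IsCompact K) (hKΩ : K ⊆ Ω) :
    ∫⁻ x in K, ENNReal.ofReal (dH g x) ≠ ⊤ := by
  have h1 : IntegrableOn (dH g) K := ((hg.continuousOn_dH hΩ).mono hKΩ).integrableOn_compact hK
  have h2 := h1.2
  rw [hasFiniteIntegral_iff_norm] at h2
  refine ne_top_of_le_ne_top h2.ne ?_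
  apply lintegral_mono
  intro x
  exact ENNReal.ofReal_le_ofReal (le_abs_self _)

/-- local mass bounds -/
lemma DecS.bound (h : DecS V u ψ) {p : Fin (m + 1) → ℂ} {c c' : ℝ} (hcc : c < c')
    (hc : {x | fp p x ≤ c'} ⊆ V) : ∃ (A : ℝ≥0∞) (N : ℕ), A ≠ ⊤ ∧ ∀ j ≥ N,
      (∫⁻ x in {x | fp p x ≤ c}, ENNReal.ofReal (dH (u j) x)) ≤ A ∧
      (∫⁻ x in {x | fp p x ≤ c}, ENNReal.ofReal (dH (fun y => u j y + fp p y) x)) ≤ A := by
  have hf : SPsh V (fp p) := (sPsh_fp p).mono (Set.subset_univ _)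
  have hη : 0 < (c' - c) / 16 := by linarith
  obtain ⟨N, hN⟩ := h.dini (isCompact_fp p c') hc hη
  have e : ∀ d ≤ c', {x | x ∈ V ∧ fp p x ≤ d} = {x | fp p x ≤ d} := by
    intro d hd
    ext x
    simp only [Set.mem_ofPred_eq, and_iff_right_iff_imp]
    intro hx
    exact hc (hx.trans hd)
  have hL : IsCompact {x | x ∈ V ∧ fp p x ≤ c'} := by
    rw [e _ le_rfl]
    exact isCompact_fp p _
  have hp1 : SPsh V fun y => ψ y + 1 * fp p y := h.psh'.add h.isOpen
    (hf.const_mul h.isOpen zero_le_one)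
  have hp2 : SPsh V fun y => (ψ y + fp p y) + 1 * fp p y := (h.psh'.add h.isOpen hf).add h.isOpen
    (hf.const_mul h.isOpen zero_le_one)
  refine ⟨(∫⁻ x in {x | fp p x ≤ c'}, ENNReal.ofReal (dH (fun y => ψ y + 1 * fp p y) x)) +
    ∫⁻ x in {x | fp p x ≤ c'}, ENNReal.ofReal (dH (fun y => (ψ y + fp p y) + 1 * fp p y) x), N,
    ?_, ?_⟩
  · rw [ENNReal.add_ne_top]
    exact ⟨mass_ne_top h.isOpen hp1 (isCompact_fp p c') hc,
      mass_ne_top h.isOpen hp2 (isCompact_fp p c') hc⟩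
  · intro j hj
    have k1 := compare_local h.isOpen hf (h.psh j) h.psh' (a := c) (b := c')
      (η := (c' - c) / 16) (s := 1) hcc hη zero_le_one (by linarith) hL
      (fun x _ _ h2 => hN j hj x h2)
    have k2 := compare_local h.isOpen hf ((h.psh j).add h.isOpen hf) (h.psh'.add h.isOpen hf)
      (a := c) (b := c') (η := (c' - c) / 16) (s := 1) hcc hη zero_le_one (by linarith) hL
      (fun x _ _ h2 => by
        rw [add_sub_add_right_eq_sub]
        exact hN j hj x h2)
    rw [e _ hcc.le, e _ le_rfl] at k1 k2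
    exact ⟨k1.trans le_self_add, k2.trans le_add_self⟩

lemma exists_small' {c ε : ℝ≥0∞} (hc : c ≠ ⊤) (hε : 0 < ε) {r : ℝ} (hr : 0 < r) :
    ∃ s : ℝ, 0 < s ∧ s ≤ r ∧ ENNReal.ofReal s * c ≤ ε := by
  obtain ⟨s, h1, h2, h3⟩ := exists_small hc hε
  refine ⟨min s r, lt_min h1 hr, min_le_right _ _, ?_⟩
  refine le_trans ?_ h3
  gcongr
  exact min_le_left _ _

/-- convergence of the weighted masses -/
lemma DecS.tendsto_weighted (h : DecS V u ψ) {p : Fin (m + 1) → ℂ} {b c c' : ℝ} (hbc : b < c)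
    (hcc : c < c') (hc : {x | fp p x ≤ c'} ⊆ V) :
    Tendsto (fun j => ∫⁻ x in {x | fp p x ≤ c}, wt p b x * ENNReal.ofReal (dH (u j) x)) atTop
      (𝓝 (∫⁻ x in {x | fp p x ≤ c}, wt p b x * ENNReal.ofReal (dH ψ x))) := by
  have hf : SPsh V (fp p) := (sPsh_fp p).mono (Set.subset_univ _)
  have hcV : {x | fp p x ≤ c} ⊆ V := fun x hx => hc (le_trans (show fp p x ≤ c from hx) hcc.le)
  obtain ⟨A, N₀, hA, hN₀⟩ := h.bound hcc hc
  have hB1 := mass_ne_top h.isOpen h.psh' (isCompact_fp p c) hcV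
  have hB2 := mass_ne_top h.isOpen (h.psh'.add h.isOpen hf) (isCompact_fp p c) hcV
  set B : ℝ≥0∞ := A + (∫⁻ x in {x | fp p x ≤ c}, ENNReal.ofReal (dH ψ x)) +
    ∫⁻ x in {x | fp p x ≤ c}, ENNReal.ofReal (dH (fun y => ψ y + fp p y) x) with hB
  have hBtop : B ≠ ⊤ := by
    rw [hB, ENNReal.add_ne_top, ENNReal.add_ne_top]
    exact ⟨⟨hA, hB1⟩, hB2⟩
  have hfin : ∫⁻ x in {x | fp p x ≤ c}, wt p b x * ENNReal.ofReal (dH ψ x) ≠ ⊤ := by
    refine ne_top_of_le_ne_top (ENNReal.mul_ne_top (ENNReal.ofReal_ne_top (r := b)) hB1) ?_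
    rw [← lintegral_const_mul' _ _ ENNReal.ofReal_ne_top]
    apply lintegral_mono
    intro x
    exact mul_le_mul' (wt_le p b x) le_rfl
  rw [ENNReal.tendsto_atTop hfin]
  intro ε hε
  have hε2 : 0 < ε / 2 := ENNReal.half_pos hε.ne'
  obtain ⟨δ, hδ0, hδ1, hδε⟩ := exists_small' hBtop hε2 (show 0 < c - b by linarith)
  have hcB : ENNReal.ofReal c * B ≠ ⊤ := ENNReal.mul_ne_top ENNReal.ofReal_ne_top hBtop
  obtain ⟨s, hs0, hs1, hsε⟩ := exists_small hcB hε2
  have hη : 0 < s * δ / 16 := by positivity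
  obtain ⟨N₁, hN₁⟩ := h.dini (isCompact_fp p c) hcV hη
  refine ⟨max N₀ N₁, ?_⟩
  intro j hj
  obtain ⟨b1, b2⟩ := hN₀ j ((le_max_left _ _).trans hj)
  have hcl := hN₁ j ((le_max_right _ _).trans hj)
  have herr : ∀ X Y : ℝ≥0∞, X ≤ B → Y ≤ B →
      ENNReal.ofReal δ * X + ENNReal.ofReal s * ENNReal.ofReal c * Y ≤ ε := by
    intro X Y hX hY
    calc ENNReal.ofReal δ * X + ENNReal.ofReal s * ENNReal.ofReal c * Y
        ≤ ENNReal.ofReal δ * B + ENNReal.ofReal s * ENNReal.ofReal c * B := by gcongr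
      _ ≤ ε / 2 + ε / 2 := by
          apply add_le_add hδε
          rw [mul_assoc]
          exact hsε
      _ = ε := ENNReal.add_halves ε
  have hAB : A ≤ B := le_self_add.trans le_self_add
  constructor
  · rw [tsub_le_iff_right]
    have k := weighted_le h.isOpen h.psh' (h.psh j) (b := b) (c := c) (δ := δ)
      (η := s * δ / 16) (s := s) (by linarith) hδ0 hη hs0.le hs1 (by linarith) hcV
      (fun x hx => by
        rw [abs_sub_comm]
        exact hcl x hx)
    refine k.trans ?_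
    rw [add_assoc]
    exact add_le_add le_rfl (herr _ _ (b1.trans hAB) (b2.trans hAB))
  · have k := weighted_le h.isOpen (h.psh j) h.psh' (b := b) (c := c) (δ := δ)
      (η := s * δ / 16) (s := s) (by linarith) hδ0 hη hs0.le hs1 (by linarith) hcV
      (fun x hx => hcl x hx)
    refine k.trans ?_
    rw [add_assoc]
    exact add_le_add le_rfl (herr _ _ (le_add_self.trans le_self_add) le_add_self)

/-- local mass bounds on compact sets -/
lemma DecS.bound_compact (h : DecS V u ψ) {K : Set (Fin (m + 1) → ℂ)} (hK : IsCompact K)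
    (hKV : K ⊆ V) : ∃ (A : ℝ≥0∞) (N : ℕ), A ≠ ⊤ ∧ ∀ j ≥ N,
      (∫⁻ x in K, ENNReal.ofReal (dH (u j) x)) ≤ A := by
  apply hK.induction_on (p := fun S => ∃ (A : ℝ≥0∞) (N : ℕ), A ≠ ⊤ ∧ ∀ j ≥ N,
      (∫⁻ x in S, ENNReal.ofReal (dH (u j) x)) ≤ A)
  · exact ⟨0, 0, by simp, fun j _ => by simp⟩
  · rintro s t hst ⟨A, N, hA, hN⟩
    exact ⟨A, N, hA, fun j hj => (lintegral_mono_set hst).trans (hN j hj)⟩
  · rintro s t ⟨A, N, hA, hN⟩ ⟨A', N', hA', hN'⟩
    refine ⟨A + A', max N N', ENNReal.add_ne_top.mpr ⟨hA, hA'⟩, ?_⟩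
    intro j hj
    exact (lintegral_union_le _ _ _).trans (add_le_add (hN j ((le_max_left _ _).trans hj))
      (hN' j ((le_max_right _ _).trans hj)))
  · intro p hp
    obtain ⟨c', hc', hsub⟩ := exists_fp_subset (h.isOpen.mem_nhds (hKV hp))
    obtain ⟨A, N, hA, hN⟩ := h.bound (c := c' / 2) (by linarith) hsub
    exact ⟨{x | fp p x ≤ c' / 2}, mem_nhdsWithin_of_mem_nhds
      (mem_of_superset (fp_lt_mem_nhds p (by positivity)) fun x hx =>
        (show fp p x < c' / 2 from hx).le), A, N, hA, fun j hj => (hN j hj).1⟩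

/-- uniform choice of radii -/
lemma exists_fp_uniform {n : ℕ} {V K : Set (Fin n → ℂ)} (hV : IsOpen V) (hK : IsCompact K)
    (hKV : K ⊆ V) : ∃ (c : ℝ) (K' : Set (Fin n → ℂ)), 0 < c ∧ IsCompact K' ∧ K' ⊆ V ∧ K ⊆ K' ∧
      ∀ p ∈ K, {x | fp p x ≤ c} ⊆ K' := by
  obtain ⟨δ, hδ, hδV⟩ := hK.exists_cthickening_subset_open hV hKV
  have h1 : Tendsto (fun b : ℝ => Real.exp (2 * b) - 1) (𝓝[>] 0) (𝓝 0) := by
    have hc : Continuous fun b : ℝ => Real.exp (2 * b) - 1 := by fun_prop
    have := hc.tendsto 0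
    simp only [mul_zero, Real.exp_zero, sub_self] at this
    exact this.mono_left nhdsWithin_le_nhds
  obtain ⟨c, hc, hc0⟩ := ((h1.eventually (gt_mem_nhds (show 0 < δ ^ 2 by positivity))).and
    self_mem_nhdsWithin).exists
  refine ⟨c, cthickening δ K, hc0, hK.cthickening, hδV, self_subset_cthickening K, ?_⟩
  intro p hp x hx
  have h2 := fp_le_norm (p := p) (x := x) (b := c) hx
  apply mem_cthickening_of_dist_le x p δ K hp
  rw [dist_eq_norm]
  by_contra hcon
  push Not at hcon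
  have : δ ^ 2 ≤ ‖x - p‖ ^ 2 := by gcongr
  linarith

/-- weak convergence for smooth limits -/
theorem DecS.weak (h : DecS V u ψ) {f : (Fin (m + 1) → ℂ) → ℝ} (hf : Continuous f)
    (hfc : HasCompactSupport f) (hfV : tsupport f ⊆ V) :
    Tendsto (fun j => ∫ x in V, f x * dH (u j) x) atTop (𝓝 (∫ x in V, f x * dH ψ x)) := by
  obtain ⟨c, K', hc, hK', hK'V, hKK', hsub⟩ := exists_fp_uniform h.isOpen hfc hfV
  obtain ⟨A, N, hA, hN⟩ := h.bound_compact hK' hK'V
  have hK'm := hK'.measurableSet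
  set ν : ((Fin (m + 1) → ℂ) → ℝ) → Measure (Fin (m + 1) → ℂ) := fun g =>
    (volume.restrict K').withDensity fun x => ENNReal.ofReal (dH g x) with hν
  have haem : ∀ g : (Fin (m + 1) → ℂ) → ℝ, SPsh V g → AEMeasurable
      (fun x => ENNReal.ofReal (dH g x)) (volume.restrict K') := by
    intro g hg
    apply AEMeasurable.ennreal_ofReal
    exact ((hg.continuousOn_dH h.isOpen).mono hK'V).aemeasurable hK'm
  have huniv : ∀ g : (Fin (m + 1) → ℂ) → ℝ,
      ν g Set.univ = ∫⁻ x in K', ENNReal.ofReal (dH g x) := by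
    intro g
    simp only [hν]
    rw [withDensity_apply _ MeasurableSet.univ, Measure.restrict_univ]
  have hψ := mass_ne_top h.isOpen h.psh' hK' hK'V
  -- integrals of the bumps
  have hbumpeq : ∀ g : (Fin (m + 1) → ℂ) → ℝ, SPsh V g → ∀ b, b < c / 2 →
      ∀ p ∈ tsupport f, ∫⁻ z, ENNReal.ofReal (b - fp p z) ∂(ν g) =
        ∫⁻ x in {x | fp p x ≤ c / 2}, wt p b x * ENNReal.ofReal (dH g x) := by
    intro g hg b hb p hp
    simp only [hν]
    change ∫⁻ z, wt p b z ∂_ = _
    rw [lintegral_withDensity_eq_lintegral_mul₀ (haem g hg) (measurable_wt p b).aemeasurable]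
    have hsub2 : {x | fp p x ≤ c / 2} ⊆ K' := fun x hx => hsub p hp
      (show fp p x ≤ c by
        have : fp p x ≤ c / 2 := hx
        linarith)
    have hm2 : MeasurableSet {x : Fin (m + 1) → ℂ | fp p x ≤ c / 2} :=
      (isCompact_fp p _).measurableSet
    rw [← lintegral_indicator hK'm, ← lintegral_indicator hm2]
    apply lintegral_congr
    intro x
    by_cases hx : x ∈ {x : Fin (m + 1) → ℂ | fp p x ≤ c / 2}
    · rw [Set.indicator_of_mem hx, Set.indicator_of_mem (hsub2 hx), mul_comm]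
      rfl
    · rw [Set.indicator_of_notMem hx]
      by_cases hx' : x ∈ K'
      · rw [Set.indicator_of_mem hx']
        have : wt p b x = 0 := by
          unfold wt
          rw [ENNReal.ofReal_eq_zero]
          simp only [Set.mem_ofPred_eq, not_le] at hx
          linarith
        simp only [Pi.mul_apply]
        change ENNReal.ofReal (dH g x) * wt p b x = 0
        rw [this, mul_zero]
      · rw [Set.indicator_of_notMem hx']
  have key := tendsto_of_bumps (K := tsupport f) hfc (ν := fun j => ν (u j)) (ν' := ν ψ)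
    (A := A + ∫⁻ x in K', ENNReal.ofReal (dH ψ x)) (ENNReal.add_ne_top.mpr ⟨hA, hψ⟩)
    (by
      filter_upwards [eventually_ge_atTop N] with j hj
      rw [huniv]
      exact (hN j hj).trans le_self_add)
    (by rw [huniv]; exact le_add_self) (b₀ := c / 2) (by positivity)
    (by
      intro b hb hb' p hp
      rw [hbumpeq ψ h.psh' b hb' p hp]
      have h1 := h.tendsto_weighted (p := p) (b := b) (c := c / 2) (c' := c) hb' (by linarith)
        ((hsub p hp).trans hK'V)
      refine h1.congr ?_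
      intro j
      rw [hbumpeq (u j) (h.psh j) b hb' p hp])
    hf (fun x hx => image_eq_zero_of_notMem_tsupport hx)
  -- identify the integrals
  have hid : ∀ g : (Fin (m + 1) → ℂ) → ℝ, SPsh V g →
      ∫ z, f z ∂(ν g) = ∫ x in V, f x * dH g x := by
    intro g hg
    simp only [hν]
    rw [integral_withDensity_eq_integral_toReal_smul₀ (haem g hg)
      (Filter.Eventually.of_forall fun _ => ENNReal.ofReal_lt_top)]
    have e1 : ∫ x in K', (ENNReal.ofReal (dH g x)).toReal • f x =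
        ∫ x in K', f x * dH g x := by
      apply setIntegral_congr_fun hK'm
      intro x hx
      simp only
      rw [ENNReal.toReal_ofReal (hg.dH_nonneg h.isOpen (hK'V hx)), smul_eq_mul, mul_comm]
    rw [e1]
    symm
    apply setIntegral_eq_of_subset_of_forall_sdiff_eq_zero h.isOpen.measurableSet hK'V
    intro x hx
    rw [image_eq_zero_of_notMem_tsupport (fun hc => hx.2 (hKK' hc)), zero_mul]
  rw [hid ψ h.psh'] at key
  refine key.congr ?_
  intro j
  exact hid (u j) (h.psh j)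

end Pool.Agent.Helper853.Bk
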