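import Pool.Agent.Helper853.Bk.Exists
import Pool.Agent.Helper853.Bk.Integrable
import Pool.Agent.Helper853.Bk.SmoothMA
import Pool.Agent.Helper853.Zm.LocalPsh

open scoped Topology ContDiff ENNReal ComplexConjugate
open MeasureTheory Filter Metric

namespace Pool.Agent.Helper853.Zm.Bk

open Pool.Agent.Helper853.Bk

variable {m : ℕ}

lemma weight_phi {j : ℕ} (hj : 1 ≤ j) (z : Fin (m + 2) → ℂ) :
    weight (phi m) j z = if z = 0 then ⊤ else ENNReal.ofReal (Real.exp (-(2 * j * Vc m z))) := by
  unfold weight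
  split_ifs with h
  · subst h
    rw [phi_zero]
    have h1 : 2 * (j : EReal) * ⊥ = ⊥ := by
      have h2 : (2 * (j : EReal)) = ((2 * j : ℝ) : EReal) := by
        push_cast
        rfl
      rw [h2]
      apply EReal.coe_mul_bot_of_pos
      have : (1 : ℝ) ≤ j := by exact_mod_cast hj
      positivity
    rw [h1, EReal.neg_bot, EReal.exp_top]
  · rw [phi_eq h, ← EReal.exp_coe]
    congr 1

lemma measurable_Vc : Measurable (Vc m) :=
  measurable_of_continuousOn_compl_singleton 0 continuousOn_Vc

lemma goodWeight_phi {j : ℕ} (hj : 1 ≤ j) : GoodWeight (phi m) j where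
  meas := by
    have h1 : weight (phi m) j = fun z =>
        if z = 0 then ⊤ else ENNReal.ofReal (Real.exp (-(2 * j * Vc m z))) := by
      ext z
      exact weight_phi hj z
    rw [h1]
    apply Measurable.ite (measurableSet_singleton 0) measurable_const
    exact ENNReal.measurable_ofReal.comp (Real.measurable_exp.comp
      (measurable_Vc.const_mul _).neg)
  bdd := by
    obtain ⟨C, hC⟩ := ((isCompact_closedBall (0 : Fin (m + 2) → ℂ) 1).image
      (contDiff_vc (m := m) 0).continuous).bddAbove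
    refine ⟨C, ?_⟩
    intro z hz
    have h1 : phi m z ≤ (vc m 0 z : EReal) := iInf_le _ 0
    refine h1.trans ?_
    rw [EReal.coe_le_coe_iff]
    apply hC
    refine ⟨z, ?_, rfl⟩
    have hz' : ∑ i, ‖z i‖ ^ 2 < 1 := hz
    rw [mem_closedBall_zero_iff, pi_norm_le_iff_of_nonneg zero_le_one]
    intro i
    have h1 : ‖z i‖ ^ 2 ≤ ∑ i, ‖z i‖ ^ 2 :=
      Finset.single_le_sum (f := fun i => ‖z i‖ ^ 2) (fun i _ => by positivity)
        (Finset.mem_univ i)
    have h2 : ‖z i‖ ^ 2 ≤ 1 := by linarith
    exact (pow_le_one_iff_of_nonneg (norm_nonneg _) two_ne_zero).mp h2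
  fin := by
    unfold wMeasure
    rw [withDensity_apply _ MeasurableSet.univ, Measure.restrict_univ]
    have h1 : ∫⁻ z in unitBall (m + 2), weight (phi m) j z =
        ∫⁻ z in unitBall (m + 2), ENNReal.ofReal (Real.exp (-(2 * j * Vc m z))) := by
      apply lintegral_congr_ae
      have hne : ∀ᵐ x : Fin (m + 2) → ℂ ∂(volume.restrict (unitBall (m + 2))), x ≠ 0 := by
        apply ae_restrict_of_ae
        rw [ae_iff]
        simp
      filter_upwards [hne] with z hz
      rw [weight_phi hj, if_neg hz]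
    rw [h1]
    exact lintegral_exp_lt_top hj

/-- the Monge-Ampere measure of a smooth psh function on `Ω` -/
noncomputable def smoothMA {n : ℕ} (Ω : Set (Fin n → ℂ)) (ψ : (Fin n → ℂ) → ℝ) :
    Measure (Fin n → ℂ) :=
  (volume.restrict Ω).withDensity fun z => ENNReal.ofReal (Zm.maDensity ψ z)

lemma isPshOn_mono_real {n : ℕ} {Ω V : Set (Fin n → ℂ)} (hVΩ : V ⊆ Ω) (hne : V.Nonempty)
    {ψ : (Fin n → ℂ) → ℝ} (h : IsSmoothPshOn Ω ψ) : IsSmoothPshOn V ψ := by
  refine ⟨h.1.mono hVΩ, ?_, fun z _ => EReal.coe_ne_top _, h.2.2.2.1.mono hVΩ, ?_⟩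
  · obtain ⟨z, hz⟩ := hne
    exact ⟨z, hz, EReal.coe_ne_bot _⟩
  · intro a b M hab
    exact h.2.2.2.2 a b M fun t ht => hVΩ (hab t ht)

/-- the Monge-Ampere measure of a smooth psh function is the one given by its density -/
theorem hasMA_of_smooth {Ω : Set (Fin (m + 1) → ℂ)} (hΩ : IsOpen Ω)
    {ψ : (Fin (m + 1) → ℂ) → ℝ} (hψ : IsSmoothPshOn Ω ψ) {φ : (Fin (m + 1) → ℂ) → EReal}
    (hφ : ∀ z ∈ Ω, φ z = (ψ z : EReal)) : HasMA Ω φ (smoothMA Ω ψ) := by
  have hs : SPsh Ω ψ := sPsh_of_isSmoothPshOn hΩ hψ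
  have hcont : ContinuousOn (Zm.maDensity ψ) Ω := by
    have : Zm.maDensity ψ = fun x => kn (m + 1) * dH ψ x := rfl
    rw [this]
    exact continuousOn_const.mul (hs.continuousOn_dH hΩ)
  have hnn : ∀ z ∈ Ω, 0 ≤ Zm.maDensity ψ z := by
    intro z hz
    have : Zm.maDensity ψ z = kn (m + 1) * dH ψ z := rfl
    rw [this]
    exact mul_nonneg (kn_pos _).le (hs.dH_nonneg hΩ hz)
  refine ⟨?_, ?_⟩
  · intro K hK hKΩ
    unfold smoothMA
    rw [withDensity_apply _ hK.measurableSet, Measure.restrict_restrict hK.measurableSet,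
      Set.inter_eq_left.mpr hKΩ]
    have h1 : IntegrableOn (Zm.maDensity ψ) K :=
      (hcont.mono hKΩ).integrableOn_compact hK
    have h2 := h1.2
    rw [hasFiniteIntegral_iff_ofReal] at h2
    · exact h2
    · rw [EventuallyLE, ae_restrict_iff' hK.measurableSet]
      exact Eventually.of_forall fun z hz => hnn z (hKΩ hz)
  · intro V hV hVc _ hVcl
    have hVΩ : V ⊆ Ω := subset_closure.trans hVcl
    have hsm : IsSmoothPshOn V ψ := isPshOn_mono_real hVΩ hVc.nonempty hψ
    refine ⟨⟨fun _ => ψ, fun _ => hsm, fun z _ => antitone_const, fun z hz => ?_⟩, ?_⟩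
    · rw [hφ z (hVΩ hz)]
      exact tendsto_const_nhds
    · intro u hu f hf hfc hfV
      have hD : DecS V u ψ :=
        { isOpen := hV
          psh := fun k => sPsh_of_isSmoothPshOn hV (hu.1 k)
          psh' := sPsh_of_isSmoothPshOn hV hsm
          anti := hu.2.1
          lim := by
            intro z hz
            have h1 := hu.2.2 z hz
            rw [hφ z (hVΩ hz)] at h1
            exact EReal.tendsto_coe.mp h1 }
      have h1 := (hD.weak hf hfc hfV).const_mul (kn (m + 1))
      have h2 : ∫ z in V, f z ∂(smoothMA Ω ψ) = kn (m + 1) * ∫ z in V, f z * dH ψ z := by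
        unfold smoothMA
        rw [restrict_withDensity hV.measurableSet, Measure.restrict_restrict hV.measurableSet,
          Set.inter_eq_left.mpr hVΩ, integral_withDensity_eq_integral_toReal_smul₀,
          ← integral_const_mul]
        · apply setIntegral_congr_fun hV.measurableSet
          intro z hz
          simp only [smul_eq_mul]
          rw [ENNReal.toReal_ofReal (hnn z (hVΩ hz)), maDensity_zm]
          ring
        · exact ((hcont.mono hVΩ).aemeasurable hV.measurableSet).ennreal_ofReal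
        · exact Eventually.of_forall fun z => ENNReal.ofReal_lt_top
      rw [h2]
      refine h1.congr ?_
      intro k
      rw [← integral_const_mul]
      congr 1
      ext z
      rw [maDensity_zm]
      ring

lemma smoothMA_zero {n : ℕ} (hn : 1 ≤ n) (Ω : Set (Fin n → ℂ)) (ψ : (Fin n → ℂ) → ℝ)
    (a : Fin n → ℂ) : smoothMA Ω ψ {a} = 0 := by
  have hne : Nonempty (Fin n) := ⟨⟨0, hn⟩⟩
  have h1 : smoothMA Ω ψ ≪ volume.restrict Ω := withDensity_absolutelyContinuous _ _
  exact h1 (measure_singleton a)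

/-- the point mass at the origin is determined by the definition -/
theorem hasMA_unique {n : ℕ} {Ω : Set (Fin n → ℂ)} (hΩ : IsOpen Ω) (h0 : 0 ∈ Ω)
    {φ : (Fin n → ℂ) → EReal} {μ ν : Measure (Fin n → ℂ)} (hμ : HasMA Ω φ μ)
    (hν : HasMA Ω φ ν) : μ {0} = ν {0} := by
  obtain ⟨R, hR, hRΩ⟩ := Metric.isOpen_iff.mp hΩ 0 h0
  set V : Set (Fin n → ℂ) := ball 0 (R / 2) with hV
  have hVo : IsOpen V := isOpen_ball
  have hVcl : closure V ⊆ Ω := by
    rw [hV]
    refine closure_ball_subset_closedBall.trans ?_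
    exact (closedBall_subset_ball (by linarith)).trans hRΩ
  have hVc : IsConnected V :=
    ⟨⟨0, mem_ball_self (by positivity)⟩, (convex_ball 0 _).isPreconnected⟩
  have hVk : IsCompact (closure V) :=
    (isCompact_closedBall _ _).of_isClosed_subset isClosed_closure closure_ball_subset_closedBall
  obtain ⟨⟨u, hu⟩, hμ2⟩ := hμ.2 V hVo hVc hVk hVcl
  obtain ⟨-, hν2⟩ := hν.2 V hVo hVc hVk hVcl
  have key : ∀ f : (Fin n → ℂ) → ℝ, Continuous f → HasCompactSupport f → tsupport f ⊆ V →
      ∫ z in V, f z ∂μ = ∫ z in V, f z ∂ν := fun f h1 h2 h3 =>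
    tendsto_nhds_unique (hμ2 u hu f h1 h2 h3) (hν2 u hu f h1 h2 h3)
  -- the test functions
  set g : ℕ → (Fin n → ℂ) → ℝ := fun k z => max 0 (1 - (k + 4 / R) * ‖z‖) with hg
  have hgc : ∀ k, Continuous (g k) := fun k => by simp only [hg]; fun_prop
  have hgs : ∀ k, tsupport (g k) ⊆ closedBall 0 (R / 4) := by
    intro k
    apply closure_minimal _ isClosed_closedBall
    intro z hz
    rw [Function.mem_support] at hz
    rw [mem_closedBall_zero_iff]
    by_contra hcon
    push Not at hcon
    apply hz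
    simp only [hg]
    apply max_eq_left
    have h1 : 4 / R * ‖z‖ ≤ (k + 4 / R) * ‖z‖ := by
      have : (0 : ℝ) ≤ k := Nat.cast_nonneg k
      nlinarith [norm_nonneg z]
    have h2 : 1 ≤ 4 / R * ‖z‖ := by
      rw [div_mul_eq_mul_div, le_div_iff₀ hR]
      linarith
    linarith
  have hgsV : ∀ k, tsupport (g k) ⊆ V := fun k =>
    (hgs k).trans (closedBall_subset_ball (by linarith))
  have hgcs : ∀ k, HasCompactSupport (g k) := fun k =>
    (isCompact_closedBall _ _).of_isClosed_subset (isClosed_tsupport _) (hgs k)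
  have h0V : (0 : Fin n → ℂ) ∈ V := mem_ball_self (by positivity)
  have hlim : ∀ κ : Measure (Fin n → ℂ), κ (closedBall 0 (R / 2)) < ⊤ →
      Tendsto (fun k => ∫ z in V, g k z ∂κ) atTop (𝓝 ((κ {0}).toReal)) := by
    intro κ hκ
    have hfin : IsFiniteMeasure (κ.restrict V) := by
      constructor
      rw [Measure.restrict_apply_univ]
      exact lt_of_le_of_lt (measure_mono ball_subset_closedBall) hκ
    have e : (κ {0}).toReal = ∫ z in V, ({0} : Set (Fin n → ℂ)).indicator (fun _ => (1 : ℝ)) z ∂κ := by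
      rw [integral_indicator (measurableSet_singleton 0)]
      simp only [integral_const, smul_eq_mul, mul_one, Measure.real]
      rw [Measure.restrict_apply_univ, Measure.restrict_apply (measurableSet_singleton 0)]
      congr 2
      ext z
      simp only [Set.mem_singleton_iff, Set.mem_inter_iff]
      constructor
      · rintro rfl
        exact ⟨rfl, h0V⟩
      · exact fun h => h.1
    rw [e]
    apply tendsto_integral_of_dominated_convergence (fun _ => (1 : ℝ))
    · intro k
      exact (hgc k).aestronglyMeasurable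
    · exact integrable_const _
    · intro k
      filter_upwards with z
      simp only [hg]
      rw [Real.norm_eq_abs, abs_le]
      constructor
      · have := le_max_left 0 (1 - (k + 4 / R) * ‖z‖)
        linarith
      · apply max_le zero_le_one
        have : 0 ≤ (k + 4 / R) * ‖z‖ := by positivity
        linarith
    · filter_upwards with z
      by_cases hz : z = 0
      · subst hz
        rw [Set.indicator_of_mem (Set.mem_singleton _)]
        simp [hg]
      · rw [Set.indicator_of_notMem (by simpa using hz)]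
        apply tendsto_const_nhds.congr'
        have hzn : 0 < ‖z‖ := norm_pos_iff.mpr hz
        obtain ⟨N, hN⟩ := exists_nat_gt (1 / ‖z‖)
        filter_upwards [eventually_ge_atTop N] with k hk
        simp only [hg]
        symm
        apply max_eq_left
        have h1 : (N : ℝ) ≤ k := by exact_mod_cast hk
        have h2 : 1 ≤ k * ‖z‖ := by
          rw [div_lt_iff₀ hzn] at hN
          nlinarith
        have h3 : 0 ≤ 4 / R * ‖z‖ := by positivity
        linarith [add_mul (k : ℝ) (4 / R) ‖z‖]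
  have hcl : closedBall (0 : Fin n → ℂ) (R / 2) ⊆ Ω :=
    (closedBall_subset_ball (by linarith)).trans hRΩ
  have h1 := hlim μ (hμ.1 _ (isCompact_closedBall _ _) hcl)
  have h2 := hlim ν (hν.1 _ (isCompact_closedBall _ _) hcl)
  have h3 : (μ {0}).toReal = (ν {0}).toReal := by
    apply tendsto_nhds_unique h1
    refine h2.congr ?_
    intro k
    exact (key (g k) (hgc k) (hgcs k) (hgsV k)).symm
  have hf1 : μ {0} ≠ ⊤ := (hμ.1 {0} isCompact_singleton (by simpa using h0)).ne
  have hf2 : ν {0} ≠ ⊤ := (hν.1 {0} isCompact_singleton (by simpa using h0)).ne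
  exact (ENNReal.toReal_eq_toReal_iff' hf1 hf2).mp h3

/-- the Bergman potentials of the limit function -/
theorem bergman_smooth {j : ℕ} (hj : 1 ≤ j) {f : ℕ → (Fin (m + 2) → ℂ) → ℂ}
    (hf : IsONB (phi m) j f) : ∃ ψ : (Fin (m + 2) → ℂ) → ℝ,
      IsSmoothPshOn (unitBall (m + 2)) ψ ∧
      (∀ z ∈ unitBall (m + 2), bergmanPotential j f z = (ψ z : EReal)) := by
  have hg := goodWeight_phi (m := m) hj
  refine ⟨fun z => 1 / (2 * j) * Real.log (ksum f z), ?_, ?_⟩
  · exact (hg.kSeq hf).isSmoothPshOn ⟨0, zero_mem_unitBall⟩ (by positivity)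
  · intro z hz
    exact bergmanPotential_eq hg hf hz

theorem hasMA_bergman {j : ℕ} (hj : 1 ≤ j) {f : ℕ → (Fin (m + 2) → ℂ) → ℂ}
    (hf : IsONB (phi m) j f) : ∃ μ, HasMA (unitBall (m + 2)) (bergmanPotential j f) μ ∧
      μ {0} = 0 := by
  obtain ⟨ψ, h1, h2⟩ := bergman_smooth hj hf
  exact ⟨smoothMA (unitBall (m + 2)) ψ, hasMA_of_smooth (m := m + 1) isOpen_unitBall h1 h2,
    smoothMA_zero (by omega) _ _ _⟩

end Pool.Agent.Helper853.Zm.Bk
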