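import Pool.Agent.Helper853.Bk.Poly
import Pool.Agent.Helper853.Zm.Mass
import Pool.Agent.Helper853.Zm.Lelong

open scoped Topology ENNReal
open MeasureTheory Filter Polynomial

namespace Pool.Agent.Helper853.Zm.Bk

open Pool.Agent.Helper853.Bk

variable {m : ℕ}

/-- the functions of the construction in the two relevant variables -/
noncomputable def pp (m : ℕ) : ℕ → ℂ → ℂ → ℂ
  | 0 => fun a _ => a
  | k + 1 => fun a y => pp m k a y ^ 2 + (ee m k : ℂ) * y

/-- the functions of the construction as polynomials in the second variable -/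
noncomputable def ppoly (m : ℕ) (a : ℂ) : ℕ → ℂ[X]
  | 0 => C a
  | k + 1 => ppoly m a k ^ 2 + C (ee m k : ℂ) * X

/-- the real version -/
noncomputable def pr (m : ℕ) : ℕ → ℝ → ℝ → ℝ
  | 0 => fun r _ => r
  | k + 1 => fun r t => pr m k r t ^ 2 + ee m k * t

lemma eval_ppoly (k : ℕ) (a y : ℂ) : (ppoly m a k).eval y = pp m k a y := by
  induction k with
  | zero => simp [ppoly, pp]
  | succ k ih => simp [ppoly, pp, ih]

lemma natDegree_ppoly (k : ℕ) (a : ℂ) : (ppoly m a k).natDegree ≤ 2 ^ k := by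
  induction k with
  | zero => simp [ppoly]
  | succ k ih =>
    simp only [ppoly]
    refine (natDegree_add_le _ _).trans ?_
    apply max_le
    · refine natDegree_pow_le.trans ?_
      rw [pow_succ]
      omega
    · refine (natDegree_C_mul_le _ _).trans ?_
      rw [natDegree_X]
      exact Nat.one_le_two_pow

lemma PP_eq (k : ℕ) (x : Fin (m + 2) → ℂ) : PP m k (homog 0 x) = pp m k (x 0) (x 1) := by
  induction k with
  | zero =>
    rw [PP_zero]
    simp only [pp, i1]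
    rw [homog_succ_apply]
  | succ k ih =>
    rw [PP_succ]
    unfold nextP
    rw [ih, homog_zero_apply]
    simp only [pp, ex, i2]
    rw [homog_succ_apply]
    simp

lemma norm_pp_le (k : ℕ) {a y : ℂ} {r t : ℝ} (ha : ‖a‖ ≤ r) (hy : ‖y‖ ≤ t) :
    ‖pp m k a y‖ ≤ pr m k r t := by
  induction k with
  | zero => simpa [pp, pr] using ha
  | succ k ih =>
    have he := (good_all (m := m) k).2.2.2.1
    simp only [pp, pr]
    refine (norm_add_le _ _).trans ?_
    rw [norm_pow, norm_mul, Complex.norm_real, Real.norm_of_nonneg he.le]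
    gcongr

lemma pp_real (k : ℕ) (r t : ℝ) : pp m k (r : ℂ) (t : ℂ) = ((pr m k r t : ℝ) : ℂ) := by
  induction k with
  | zero => simp [pp, pr]
  | succ k ih =>
    simp only [pp, pr]
    rw [ih]
    push_cast
    ring

/-- the sum of squares in the chart -/
lemma SS_homog (k : ℕ) (x : Fin (m + 2) → ℂ) :
    SS m k (homog 0 x) = ‖pp m k (x 0) (x 1)‖ ^ 2 +
      ∑ j : Fin (m + 1), ‖x j.succ‖ ^ (2 * 2 ^ k) := by
  rw [SS_eq, PP_eq]
  simp_rw [homog_succ_apply]

lemma exp_hc (k : ℕ) {x : Fin (m + 2) → ℂ} (hx : x ≠ 0) :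
    Real.exp (2 * 2 ^ k * hc m k x) = SS m k (homog 0 x) := by
  have h1 : 0 < SS m k (homog 0 x) := SS_pos k (by rwa [tail_homog])
  unfold hc hh
  have h2 : (2 : ℝ) * 2 ^ k * (1 / (2 * 2 ^ k) * Real.log (SS m k (homog 0 x))) =
      Real.log (SS m k (homog 0 x)) := by
    field_simp
  rw [h2, Real.exp_log h1]

lemma norm_pp_le_exp (k : ℕ) {x : Fin (m + 2) → ℂ} (hx : x ≠ 0) :
    ‖pp m k (x 0) (x 1)‖ ≤ Real.exp (2 ^ k * hc m k x) := by
  have h1 : ‖pp m k (x 0) (x 1)‖ ^ 2 ≤ Real.exp (2 ^ k * hc m k x) ^ 2 := by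
    rw [← Real.exp_nat_mul]
    push_cast
    rw [← mul_assoc, exp_hc k hx, SS_homog]
    have : 0 ≤ ∑ j : Fin (m + 1), ‖x j.succ‖ ^ (2 * 2 ^ k) :=
      Finset.sum_nonneg fun j _ => by positivity
    linarith
  exact (pow_le_pow_iff_left₀ (norm_nonneg _) (Real.exp_nonneg _) two_ne_zero).mp h1

/-- the point `(a, t, 0, …, 0)` -/
noncomputable def pt (m : ℕ) (a : ℂ) (t : ℝ) : Fin (m + 2) → ℂ := Pi.single 0 a + xt m t

lemma pt_zero_apply (a : ℂ) (t : ℝ) : pt m a t 0 = a := by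
  unfold pt
  simp [xt_zero_apply]

lemma pt_one_apply (a : ℂ) (t : ℝ) : pt m a t 1 = t := by
  unfold pt
  simp [xt_one_apply]

lemma pt_zero (t : ℝ) : pt m 0 t = xt m t := by
  unfold pt
  simp

lemma continuous_pt (t : ℝ) : Continuous fun a => pt m a t := by
  unfold pt
  apply Continuous.add _ continuous_const
  apply continuous_pi
  intro i
  by_cases h : i = 0
  · subst h
    simp only [Pi.single_eq_same]
    exact continuous_id
  · simp only [Pi.single_eq_of_ne h]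
    exact continuous_const

lemma le_norm_pt (a : ℂ) {t : ℝ} (ht : 0 ≤ t) : t ≤ ‖pt m a t‖ := by
  have h := norm_le_pi_norm (pt m a t) 1
  rwa [pt_one_apply, Complex.norm_real, Real.norm_of_nonneg ht] at h

lemma pt_ne (a : ℂ) {t : ℝ} (ht : 0 < t) : pt m a t ≠ 0 := by
  intro h
  have := le_norm_pt (m := m) a ht.le
  rw [h, norm_zero] at this
  linarith

lemma sum_pt (k : ℕ) (a : ℂ) {t : ℝ} (ht : 0 ≤ t) :
    ∑ j : Fin (m + 1), ‖pt m a t j.succ‖ ^ (2 * 2 ^ k) = t ^ (2 * 2 ^ k) := by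
  rw [Finset.sum_eq_single 0]
  · have : pt m a t (Fin.succ 0) = t := pt_one_apply a t
    rw [this, Complex.norm_real, Real.norm_of_nonneg ht]
  · intro j _ hj
    have h1 : pt m a t j.succ = 0 := by
      unfold pt xt
      rw [Pi.add_apply, Pi.single_eq_of_ne (Fin.succ_ne_zero j), Pi.single_eq_of_ne, add_zero]
      intro h
      apply hj
      have : (1 : Fin (m + 2)) = Fin.succ 0 := rfl
      rw [this] at h
      exact Fin.succ_injective _ h
    rw [h1, norm_zero, zero_pow (by positivity)]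
  · simp

/-- the growth function -/
noncomputable def RR (m : ℕ) (t : ℝ) : ℝ := Vc m (xt m t)

/-- slow growth at some small scale -/
lemma exists_scale {δ ρ₀ : ℝ} (hδ : 0 < δ) (hρ₀ : 0 < ρ₀) :
    ∃ ρ, 0 < ρ ∧ ρ ≤ ρ₀ ∧ RR m (10 * ρ) - RR m ρ ≤ δ ∧ Real.log ρ + 3 * δ ≤ RR m ρ := by
  -- the range in which the second condition holds
  have h1 : ∃ ρ₁, 0 < ρ₁ ∧ ρ₁ ≤ ρ₀ ∧ ∀ t, 0 < t → t ≤ ρ₁ → Real.log t + 3 * δ ≤ RR m t := by
    refine ⟨min ρ₀ (Real.exp (Real.log (ee m 0) - 6 * δ)), lt_min hρ₀ (Real.exp_pos _),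
      min_le_left _ _, ?_⟩
    intro t ht htle
    have h2 := Vc_xt_ge (m := m) ht 0
    have h3 : t ≤ Real.exp (Real.log (ee m 0) - 6 * δ) := htle.trans (min_le_right _ _)
    have h4 := Real.log_le_log ht h3
    rw [Real.log_exp] at h4
    unfold RR
    norm_num at h2
    linarith
  obtain ⟨ρ₁, hρ₁, hρ₁₀, hcond⟩ := h1
  by_contra hcon
  push Not at hcon
  have hstep : ∀ ρ, 0 < ρ → ρ ≤ ρ₁ → δ < RR m (10 * ρ) - RR m ρ := by
    intro ρ hρ hρle
    by_contra h
    push Not at h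
    have h2 := hcon ρ hρ (hρle.trans hρ₁₀) h
    have h3 := hcond ρ hρ hρle
    linarith
  have hind : ∀ i : ℕ, RR m (10 * (ρ₁ / 10 ^ i)) ≤ RR m (10 * ρ₁) - i * δ := by
    intro i
    induction i with
    | zero => simp
    | succ i ih =>
      have h2 := hstep (ρ₁ / 10 ^ i) (by positivity) (by
        apply div_le_self hρ₁.le
        exact one_le_pow₀ (by norm_num))
      have h3 : 10 * (ρ₁ / 10 ^ (i + 1)) = ρ₁ / 10 ^ i := by
        rw [pow_succ]
        field_simp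
      rw [h3]
      push_cast
      linarith
  -- compare with the lower bound
  obtain ⟨k, hk⟩ : ∃ k : ℕ, Real.log 10 * (1 / 2 : ℝ) ^ (k + 1) < δ / 2 := by
    have hl : 0 < Real.log 10 := Real.log_pos (by norm_num)
    obtain ⟨k, hk⟩ := exists_pow_lt_of_lt_one (show 0 < δ / 2 / Real.log 10 by positivity)
      (show (1 / 2 : ℝ) < 1 by norm_num)
    refine ⟨k, ?_⟩
    rw [lt_div_iff₀ hl] at hk
    have h4 : (1 / 2 : ℝ) ^ (k + 1) ≤ (1 / 2) ^ k :=
      pow_le_pow_of_le_one (by norm_num) (by norm_num) (by omega)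
    nlinarith
  set c : ℝ := 1 / 2 ^ (k + 1) with hc
  have hc' : (1 / 2 : ℝ) ^ (k + 1) = c := by rw [hc, one_div, inv_pow, ← one_div]
  rw [hc'] at hk
  have hbound : ∀ i : ℕ, (i : ℝ) * (δ / 2) ≤
      RR m (10 * ρ₁) - (c * Real.log (ee m k) + c * Real.log (10 * ρ₁)) := by
    intro i
    have h5 := hind i
    have h6 := Vc_xt_ge (m := m) (show 0 < 10 * (ρ₁ / 10 ^ i) by positivity) k
    rw [← hc] at h6
    have h7 : Real.log (10 * (ρ₁ / 10 ^ i)) = Real.log (10 * ρ₁) - i * Real.log 10 := by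
      rw [mul_div_assoc', Real.log_div (by positivity) (by positivity), Real.log_pow]
    rw [h7] at h6
    unfold RR at h5 ⊢
    have h8 : (i : ℝ) * (Real.log 10 * c) ≤ i * (δ / 2) := by gcongr
    nlinarith
  obtain ⟨i, hi⟩ := exists_nat_gt ((RR m (10 * ρ₁) - (c * Real.log (ee m k) +
    c * Real.log (10 * ρ₁))) / (δ / 2))
  have h9 := hbound i
  rw [div_lt_iff₀ (by positivity)] at hi
  linarith

/-- the estimates for the polynomials at a good scale -/
theorem poly_estimates {δ ρ₀ : ℝ} (hδ : 0 < δ) (hρ₀ : 0 < ρ₀) :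
    ∃ (ρ r κ : ℝ) (N : ℕ), 0 < ρ ∧ ρ ≤ ρ₀ ∧ 0 < r ∧ r ≤ ρ₀ ∧ ∀ l ≥ N, ∀ a : ℂ, ‖a‖ ≤ r →
      Real.exp (2 ^ l * κ) ≤ ‖pp m l a ρ‖ ∧ ∀ w : ℂ, ‖w‖ ≤ 10 * ρ →
        ‖pp m l a w‖ ≤ Real.exp (2 ^ l * (κ + 6 * δ)) := by
  obtain ⟨ρ, hρ, hρ₀', hgrow, hlog⟩ := exists_scale (m := m) hδ hρ₀
  -- continuity of the limit
  have hcont : ∀ t : ℝ, 0 < t → ContinuousAt (fun a => Vc m (pt m a t)) 0 := by
    intro t ht
    have h1 : ContinuousAt (Vc m) (pt m 0 t) :=
      continuousOn_Vc.continuousAt (isOpen_compl_singleton.mem_nhds (pt_ne 0 ht))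
    exact ContinuousAt.comp (f := fun a => pt m a t) h1 (continuous_pt t).continuousAt
  have hclose : ∀ t : ℝ, 0 < t → ∃ r > 0, ∀ a : ℂ, ‖a‖ ≤ r → |Vc m (pt m a t) - RR m t| ≤ δ := by
    intro t ht
    obtain ⟨r, hr, h1⟩ := Metric.continuousAt_iff.mp (hcont t ht) δ hδ
    refine ⟨r / 2, by positivity, ?_⟩
    intro a ha
    have h2 := h1 (show dist a 0 < r by rw [dist_zero_right]; linarith)
    simp only [pt_zero] at h2
    rw [Real.dist_eq] at h2
    exact h2.le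
  obtain ⟨r₁, hr₁, hcl₁⟩ := hclose ρ hρ
  obtain ⟨r₂, hr₂, hcl₂⟩ := hclose (10 * ρ) (by positivity)
  set r := min (min r₁ r₂) ρ₀ with hr
  have hrpos : 0 < r := lt_min (lt_min hr₁ hr₂) hρ₀
  obtain ⟨N₁, hN₁⟩ := hc_unif (m := m) hρ hδ
  obtain ⟨N₂, hN₂⟩ := pow_unbounded_of_one_lt (1 / (2 * δ)) (show (1 : ℝ) < 2 by norm_num)
  refine ⟨ρ, r, RR m ρ - 3 * δ, max N₁ N₂, hρ, hρ₀', hrpos, min_le_right _ _, ?_⟩
  intro l hl a ha
  have hl₁ : N₁ ≤ l := (le_max_left _ _).trans hl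
  have hl₂ : N₂ ≤ l := (le_max_right _ _).trans hl
  have ha₁ : ‖a‖ ≤ r₁ := ha.trans ((min_le_left _ _).trans (min_le_left _ _))
  have hδl : 1 ≤ 2 * 2 ^ l * δ := by
    have h1 : (2 : ℝ) ^ N₂ ≤ 2 ^ l := pow_le_pow_right₀ (by norm_num) hl₂
    have h2 : 1 / (2 * δ) ≤ 2 ^ l := hN₂.le.trans h1
    rw [div_le_iff₀ (by positivity)] at h2
    linarith
  constructor
  · -- lower bound
    have h1 := hN₁ l hl₁ (pt m a ρ) (le_norm_pt a hρ.le)
    have h2 := hcl₁ a ha₁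
    have h3 : RR m ρ - 2 * δ ≤ hc m l (pt m a ρ) := by
      have e1 := (abs_le.mp h1).1
      have e2 := (abs_le.mp h2).1
      linarith
    have h4 := exp_hc (m := m) l (pt_ne a hρ)
    rw [SS_homog, sum_pt l a hρ.le, pt_zero_apply, pt_one_apply] at h4
    have h5 : Real.exp (2 * 2 ^ l * (RR m ρ - 2 * δ)) ≤
        Real.exp (2 * 2 ^ l * hc m l (pt m a ρ)) := by
      apply Real.exp_le_exp.mpr
      gcongr
    have h6 : ρ ^ (2 * 2 ^ l) ≤ Real.exp (2 * 2 ^ l * (RR m ρ - 3 * δ)) := by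
      have : ρ ^ (2 * 2 ^ l) = Real.exp (2 * 2 ^ l * Real.log ρ) := by
        have e := Real.exp_nat_mul (Real.log ρ) (2 * 2 ^ l)
        rw [Real.exp_log hρ] at e
        rw [← e]
        push_cast
        rfl
      rw [this]
      apply Real.exp_le_exp.mpr
      have : Real.log ρ ≤ RR m ρ - 3 * δ := by linarith
      gcongr
    set X := Real.exp (2 * 2 ^ l * (RR m ρ - 3 * δ)) with hX
    have hXpos : 0 < X := Real.exp_pos _
    have h7 : 2 * X ≤ Real.exp (2 * 2 ^ l * (RR m ρ - 2 * δ)) := by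
      have e1 : 2 * 2 ^ l * (RR m ρ - 2 * δ) =
          2 * 2 ^ l * (RR m ρ - 3 * δ) + 2 * 2 ^ l * δ := by ring
      rw [e1, Real.exp_add, ← hX]
      have e2 : 2 ≤ Real.exp (2 * 2 ^ l * δ) := by
        have := Real.add_one_le_exp (2 * 2 ^ l * δ)
        linarith
      nlinarith
    have h8 : X ≤ ‖pp m l a ρ‖ ^ 2 := by linarith
    have h9 : X = Real.exp (2 ^ l * (RR m ρ - 3 * δ)) ^ 2 := by
      rw [hX, ← Real.exp_nat_mul]
      push_cast
      ring_nf
    rw [h9] at h8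
    exact (pow_le_pow_iff_left₀ (Real.exp_nonneg _) (norm_nonneg _) two_ne_zero).mp h8
  · intro w hw
    have h1 : ‖pp m l a w‖ ≤ pr m l r (10 * ρ) := norm_pp_le l ha hw
    have h2 : pr m l r (10 * ρ) ≤ ‖pp m l (r : ℂ) ((10 * ρ : ℝ) : ℂ)‖ := by
      rw [pp_real, Complex.norm_real]
      exact le_abs_self _
    have hpt := pt_ne (m := m) (r : ℂ) (show 0 < 10 * ρ by positivity)
    have h3 := norm_pp_le_exp (m := m) l hpt
    rw [pt_zero_apply, pt_one_apply] at h3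
    have h4 := hN₁ l hl₁ (pt m (r : ℂ) (10 * ρ)) (by
      have := le_norm_pt (m := m) (r : ℂ) (show 0 ≤ 10 * ρ by positivity)
      linarith)
    have h5 := hcl₂ (r : ℂ) (by
      rw [Complex.norm_real, Real.norm_of_nonneg hrpos.le]
      exact (min_le_left _ _).trans (min_le_right _ _))
    refine (h1.trans (h2.trans h3)).trans ?_
    apply Real.exp_le_exp.mpr
    have e1 := (abs_le.mp h4).2
    have e2 := (abs_le.mp h5).2
    have e3 : hc m l (pt m (r : ℂ) (10 * ρ)) ≤ RR m ρ - 3 * δ + 6 * δ := by linarith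
    gcongr

end Pool.Agent.Helper853.Zm.Bk
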