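import Pool.Agent.Helper853.Bk.Scv
import Pool.Agent.Helper853.Submean
import Pool.Agent.Helper853.Zm.Defs

open scoped Topology ContDiff ENNReal ComplexConjugate
open MeasureTheory Filter Metric

namespace Pool.Agent.Helper853.Bk

open Pool.Agent.Helper853.Zm

variable {n : ℕ}

lemma submean_log_norm' {f : ℂ → ℂ} (han : AnalyticOnNhd ℂ f (Metric.closedBall 0 |1|))
    (h0 : f 0 ≠ 0) :
    Real.log ‖f 0‖ ≤ (2 * Real.pi)⁻¹ * ∫ θ in (0 : ℝ)..(2 * Real.pi),
      Real.log ‖f (Complex.exp (θ * Complex.I))‖ := by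
  have hj := han.circleAverage_log_norm one_ne_zero h0
  rw [Real.circleAverage_def] at hj
  simp only [circleMap_zero, Complex.ofReal_one, one_mul, smul_eq_mul] at hj
  rw [hj]
  have : 0 ≤ ∑ᶠ u, (MeromorphicOn.divisor f (Metric.closedBall 0 |1|) u : ℝ) *
      Real.log (‖(0 : ℂ) - u‖⁻¹) := by
    apply finsum_nonneg
    intro u
    by_cases hu : u ∈ Metric.closedBall (0 : ℂ) |1|
    · apply mul_nonneg (mod_cast MeromorphicOn.AnalyticOnNhd.divisor_nonneg han u)
      rw [Real.log_inv, neg_nonneg]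
      apply Real.log_nonpos (norm_nonneg _)
      simpa using hu
    · rw [Function.locallyFinsuppWithin.apply_eq_zero_of_notMem _ hu]
      simp
  linarith

/-- a continuous function on an open set with the sub-mean value property on discs is psh -/
lemma isPshOn_of_subMean {Ω : Set (Fin n → ℂ)} (hne : Ω.Nonempty)
    {u : (Fin n → ℂ) → ℝ} (hc : ContinuousOn u Ω)
    (hs : ∀ a b : Fin n → ℂ, (∀ t : ℂ, ‖t‖ ≤ 1 → a + t • b ∈ Ω) → u a ≤ (2 * Real.pi)⁻¹ *
      ∫ θ in (0 : ℝ)..(2 * Real.pi), u (a + Complex.exp (θ * Complex.I) • b)) :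
    IsPshOn Ω fun z => (u z : EReal) := by
  refine ⟨?_, fun z _ => EReal.coe_ne_top _, ?_, ?_⟩
  · obtain ⟨z, hz⟩ := hne
    exact ⟨z, hz, EReal.coe_ne_bot _⟩
  · exact (continuous_coe_real_ereal.comp_continuousOn hc).upperSemicontinuousOn
  · intro a b M hab
    have hcc : Continuous fun θ : ℝ => u (a + Complex.exp (θ * Complex.I) • b) := by
      apply hc.comp_continuous (continuous_circ a b)
      intro θ
      apply hab
      rw [Complex.norm_exp_ofReal_mul_I]
    have h1 := hs a b hab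
    have h2 : ∫ θ in (0 : ℝ)..(2 * Real.pi), u (a + Complex.exp (θ * Complex.I) • b) ≤
        ∫ θ in (0 : ℝ)..(2 * Real.pi), max (u (a + Complex.exp (θ * Complex.I) • b)) M := by
      apply intervalIntegral.integral_mono_on (by positivity) (hcc.intervalIntegrable _ _)
        ((hcc.max continuous_const).intervalIntegrable _ _)
      intro θ _
      exact le_max_left _ _
    have h3 := mul_le_mul_of_nonneg_left h2 (by positivity : 0 ≤ (2 * Real.pi)⁻¹)
    have h4 : ∀ θ : ℝ, (max ((u (a + Complex.exp (θ * Complex.I) • b) : ℝ) : EReal)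
        (M : EReal)).toReal = max (u (a + Complex.exp (θ * Complex.I) • b)) M := by
      intro θ
      have h6 : max ((u (a + Complex.exp (θ * Complex.I) • b) : ℝ) : EReal) (M : EReal) =
          ((max (u (a + Complex.exp (θ * Complex.I) • b)) M : ℝ) : EReal) :=
        (EReal.coe_strictMono.monotone.map_max).symm
      rw [h6, EReal.toReal_coe]
    simp_rw [h4]
    exact_mod_cast h1.trans h3

/-- The abstract setting: a sequence of holomorphic functions with locally bounded sum of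
squares. -/
structure KSeq (Ω : Set (Fin n → ℂ)) (f : ℕ → (Fin n → ℂ) → ℂ) : Prop where
  isOpen : IsOpen Ω
  star_mem : ∀ z ∈ Ω, star z ∈ Ω
  hol : ∀ k, DifferentiableOn ℂ (f k) Ω
  bdd : ∀ z ∈ Ω, ∃ r > 0, ∃ C : ℝ, ball z r ⊆ Ω ∧ ∀ w ∈ ball z r, ∀ N : ℕ,
    ∑ k ∈ Finset.range N, ‖f k w‖ ^ 2 ≤ C
  pos : ∀ z ∈ Ω, ∃ k, f k z ≠ 0

/-- the sum of squares -/
noncomputable def ksum (f : ℕ → (Fin n → ℂ) → ℂ) (z : Fin n → ℂ) : ℝ := ∑' k, ‖f k z‖ ^ 2

/-- the polarised kernel -/
noncomputable def kpol (f : ℕ → (Fin n → ℂ) → ℂ) (q : (Fin n → ℂ) × (Fin n → ℂ)) : ℂ :=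
  ∑' k, f k q.1 * conj (f k (star q.2))

variable {Ω : Set (Fin n → ℂ)} {f : ℕ → (Fin n → ℂ) → ℂ}

lemma KSeq.summable (h : KSeq Ω f) {z : Fin n → ℂ} (hz : z ∈ Ω) :
    Summable fun k => ‖f k z‖ ^ 2 := by
  obtain ⟨r, hr, C, -, hC⟩ := h.bdd z hz
  exact summable_of_sum_range_le (fun k => by positivity) (hC z (mem_ball_self hr))

lemma KSeq.summable_mul (h : KSeq Ω f) {z w : Fin n → ℂ} (hz : z ∈ Ω) (hw : w ∈ Ω) :
    Summable fun k => f k z * conj (f k w) := by
  apply Summable.of_norm_bounded (g := fun k => ‖f k z‖ ^ 2 + ‖f k w‖ ^ 2)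
    ((h.summable hz).add (h.summable hw))
  intro k
  rw [norm_mul, RCLike.norm_conj]
  nlinarith [sq_nonneg (‖f k z‖ - ‖f k w‖), sq_nonneg ‖f k z‖, sq_nonneg ‖f k w‖,
    norm_nonneg (f k z), norm_nonneg (f k w)]

lemma KSeq.sum_le (h : KSeq Ω f) {z : Fin n → ℂ} (hz : z ∈ Ω) (N : ℕ) :
    ∑ k ∈ Finset.range N, ‖f k z‖ ^ 2 ≤ ksum f z :=
  (h.summable hz).sum_le_tsum _ fun k _ => by positivity

lemma KSeq.ksum_pos (h : KSeq Ω f) {z : Fin n → ℂ} (hz : z ∈ Ω) : 0 < ksum f z := by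
  obtain ⟨k, hk⟩ := h.pos z hz
  have h1 : 0 < ‖f k z‖ ^ 2 := by
    have := norm_pos_iff.mpr hk
    positivity
  exact lt_of_lt_of_le h1 ((h.summable hz).le_tsum k fun j _ => by positivity)

lemma kpol_self (f : ℕ → (Fin n → ℂ) → ℂ) (z : Fin n → ℂ) :
    kpol f (z, star z) = ((ksum f z : ℝ) : ℂ) := by
  unfold kpol ksum
  rw [Complex.ofReal_tsum]
  apply tsum_congr
  intro k
  simp only [star_star]
  rw [Complex.mul_conj']
  push_cast
  rfl

lemma KSeq.kpol_tendsto (h : KSeq Ω f) {q : (Fin n → ℂ) × (Fin n → ℂ)} (hq : q ∈ Ω ×ˢ Ω) :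
    Tendsto (fun N => ∑ k ∈ Finset.range N, f k q.1 * conj (f k (star q.2))) atTop
      (𝓝 (kpol f q)) :=
  (h.summable_mul hq.1 (h.star_mem _ hq.2)).hasSum.tendsto_sum_nat

/-- Cauchy-Schwarz -/
lemma KSeq.kpol_sq_le (h : KSeq Ω f) {z w : Fin n → ℂ} (hz : z ∈ Ω) (hw : w ∈ Ω) :
    ‖kpol f (z, star w)‖ ^ 2 ≤ ksum f z * ksum f w := by
  have h1 := (h.kpol_tendsto (q := (z, star w)) ⟨hz, h.star_mem _ hw⟩).norm.pow 2
  apply le_of_tendsto h1
  filter_upwards with N
  simp only [star_star]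
  have h2 : ‖∑ k ∈ Finset.range N, f k z * conj (f k w)‖ ≤
      ∑ k ∈ Finset.range N, ‖f k z‖ * ‖f k w‖ := by
    refine (norm_sum_le _ _).trans (le_of_eq ?_)
    apply Finset.sum_congr rfl
    intro k _
    rw [norm_mul, RCLike.norm_conj]
  calc ‖∑ k ∈ Finset.range N, f k z * conj (f k w)‖ ^ 2 ≤
        (∑ k ∈ Finset.range N, ‖f k z‖ * ‖f k w‖) ^ 2 := by gcongr
    _ ≤ (∑ k ∈ Finset.range N, ‖f k z‖ ^ 2) * (∑ k ∈ Finset.range N, ‖f k w‖ ^ 2) :=
        Finset.sum_mul_sq_le_sq_mul_sq _ _ _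
    _ ≤ ksum f z * ksum f w := by
        have h3 := h.sum_le hz N
        have h4 := h.sum_le hw N
        have h5 : 0 ≤ ∑ k ∈ Finset.range N, ‖f k w‖ ^ 2 :=
          Finset.sum_nonneg fun k _ => by positivity
        have h6 : 0 ≤ ksum f z := tsum_nonneg fun k => by positivity
        gcongr

lemma KSeq.kpol_diff (h : KSeq Ω f) : DifferentiableOn ℂ (kpol f) (Ω ×ˢ Ω) := by
  intro q hq
  apply DifferentiableAt.differentiableWithinAt
  obtain ⟨r₁, hr₁, C₁, hs₁, hC₁⟩ := h.bdd q.1 hq.1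
  obtain ⟨r₂, hr₂, C₂, hs₂, hC₂⟩ := h.bdd (star q.2) (h.star_mem _ hq.2)
  set r := min r₁ r₂ with hr
  have hrpos : 0 < r := lt_min hr₁ hr₂
  have hball : ∀ w ∈ ball q r, w.1 ∈ ball q.1 r₁ ∧ star w.2 ∈ ball (star q.2) r₂ := by
    intro w hw
    rw [mem_ball, Prod.dist_eq] at hw
    have h1 := (max_lt_iff.mp hw).1
    have h2 := (max_lt_iff.mp hw).2
    refine ⟨lt_of_lt_of_le h1 (min_le_left _ _), ?_⟩
    rw [mem_ball, dist_eq_norm, ← star_sub, norm_star, ← dist_eq_norm]
    exact lt_of_lt_of_le h2 (min_le_right _ _)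
  have hmem : ∀ w ∈ ball q r, w ∈ Ω ×ˢ Ω := by
    intro w hw
    obtain ⟨h1, h2⟩ := hball w hw
    refine ⟨hs₁ h1, ?_⟩
    have := h.star_mem _ (hs₂ h2)
    rwa [star_star] at this
  apply differentiableAt_of_tendsto (G := fun N (q : (Fin n → ℂ) × (Fin n → ℂ)) =>
    ∑ k ∈ Finset.range N, f k q.1 * conj (f k (star q.2))) hrpos (M := C₁ + C₂)
  · filter_upwards with N
    constructor
    · apply DifferentiableOn.fun_sum
      intro k _
      apply DifferentiableOn.mul
      · exact (h.hol k).comp differentiable_fst.differentiableOn fun w hw => (hmem w hw).1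
      · intro w hw
        apply DifferentiableAt.differentiableWithinAt
        have h1 : DifferentiableAt ℂ (f k) (star w.2) :=
          (h.hol k).differentiableAt (h.isOpen.mem_nhds (h.star_mem _ (hmem w hw).2))
        have h2 := h1.star_star
        rw [star_star] at h2
        have h3 : DifferentiableAt ℂ (fun q : (Fin n → ℂ) × (Fin n → ℂ) => q.2) w :=
          differentiableAt_snd
        exact DifferentiableAt.comp (g := star ∘ f k ∘ star) w h2 h3
    · intro w hw
      obtain ⟨h1, h2⟩ := hball w hw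
      calc ‖∑ k ∈ Finset.range N, f k w.1 * conj (f k (star w.2))‖ ≤
          ∑ k ∈ Finset.range N, (‖f k w.1‖ ^ 2 + ‖f k (star w.2)‖ ^ 2) := by
            refine (norm_sum_le _ _).trans ?_
            apply Finset.sum_le_sum
            intro k _
            rw [norm_mul, RCLike.norm_conj]
            nlinarith [sq_nonneg (‖f k w.1‖ - ‖f k (star w.2)‖), sq_nonneg ‖f k w.1‖,
              sq_nonneg ‖f k (star w.2)‖, norm_nonneg (f k w.1), norm_nonneg (f k (star w.2))]
        _ ≤ C₁ + C₂ := by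
            rw [Finset.sum_add_distrib]
            exact add_le_add (hC₁ _ h1 N) (hC₂ _ h2 N)
  · intro w hw
    exact h.kpol_tendsto (hmem w hw)

lemma KSeq.contDiffOn_ksum (h : KSeq Ω f) : ContDiffOn ℝ ∞ (ksum f) Ω := by
  have h1 : ContDiffOn ℂ ∞ (kpol f) (Ω ×ˢ Ω) :=
    contDiffOn_of_differentiableOn (h.isOpen.prod h.isOpen) h.kpol_diff
  have h2 : ContDiffOn ℝ ∞ (kpol f) (Ω ×ˢ Ω) := h1.restrict_scalars ℝ
  have h3 : ContDiff ℝ ∞ fun z : Fin n → ℂ => (z, star z) :=
    contDiff_id.prodMk (starL' ℝ : (Fin n → ℂ) ≃L[ℝ] (Fin n → ℂ)).contDiff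
  have h4 : ContDiffOn ℝ ∞ (fun z : Fin n → ℂ => kpol f (z, star z)) Ω :=
    h2.comp h3.contDiffOn fun z hz => ⟨hz, h.star_mem z hz⟩
  have h5 : ContDiffOn ℝ ∞ (fun z : Fin n → ℂ => Complex.reCLM (kpol f (z, star z))) Ω :=
    Complex.reCLM.contDiff.comp_contDiffOn h4
  apply h5.congr
  intro z hz
  rw [kpol_self]
  simp

/-- the sub-mean value property of the logarithm of the sum of squares -/
theorem KSeq.subMean_log (h : KSeq Ω f) {a b : Fin n → ℂ}
    (hab : ∀ t : ℂ, ‖t‖ ≤ 1 → a + t • b ∈ Ω) :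
    Real.log (ksum f a) ≤ (2 * Real.pi)⁻¹ * ∫ θ in (0 : ℝ)..(2 * Real.pi),
      Real.log (ksum f (a + Complex.exp (θ * Complex.I) • b)) := by
  have ha : a ∈ Ω := by simpa using hab 0 (by simp)
  have hSc : ContinuousOn (ksum f) Ω := h.contDiffOn_ksum.continuousOn
  set S : ℂ → ℝ := fun z => ksum f (a + z • b) with hS
  have hcircmem : ∀ θ : ℝ, a + Complex.exp (θ * Complex.I) • b ∈ Ω := fun θ =>
    hab _ (by rw [Complex.norm_exp_ofReal_mul_I])
  have hSpos : ∀ θ : ℝ, 0 < S (Complex.exp (θ * Complex.I)) := fun θ => h.ksum_pos (hcircmem θ)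
  -- positive lower bound on the circle
  have hcirc : Continuous fun θ : ℝ => S (Complex.exp (θ * Complex.I)) :=
    hSc.comp_continuous (continuous_circ a b) hcircmem
  obtain ⟨m, hm, hmS⟩ : ∃ m : ℝ, 0 < m ∧ ∀ θ ∈ Set.Icc (0 : ℝ) (2 * Real.pi),
      m ≤ S (Complex.exp (θ * Complex.I)) := by
    obtain ⟨θ₀, hθ₀, hmin⟩ := (isCompact_Icc (a := (0 : ℝ)) (b := 2 * Real.pi)).exists_isMinOn
      ⟨0, by constructor <;> positivity⟩ hcirc.continuousOn
    exact ⟨_, hSpos θ₀, fun θ hθ => hmin hθ⟩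
  set K : ℝ := (Real.sqrt m)⁻¹ with hK
  have hKpos : 0 < K := by positivity
  have hK2 : K ^ 2 * m = 1 := by
    rw [hK, inv_pow, Real.sq_sqrt hm.le]
    field_simp
  have hSa : 0 < ksum f a := h.ksum_pos ha
  set s0 : ℝ := Real.sqrt (ksum f a) with hs0
  have hs0pos : 0 < s0 := Real.sqrt_pos.mpr hSa
  have hs0sq : s0 ^ 2 = ksum f a := Real.sq_sqrt hSa.le
  set g : ℂ → ℂ := fun z => (K : ℂ) * ((s0 : ℂ)⁻¹ * kpol f (a + z • b, star a)) with hg
  set U : Set ℂ := {z | a + z • b ∈ Ω} with hU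
  have hUo : IsOpen U := h.isOpen.preimage (by fun_prop)
  have hgd : DifferentiableOn ℂ g U := by
    apply DifferentiableOn.const_mul
    apply DifferentiableOn.const_mul
    apply h.kpol_diff.comp (t := Ω ×ˢ Ω)
    · apply Differentiable.differentiableOn
      fun_prop
    · intro z hz
      exact ⟨hz, h.star_mem a ha⟩
  have han : AnalyticOnNhd ℂ g (Metric.closedBall 0 |1|) := by
    apply (hgd.analyticOnNhd hUo).mono
    intro z hz
    apply hab
    simpa using hz
  have hg0 : g 0 = ((K * s0 : ℝ) : ℂ) := by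
    simp only [hg, zero_smul, add_zero]
    rw [kpol_self, ← hs0sq]
    have : (s0 : ℂ) ≠ 0 := by exact_mod_cast hs0pos.ne'
    push_cast
    field_simp
  have hg0ne : g 0 ≠ 0 := by
    rw [hg0]
    exact_mod_cast (mul_pos hKpos hs0pos).ne'
  have hbound : ∀ θ : ℝ, ‖g (Complex.exp (θ * Complex.I))‖ ^ 2 ≤
      K ^ 2 * S (Complex.exp (θ * Complex.I)) := by
    intro θ
    simp only [hg]
    rw [norm_mul, norm_mul, norm_inv, Complex.norm_real, Complex.norm_real,
      Real.norm_of_nonneg hKpos.le, Real.norm_of_nonneg hs0pos.le]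
    have h1 := h.kpol_sq_le (hcircmem θ) ha
    rw [← hs0sq] at h1
    calc (K * (s0⁻¹ * ‖kpol f (a + Complex.exp (θ * Complex.I) • b, star a)‖)) ^ 2
        = K ^ 2 * (s0 ^ 2)⁻¹ *
          ‖kpol f (a + Complex.exp (θ * Complex.I) • b, star a)‖ ^ 2 := by
          rw [mul_pow, mul_pow, inv_pow]; ring
      _ ≤ K ^ 2 * (s0 ^ 2)⁻¹ * (ksum f (a + Complex.exp (θ * Complex.I) • b) * s0 ^ 2) := by
          gcongr
      _ = K ^ 2 * S (Complex.exp (θ * Complex.I)) := by
          simp only [hS]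
          field_simp
  have hj := submean_log_norm' han hg0ne
  have hmero : MeromorphicOn g (Metric.sphere 0 |1|) := fun z hz =>
    (han z (Metric.sphere_subset_closedBall hz)).meromorphicAt
  have hci := hmero.circleIntegrable_log_norm
  have hii : IntervalIntegrable (fun θ : ℝ => Real.log ‖g (Complex.exp (θ * Complex.I))‖) volume 0
      (2 * Real.pi) := by
    unfold CircleIntegrable at hci
    simpa [circleMap_zero] using hci
  have hcont2 : Continuous fun θ : ℝ =>
      (1 / 2 : ℝ) * Real.log (K ^ 2 * S (Complex.exp (θ * Complex.I))) := by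
    apply Continuous.mul continuous_const
    apply Continuous.log (continuous_const.mul hcirc)
    intro θ
    exact (mul_pos (by positivity) (hSpos θ)).ne'
  have hmono : ∫ θ in (0 : ℝ)..(2 * Real.pi), Real.log ‖g (Complex.exp (θ * Complex.I))‖ ≤
      ∫ θ in (0 : ℝ)..(2 * Real.pi),
        (1 / 2 : ℝ) * Real.log (K ^ 2 * S (Complex.exp (θ * Complex.I))) := by
    apply intervalIntegral.integral_mono_on (by positivity) hii (hcont2.intervalIntegrable _ _)
    intro θ hθ
    have h1 : 1 ≤ K ^ 2 * S (Complex.exp (θ * Complex.I)) := by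
      rw [← hK2]
      have := hmS θ hθ
      gcongr
    by_cases hz : g (Complex.exp (θ * Complex.I)) = 0
    · rw [hz, norm_zero, Real.log_zero]
      have := Real.log_nonneg h1
      positivity
    · have h2 := hbound θ
      have h3 : 0 < ‖g (Complex.exp (θ * Complex.I))‖ := norm_pos_iff.mpr hz
      have h4 := Real.log_le_log (by positivity) h2
      rw [Real.log_pow] at h4
      push_cast at h4
      linarith
  have hsplit : ∫ θ in (0 : ℝ)..(2 * Real.pi),
        (1 / 2 : ℝ) * Real.log (K ^ 2 * S (Complex.exp (θ * Complex.I))) =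
      2 * Real.pi * Real.log K + (1 / 2) * ∫ θ in (0 : ℝ)..(2 * Real.pi),
        Real.log (S (Complex.exp (θ * Complex.I))) := by
    have e : ∀ θ : ℝ, (1 / 2 : ℝ) * Real.log (K ^ 2 * S (Complex.exp (θ * Complex.I))) =
        Real.log K + (1 / 2) * Real.log (S (Complex.exp (θ * Complex.I))) := by
      intro θ
      rw [Real.log_mul (by positivity) (hSpos _).ne', Real.log_pow]
      push_cast
      ring
    simp_rw [e]
    have hcl : Continuous fun θ : ℝ => Real.log (S (Complex.exp (θ * Complex.I))) :=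
      hcirc.log fun θ => (hSpos _).ne'
    rw [intervalIntegral.integral_add intervalIntegrable_const
      ((hcl.const_mul (1 / 2)).intervalIntegrable _ _),
      intervalIntegral.integral_const_mul, intervalIntegral.integral_const]
    simp
  rw [hg0, Complex.norm_real, Real.norm_of_nonneg (by positivity),
    Real.log_mul hKpos.ne' hs0pos.ne'] at hj
  rw [hsplit] at hmono
  have hls : Real.log s0 = (1 / 2) * Real.log (ksum f a) := by
    rw [hs0, Real.log_sqrt hSa.le]
    ring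
  have hmono2 := mul_le_mul_of_nonneg_left hmono (by positivity : 0 ≤ (2 * Real.pi)⁻¹)
  have hfinal := hj.trans hmono2
  rw [hls, mul_add, ← mul_assoc, inv_mul_cancel₀ (by positivity), one_mul] at hfinal
  have e : (2 * Real.pi)⁻¹ * ((1 / 2) * ∫ θ in (0 : ℝ)..(2 * Real.pi),
      Real.log (S (Complex.exp (θ * Complex.I)))) =
      (1 / 2) * ((2 * Real.pi)⁻¹ * ∫ θ in (0 : ℝ)..(2 * Real.pi),
      Real.log (S (Complex.exp (θ * Complex.I)))) := by ring
  rw [e] at hfinal
  linarith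

/-- the Bergman-type potentials are smooth and psh -/
theorem KSeq.isSmoothPshOn (h : KSeq Ω f) (hne : Ω.Nonempty) {c : ℝ} (hc : 0 ≤ c) :
    IsSmoothPshOn Ω fun z => c * Real.log (ksum f z) := by
  have h1 : ContDiffOn ℝ ∞ (fun z => c * Real.log (ksum f z)) Ω :=
    contDiffOn_const.mul (h.contDiffOn_ksum.log fun z hz => (h.ksum_pos hz).ne')
  refine ⟨h1, isPshOn_of_subMean hne h1.continuousOn ?_⟩
  intro a b hab
  rw [intervalIntegral.integral_const_mul]
  have h2 := h.subMean_log hab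
  calc c * Real.log (ksum f a) ≤ c * ((2 * Real.pi)⁻¹ * ∫ θ in (0 : ℝ)..(2 * Real.pi),
      Real.log (ksum f (a + Complex.exp (θ * Complex.I) • b))) :=
        mul_le_mul_of_nonneg_left h2 hc
    _ = _ := by ring

end Pool.Agent.Helper853.Bk
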