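import Pool.Agent.Helper853.Bk.Defs
import Pool.Agent.Helper853.Bk.Kernel
import Pool.Agent.Helper853.Bk.Bergman

open scoped Topology ContDiff ENNReal ComplexConjugate
open MeasureTheory Filter Metric

namespace Pool.Agent.Helper853.Bk

open Pool.Agent.Helper853.Zm

variable {n : ℕ}

lemma isOpen_unitBall : IsOpen (unitBall n) := by
  have hc : Continuous fun x : Fin n → ℂ => ∑ i, ‖x i‖ ^ 2 := by fun_prop
  exact isOpen_lt hc continuous_const

lemma star_mem_unitBall {z : Fin n → ℂ} (hz : z ∈ unitBall n) : star z ∈ unitBall n := by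
  have h : ∑ i, ‖z i‖ ^ 2 < 1 := hz
  have h2 : ∀ i, ‖star z i‖ = ‖z i‖ := fun i => by simp
  change ∑ i, ‖star z i‖ ^ 2 < 1
  simp_rw [h2]
  exact h

lemma zero_mem_unitBall : (0 : Fin n → ℂ) ∈ unitBall n := by
  change ∑ i, ‖(0 : Fin n → ℂ) i‖ ^ 2 < 1
  simp

/-- The hypotheses on the weight that are used. -/
structure GoodWeight (φ : (Fin n → ℂ) → EReal) (j : ℕ) : Prop where
  meas : Measurable (weight φ j)
  bdd : ∃ C : ℝ, ∀ z ∈ unitBall n, φ z ≤ C
  fin : wMeasure φ j Set.univ < ⊤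

variable {φ : (Fin n → ℂ) → EReal} {j : ℕ}

lemma weight_ge {C : ℝ} {z : Fin n → ℂ} (hz : φ z ≤ C) :
    ENNReal.ofReal (Real.exp (-(2 * j * C))) ≤ weight φ j z := by
  unfold weight
  rw [← EReal.exp_coe]
  apply EReal.exp_monotone
  have h1 : ((-(2 * j * C) : ℝ) : EReal) = -(2 * (j : EReal) * (C : EReal)) := by
    push_cast
    rfl
  rw [h1, EReal.neg_le_neg_iff]
  apply mul_le_mul_of_nonneg_left hz
  have : (0 : EReal) ≤ (j : EReal) := by exact_mod_cast Nat.zero_le j
  positivity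

/-- Lebesgue integrals over the ball are controlled by weighted integrals -/
lemma GoodWeight.lintegral_le (h : GoodWeight φ j) : ∃ A : ℝ≥0∞, A ≠ 0 ∧ A ≠ ⊤ ∧
    ∀ F : (Fin n → ℂ) → ℝ≥0∞, AEMeasurable F (volume.restrict (unitBall n)) →
      ∫⁻ z in unitBall n, F z ≤ A * ∫⁻ z, F z ∂(wMeasure φ j) := by
  obtain ⟨C, hC⟩ := h.bdd
  refine ⟨ENNReal.ofReal (Real.exp (2 * j * C)), by simpa using Real.exp_pos _,
    ENNReal.ofReal_ne_top, ?_⟩
  intro F hF
  unfold wMeasure
  rw [lintegral_withDensity_eq_lintegral_mul₀ h.meas.aemeasurable hF,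
    ← lintegral_const_mul' _ _ ENNReal.ofReal_ne_top]
  apply setLIntegral_mono' isOpen_unitBall.measurableSet
  intro z hz
  have h1 := weight_ge (j := j) (hC z hz)
  simp only [Pi.mul_apply]
  rw [← mul_assoc]
  calc F z = 1 * F z := (one_mul _).symm
    _ = (ENNReal.ofReal (Real.exp (2 * j * C)) *
        ENNReal.ofReal (Real.exp (-(2 * j * C)))) * F z := by
        rw [← ENNReal.ofReal_mul (Real.exp_nonneg _), ← Real.exp_add]
        simp
    _ ≤ _ := by gcongr

lemma aesm_of_hol {f : (Fin n → ℂ) → ℂ} (hf : DifferentiableOn ℂ f (unitBall n)) :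
    AEStronglyMeasurable f (volume.restrict (unitBall n)) :=
  hf.continuousOn.aestronglyMeasurable isOpen_unitBall.measurableSet

lemma wMeasure_ac : wMeasure φ j ≪ volume.restrict (unitBall n) :=
  withDensity_absolutelyContinuous _ _

lemma MemH.aesm {f : (Fin n → ℂ) → ℂ} (hf : MemH φ j f) :
    AEStronglyMeasurable f (wMeasure φ j) := (aesm_of_hol hf.1).mono_ac wMeasure_ac

lemma MemH.memLp {f : (Fin n → ℂ) → ℂ} (hf : MemH φ j f) : MemLp f 2 (wMeasure φ j) := by
  rw [memLp_two_iff_integrable_sq_norm hf.aesm]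
  refine ⟨(hf.aesm.norm.pow 2), ?_⟩
  rw [hasFiniteIntegral_iff_ofReal (Eventually.of_forall fun z => by positivity)]
  exact hf.2

lemma memH_of_memLp {f : (Fin n → ℂ) → ℂ} (hf : DifferentiableOn ℂ f (unitBall n))
    (h2 : MemLp f 2 (wMeasure φ j)) : MemH φ j f := by
  refine ⟨hf, ?_⟩
  have h3 := (memLp_two_iff_integrable_sq_norm h2.1).mp h2
  have h4 := h3.2
  rwa [hasFiniteIntegral_iff_ofReal (Eventually.of_forall fun z => by positivity)] at h4

lemma lintegral_sq_eq {f : (Fin n → ℂ) → ℂ} (h2 : MemLp f 2 (wMeasure φ j)) {s : ℝ}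
    (hs : ∫ z, f z * conj (f z) ∂(wMeasure φ j) = s) :
    ∫⁻ z, ENNReal.ofReal (‖f z‖ ^ 2) ∂(wMeasure φ j) = ENNReal.ofReal s := by
  have h3 := (memLp_two_iff_integrable_sq_norm h2.1).mp h2
  rw [← ofReal_integral_eq_lintegral_ofReal h3 (Eventually.of_forall fun z => by positivity)]
  congr 1
  have h4 : ∀ z, f z * conj (f z) = ((‖f z‖ ^ 2 : ℝ) : ℂ) := by
    intro z
    rw [Complex.mul_conj']
    push_cast
    rfl
  simp_rw [h4] at hs
  rw [integral_complex_ofReal] at hs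
  exact_mod_cast hs

lemma integrable_mul_conj {f g : (Fin n → ℂ) → ℂ} (hf : MemLp f 2 (wMeasure φ j))
    (hg : MemLp g 2 (wMeasure φ j)) : Integrable (fun z => f z * conj (g z)) (wMeasure φ j) :=
  hf.integrable_mul hg.star

lemma memLp_comb {f : ℕ → (Fin n → ℂ) → ℂ} (hf : ∀ k, MemLp (f k) 2 (wMeasure φ j))
    (c : ℕ → ℂ) (N : ℕ) :
    MemLp (fun z => ∑ k ∈ Finset.range N, c k * f k z) 2 (wMeasure φ j) := by
  apply memLp_finsetSum
  intro k _
  exact (hf k).const_mul (c k)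

/-- the norm of a finite combination of orthonormal functions -/
lemma norm_comb {f : ℕ → (Fin n → ℂ) → ℂ} (hf : ∀ k, MemLp (f k) 2 (wMeasure φ j))
    (ho : ∀ k l, ∫ z, f k z * conj (f l z) ∂(wMeasure φ j) = if k = l then 1 else 0)
    (c : ℕ → ℂ) (N : ℕ) :
    ∫⁻ z, ENNReal.ofReal (‖∑ k ∈ Finset.range N, c k * f k z‖ ^ 2) ∂(wMeasure φ j) =
      ENNReal.ofReal (∑ k ∈ Finset.range N, ‖c k‖ ^ 2) := by
  apply lintegral_sq_eq (memLp_comb hf c N)
  have e : ∀ z, (∑ k ∈ Finset.range N, c k * f k z) *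
      conj (∑ k ∈ Finset.range N, c k * f k z) =
      ∑ k ∈ Finset.range N, ∑ l ∈ Finset.range N, (c k * conj (c l)) * (f k z * conj (f l z)) := by
    intro z
    rw [map_sum, Finset.sum_mul_sum]
    apply Finset.sum_congr rfl
    intro k _
    apply Finset.sum_congr rfl
    intro l _
    rw [map_mul]
    ring
  simp_rw [e]
  rw [integral_finsetSum _ fun k _ => integrable_finsetSum _ fun l _ =>
    (integrable_mul_conj (hf k) (hf l)).const_mul _]
  push_cast
  apply Finset.sum_congr rfl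
  intro k hk
  rw [integral_finsetSum _ fun l _ => (integrable_mul_conj (hf k) (hf l)).const_mul _]
  simp_rw [integral_const_mul, ho]
  rw [Finset.sum_eq_single k]
  · simp [Complex.mul_conj']
  · intro l _ hl
    simp [hl.symm]
  · intro h
    exact absurd hk h

/-- the local Bergman inequality -/
lemma GoodWeight.bergman (h : GoodWeight φ j) {z₀ : Fin n → ℂ} (hz₀ : z₀ ∈ unitBall n) :
    ∃ r > 0, ∃ A : ℝ≥0∞, A ≠ 0 ∧ A ≠ ⊤ ∧ ball z₀ r ⊆ unitBall n ∧
      ∀ f : (Fin n → ℂ) → ℂ, DifferentiableOn ℂ f (unitBall n) → ∀ z ∈ ball z₀ r,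
        ENNReal.ofReal (‖f z‖ ^ 2) ≤
          A * ∫⁻ w, ENNReal.ofReal (‖f w‖ ^ 2) ∂(wMeasure φ j) := by
  obtain ⟨A, hA0, hA, hle⟩ := h.lintegral_le
  obtain ⟨R, hR, hRB⟩ := Metric.isOpen_iff.mp isOpen_unitBall z₀ hz₀
  set r : ℝ := R / 2 with hr
  have hrpos : 0 < r := by positivity
  set v : ℝ≥0∞ := volume (closedBall (0 : Fin n → ℂ) r) with hv
  have hv0 : v ≠ 0 := (measure_closedBall_pos volume 0 hrpos).ne'
  have hvt : v ≠ ⊤ := measure_closedBall_lt_top.ne
  refine ⟨r, hrpos, v⁻¹ * A, ?_, ?_, ?_, ?_⟩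
  · exact mul_ne_zero (ENNReal.inv_ne_zero.mpr hvt) hA0
  · exact ENNReal.mul_ne_top (ENNReal.inv_ne_top.mpr hv0) hA
  · exact (ball_subset_ball (by linarith)).trans hRB
  · intro f hf z hz
    have hsub : closedBall z r ⊆ unitBall n := by
      intro w hw
      apply hRB
      rw [mem_ball] at hz ⊢
      rw [mem_closedBall] at hw
      calc dist w z₀ ≤ dist w z + dist z z₀ := dist_triangle _ _ _
        _ < r + r := by linarith
        _ = R := by rw [hr]; ring
    have h1 := bergman_ineq hf hsub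
    have h2 : volume (closedBall z r) = v := by
      rw [hv, Measure.addHaar_closedBall_center]
    rw [h2] at h1
    have h3 : ∫⁻ w in closedBall z r, ENNReal.ofReal (‖f w‖ ^ 2) ≤
        ∫⁻ w in unitBall n, ENNReal.ofReal (‖f w‖ ^ 2) := lintegral_mono_set hsub
    have h4 := hle (fun w => ENNReal.ofReal (‖f w‖ ^ 2))
      ((aesm_of_hol hf).norm.pow 2).aemeasurable.ennreal_ofReal
    have h5 := h1.trans (h3.trans h4)
    rw [mul_assoc]
    calc ENNReal.ofReal (‖f z‖ ^ 2) = v⁻¹ * (ENNReal.ofReal (‖f z‖ ^ 2) * v) := by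
          rw [mul_comm _ v, ← mul_assoc, ENNReal.inv_mul_cancel hv0 hvt, one_mul]
      _ ≤ _ := by gcongr

lemma hol_comb {f : ℕ → (Fin n → ℂ) → ℂ} (hf : ∀ k, DifferentiableOn ℂ (f k) (unitBall n))
    (c : ℕ → ℂ) (N : ℕ) :
    DifferentiableOn ℂ (fun z => ∑ k ∈ Finset.range N, c k * f k z) (unitBall n) := by
  apply DifferentiableOn.fun_sum
  intro k _
  exact (hf k).const_mul _

/-- an orthonormal basis satisfies the hypotheses of the abstract kernel -/
theorem GoodWeight.kSeq (h : GoodWeight φ j) {f : ℕ → (Fin n → ℂ) → ℂ} (hf : IsONB φ j f) :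
    KSeq (unitBall n) f where
  isOpen := isOpen_unitBall
  star_mem := fun _ hz => star_mem_unitBall hz
  hol := fun k => (hf.mem k).1
  bdd := by
    intro z₀ hz₀
    obtain ⟨r, hr, A, hA0, hA, hsub, hB⟩ := h.bergman hz₀
    refine ⟨r, hr, A.toReal, hsub, ?_⟩
    intro z hz N
    set s := ∑ k ∈ Finset.range N, ‖f k z‖ ^ 2 with hs
    have hs0 : 0 ≤ s := Finset.sum_nonneg fun k _ => by positivity
    have h1 := hB (fun w => ∑ k ∈ Finset.range N, conj (f k z) * f k w)
      (hol_comb (fun k => (hf.mem k).1) (fun k => conj (f k z)) N) z hz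
    rw [norm_comb (fun k => (hf.mem k).memLp) hf.orthonormal (fun k => conj (f k z)) N] at h1
    simp only [RCLike.norm_conj] at h1
    have h2 : ∑ k ∈ Finset.range N, conj (f k z) * f k z = ((s : ℝ) : ℂ) := by
      rw [hs]
      push_cast
      apply Finset.sum_congr rfl
      intro k _
      rw [Complex.conj_mul']
    rw [h2, Complex.norm_real, Real.norm_of_nonneg hs0, ← hs] at h1
    rw [← ENNReal.ofReal_toReal hA, ← ENNReal.ofReal_mul ENNReal.toReal_nonneg,
      ENNReal.ofReal_le_ofReal_iff (mul_nonneg ENNReal.toReal_nonneg hs0)] at h1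
    rcases hs0.lt_or_eq with h3 | h3
    · nlinarith
    · rw [← h3]
      exact ENNReal.toReal_nonneg
  pos := by
    intro z₀ hz₀
    by_contra hcon
    push Not at hcon
    obtain ⟨r, hr, A, hA0, hA, hsub, hB⟩ := h.bergman hz₀
    have h1 : MemH φ j fun _ => (1 : ℂ) := by
      refine ⟨differentiableOn_const _, ?_⟩
      simpa using h.fin
    obtain ⟨N, c, hc⟩ := hf.dense _ h1 ((2 * A)⁻¹) (by
      rw [ENNReal.inv_pos]
      exact ENNReal.mul_ne_top (by simp) hA)
    have h2 := hB (fun w => 1 - ∑ k ∈ Finset.range N, c k * f k w)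
      ((differentiableOn_const _).sub (hol_comb (fun k => (hf.mem k).1) c N)) z₀
      (mem_ball_self hr)
    have h3 : ∑ k ∈ Finset.range N, c k * f k z₀ = 0 := by
      apply Finset.sum_eq_zero
      intro k _
      rw [hcon k, mul_zero]
    rw [h3] at h2
    simp only [sub_zero, norm_one, one_pow, ENNReal.ofReal_one] at h2
    have h4 : A * (2 * A)⁻¹ = 2⁻¹ := by
      rw [ENNReal.mul_inv (by simp) (by simp), mul_comm (2 : ℝ≥0∞)⁻¹, ← mul_assoc,
        ENNReal.mul_inv_cancel hA0 hA, one_mul]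
    have h5 : (1 : ℝ≥0∞) ≤ 2⁻¹ := by
      rw [← h4]
      refine h2.trans ?_
      gcongr
    have h6 : (2 : ℝ≥0∞)⁻¹ < 1 := ENNReal.inv_lt_one.mpr (by norm_num)
    exact absurd h5 (not_le.mpr h6)

/-- the Bergman potential in terms of the real sum -/
lemma bergmanPotential_eq (h : GoodWeight φ j) {f : ℕ → (Fin n → ℂ) → ℂ} (hf : IsONB φ j f)
    {z : Fin n → ℂ} (hz : z ∈ unitBall n) :
    bergmanPotential j f z = ((1 / (2 * j) * Real.log (ksum f z) : ℝ) : EReal) := by
  have hk := h.kSeq hf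
  unfold bergmanPotential
  have h1 : ∑' k, ENNReal.ofReal (‖f k z‖ ^ 2) = ENNReal.ofReal (ksum f z) := by
    unfold ksum
    rw [ENNReal.ofReal_tsum_of_nonneg (fun k => by positivity) (hk.summable hz)]
  rw [h1, ENNReal.log_ofReal_of_pos (hk.ksum_pos hz)]
  push_cast
  rfl

end Pool.Agent.Helper853.Bk
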