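import Mathlib

open scoped Topology ENNReal
open MeasureTheory Filter Polynomial

namespace Pool.Agent.Helper853.Bk

/-- lower bound for a product over the points of a multiset -/
lemma multiset_lower {ρ : ℝ} (hρ : 0 < ρ) {y y₀ : ℂ} (hy : ‖y‖ ≤ ρ) (hy₀ : ‖y₀‖ ≤ ρ)
    (T : Multiset ℂ) :
    (T.map fun a => ‖y₀ - a‖).prod * (1 / 3) ^ T.card *
      ((T.filter fun a => ‖a‖ ≤ 2 * ρ).map fun a => ‖y - a‖ / (3 * ρ)).prod ≤
        (T.map fun a => ‖y - a‖).prod := by
  classical
  induction T using Multiset.induction_on with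
  | empty => simp
  | cons a T ih =>
    have hP0 : 0 ≤ (T.map fun a => ‖y₀ - a‖).prod :=
      Multiset.prod_nonneg (by
        intro b hb
        obtain ⟨c, -, rfl⟩ := Multiset.mem_map.mp hb
        exact norm_nonneg _)
    have hP : 0 ≤ (T.map fun a => ‖y - a‖).prod :=
      Multiset.prod_nonneg (by
        intro b hb
        obtain ⟨c, -, rfl⟩ := Multiset.mem_map.mp hb
        exact norm_nonneg _)
    have hN : 0 ≤ ((T.filter fun a => ‖a‖ ≤ 2 * ρ).map fun a => ‖y - a‖ / (3 * ρ)).prod :=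
      Multiset.prod_nonneg (by
        intro b hb
        obtain ⟨c, -, rfl⟩ := Multiset.mem_map.mp hb
        positivity)
    by_cases ha : ‖a‖ ≤ 2 * ρ
    · rw [Multiset.filter_cons_of_pos (p := fun a => ‖a‖ ≤ 2 * ρ) _ ha]
      simp only [Multiset.map_cons, Multiset.prod_cons, Multiset.card_cons, pow_succ]
      have h1 : ‖y₀ - a‖ ≤ 3 * ρ := (norm_sub_le _ _).trans (by linarith)
      have h2 : ‖y₀ - a‖ * (‖y - a‖ / (3 * ρ)) ≤ ‖y - a‖ := by
        rw [mul_div_assoc', div_le_iff₀ (by positivity)]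
        nlinarith [norm_nonneg (y - a)]
      calc ‖y₀ - a‖ * (T.map fun a => ‖y₀ - a‖).prod * ((1 / 3) ^ T.card * (1 / 3)) *
            (‖y - a‖ / (3 * ρ) *
              ((T.filter fun a => ‖a‖ ≤ 2 * ρ).map fun a => ‖y - a‖ / (3 * ρ)).prod)
          = (1 / 3) * ((‖y₀ - a‖ * (‖y - a‖ / (3 * ρ))) *
            ((T.map fun a => ‖y₀ - a‖).prod * (1 / 3) ^ T.card *
              ((T.filter fun a => ‖a‖ ≤ 2 * ρ).map fun a => ‖y - a‖ / (3 * ρ)).prod)) := by ring
        _ ≤ (1 / 3) * (‖y - a‖ * (T.map fun a => ‖y - a‖).prod) := by gcongr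
        _ ≤ ‖y - a‖ * (T.map fun a => ‖y - a‖).prod := by
          have : 0 ≤ ‖y - a‖ * (T.map fun a => ‖y - a‖).prod := by positivity
          linarith
    · rw [Multiset.filter_cons_of_neg (p := fun a => ‖a‖ ≤ 2 * ρ) _ ha]
      simp only [Multiset.map_cons, Multiset.prod_cons, Multiset.card_cons, pow_succ]
      push Not at ha
      have h1 : ‖y₀ - a‖ ≤ ‖a‖ + ρ := (norm_sub_le _ _).trans (by linarith)
      have h2 : ‖a‖ - ρ ≤ ‖y - a‖ := by
        have := norm_sub_norm_le a y
        rw [norm_sub_rev a y] at this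
        linarith
      have h3 : ‖y₀ - a‖ * (1 / 3) ≤ ‖y - a‖ := by linarith
      calc ‖y₀ - a‖ * (T.map fun a => ‖y₀ - a‖).prod * ((1 / 3) ^ T.card * (1 / 3)) *
              ((T.filter fun a => ‖a‖ ≤ 2 * ρ).map fun a => ‖y - a‖ / (3 * ρ)).prod
          = (‖y₀ - a‖ * (1 / 3)) *
            ((T.map fun a => ‖y₀ - a‖).prod * (1 / 3) ^ T.card *
              ((T.filter fun a => ‖a‖ ≤ 2 * ρ).map fun a => ‖y - a‖ / (3 * ρ)).prod) := by ring
        _ ≤ ‖y - a‖ * (T.map fun a => ‖y - a‖).prod := by gcongr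

lemma prod_near_le {ρ : ℝ} {y₀ : ℂ} (hy₀ : ‖y₀‖ ≤ ρ) (S : Multiset ℂ)
    (hS : ∀ a ∈ S, ‖a‖ ≤ 2 * ρ) :
    (S.map fun a => ‖y₀ - a‖).prod ≤ (3 * ρ) ^ S.card := by
  have hρ : 0 ≤ ρ := (norm_nonneg _).trans hy₀
  induction S using Multiset.induction_on with
  | empty => simp
  | cons a T ih =>
    simp only [Multiset.map_cons, Multiset.prod_cons, Multiset.card_cons, pow_succ']
    have h1 : ‖y₀ - a‖ ≤ 3 * ρ :=
      (norm_sub_le _ _).trans (by linarith [hS a (Multiset.mem_cons_self a T)])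
    have h2 := ih fun b hb => hS b (Multiset.mem_cons_of_mem hb)
    have hP : 0 ≤ (T.map fun a => ‖y₀ - a‖).prod :=
      Multiset.prod_nonneg (by
        intro b hb
        obtain ⟨c, -, rfl⟩ := Multiset.mem_map.mp hb
        exact norm_nonneg _)
    gcongr

lemma le_prod_near {ρ : ℝ} {y₀ w : ℂ} (hρ : 0 < ρ) (hy₀ : ‖y₀‖ ≤ ρ) (hw : ‖w - y₀‖ = 9 * ρ)
    (S : Multiset ℂ) (hS : ∀ a ∈ S, ‖a‖ ≤ 2 * ρ) :
    (6 * ρ) ^ S.card ≤ (S.map fun a => ‖w - a‖).prod := by
  induction S using Multiset.induction_on with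
  | empty => simp
  | cons a T ih =>
    simp only [Multiset.map_cons, Multiset.prod_cons, Multiset.card_cons, pow_succ']
    have h1 : 6 * ρ ≤ ‖w - a‖ := by
      have h3 : ‖w - y₀‖ ≤ ‖w - a‖ + ‖y₀ - a‖ := by
        have : w - y₀ = (w - a) - (y₀ - a) := by ring
        rw [this]
        exact norm_sub_le _ _
      have h4 : ‖y₀ - a‖ ≤ 3 * ρ :=
        (norm_sub_le _ _).trans (by linarith [hS a (Multiset.mem_cons_self a T)])
      linarith
    have h2 := ih fun b hb => hS b (Multiset.mem_cons_of_mem hb)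
    gcongr

/-- comparison of a polynomial on a small disc with its value at one point -/
theorem poly_lower {p : ℂ[X]} {ρ : ℝ} (hρ : 0 < ρ) {y₀ : ℂ} (hy₀ : ‖y₀‖ ≤ ρ) {M : ℝ}
    (hM : ∀ w, ‖w‖ ≤ 10 * ρ → ‖p.eval w‖ ≤ M) :
    ∃ S : Multiset ℂ, (∀ a ∈ S, ‖a‖ ≤ 2 * ρ) ∧ 2 ^ S.card * ‖p.eval y₀‖ ≤ M ∧
      ∀ y, ‖y‖ ≤ ρ → ‖p.eval y₀‖ * (1 / 3) ^ p.natDegree *
        (S.map fun a => ‖y - a‖ / (3 * ρ)).prod ≤ ‖p.eval y‖ := by
  classical
  have hsp : p.Splits := IsAlgClosed.splits p
  have hev : ∀ y, ‖p.eval y‖ = ‖p.leadingCoeff‖ * (p.roots.map fun a => ‖y - a‖).prod := by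
    intro y
    rw [hsp.eval_eq_prod_roots, norm_mul]
    congr 1
    have := map_multiset_prod (normHom (α := ℂ)) (p.roots.map (y - ·))
    simp only [Multiset.map_map] at this
    exact this
  have hcard : p.roots.card = p.natDegree := hsp.natDegree_eq_card_roots.symm
  set S := p.roots.filter fun a => ‖a‖ ≤ 2 * ρ with hS
  set F := p.roots.filter fun a => ¬ ‖a‖ ≤ 2 * ρ with hF
  have hSF : S + F = p.roots := Multiset.filter_add_not _ _
  refine ⟨S, fun a ha => (Multiset.mem_filter.mp ha).2, ?_, ?_⟩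
  · -- the number of zeros
    set g : ℂ → ℂ := fun w => p.leadingCoeff * (F.map fun a => w - a).prod with hg
    have hgn : ∀ w, ‖g w‖ = ‖p.leadingCoeff‖ * (F.map fun a => ‖w - a‖).prod := by
      intro w
      simp only [hg]
      rw [norm_mul]
      congr 1
      have := map_multiset_prod (normHom (α := ℂ)) (F.map (w - ·))
      simp only [Multiset.map_map] at this
      exact this
    have hev2 : ∀ w, ‖p.eval w‖ = ‖g w‖ * (S.map fun a => ‖w - a‖).prod := by
      intro w
      rw [hev, hgn, ← hSF, Multiset.map_add, Multiset.prod_add]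
      ring
    have hgd : Differentiable ℂ g := by
      have : g = fun w => (C p.leadingCoeff * (F.map fun a => X - C a).prod).eval w := by
        ext w
        simp only [hg, eval_mul, eval_C, eval_multiset_prod, Multiset.map_map]
        congr 2
        apply Multiset.map_congr rfl
        intro a _
        simp
      rw [this]
      exact Polynomial.differentiable _
    have hmax : ‖g y₀‖ ≤ M / (6 * ρ) ^ S.card := by
      apply Complex.norm_le_of_forall_mem_frontier_norm_le (U := Metric.ball y₀ (9 * ρ))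
        Metric.isBounded_ball hgd.diffContOnCl
      · intro w hw
        have hw' : ‖w - y₀‖ = 9 * ρ := by
          have := Metric.frontier_ball_subset_sphere hw
          rwa [mem_sphere_iff_norm] at this
        have h1 : ‖w‖ ≤ 10 * ρ := by
          have : ‖w‖ ≤ ‖w - y₀‖ + ‖y₀‖ := by
            have h := norm_add_le (w - y₀) y₀
            rwa [sub_add_cancel] at h
          linarith
        have h2 := hM w h1
        rw [hev2] at h2
        rw [le_div_iff₀ (by positivity)]
        refine le_trans ?_ h2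
        gcongr
        exact le_prod_near hρ hy₀ hw' S fun a ha => (Multiset.mem_filter.mp ha).2
      · rw [closure_ball _ (by positivity)]
        exact Metric.mem_closedBall_self (by positivity)
    rw [hev2]
    have h3 := prod_near_le hy₀ S fun a ha => (Multiset.mem_filter.mp ha).2
    have h4 : ‖g y₀‖ * (6 * ρ) ^ S.card ≤ M := by
      rwa [le_div_iff₀ (by positivity)] at hmax
    calc 2 ^ S.card * (‖g y₀‖ * (S.map fun a => ‖y₀ - a‖).prod) ≤
        2 ^ S.card * (‖g y₀‖ * (3 * ρ) ^ S.card) := by gcongr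
      _ = ‖g y₀‖ * (6 * ρ) ^ S.card := by
        rw [show (6 : ℝ) * ρ = 2 * (3 * ρ) by ring, mul_pow 2 (3 * ρ)]
        ring
      _ ≤ M := h4
  · intro y hy
    rw [hev, hev, ← hcard]
    have h1 := multiset_lower hρ hy hy₀ p.roots
    calc ‖p.leadingCoeff‖ * (p.roots.map fun a => ‖y₀ - a‖).prod * (1 / 3) ^ p.roots.card *
        (S.map fun a => ‖y - a‖ / (3 * ρ)).prod = ‖p.leadingCoeff‖ *
          ((p.roots.map fun a => ‖y₀ - a‖).prod * (1 / 3) ^ p.roots.card *
        (S.map fun a => ‖y - a‖ / (3 * ρ)).prod) := by ring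
      _ ≤ _ := by gcongr

/-- the integral of `1/|z|` over a disc -/
lemma lintegral_inv_norm_lt_top (R : ℝ) :
    ∫⁻ z in Metric.closedBall (0 : ℂ) R, (ENNReal.ofReal ‖z‖)⁻¹ < ⊤ := by
  rw [← lintegral_indicator Metric.isClosed_closedBall.measurableSet,
    ← Complex.lintegral_comp_polarCoord_symm]
  have hle : ∀ p ∈ polarCoord.target, ENNReal.ofReal p.1 • (Metric.closedBall (0 : ℂ) R).indicator
      (fun z => (ENNReal.ofReal ‖z‖)⁻¹) (Complex.polarCoord.symm p) ≤
      (Set.Icc 0 R ×ˢ Set.Icc (-Real.pi) Real.pi).indicator (fun _ => (1 : ℝ≥0∞)) p := by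
    intro p hp
    rw [polarCoord_target] at hp
    have hp1 : 0 < p.1 := hp.1
    have hn : ‖Complex.polarCoord.symm p‖ = p.1 := by
      rw [Complex.norm_polarCoord_symm, abs_of_pos hp1]
    by_cases h : Complex.polarCoord.symm p ∈ Metric.closedBall (0 : ℂ) R
    · rw [Set.indicator_of_mem h, hn]
      have hR : p.1 ≤ R := by
        rw [mem_closedBall_zero_iff, hn] at h
        exact h
      rw [Set.indicator_of_mem (by exact ⟨⟨hp1.le, hR⟩, ⟨hp.2.1.le, hp.2.2.le⟩⟩), smul_eq_mul,
        ENNReal.mul_inv_cancel (by simpa using hp1) ENNReal.ofReal_ne_top]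
    · rw [Set.indicator_of_notMem h, smul_zero]
      exact zero_le
  calc
    _ ≤ ∫⁻ p in polarCoord.target,
        (Set.Icc 0 R ×ˢ Set.Icc (-Real.pi) Real.pi).indicator (fun _ => (1 : ℝ≥0∞)) p :=
        setLIntegral_mono' polarCoord.open_target.measurableSet hle
    _ ≤ ∫⁻ p, (Set.Icc 0 R ×ˢ Set.Icc (-Real.pi) Real.pi).indicator (fun _ => (1 : ℝ≥0∞)) p :=
        setLIntegral_le_lintegral _ _
    _ = volume (Set.Icc 0 R ×ˢ Set.Icc (-Real.pi) Real.pi) := by
        rw [lintegral_indicator (measurableSet_Icc.prod measurableSet_Icc)]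
        simp
    _ < ⊤ := by
        rw [Measure.volume_eq_prod, Measure.prod_prod]
        exact ENNReal.mul_lt_top (by simp) (by simp)

/-- the integral of `1/|z-a|` over a disc, uniformly in `a` -/
lemma lintegral_inv_norm_sub_le {ρ : ℝ} {a : ℂ} (ha : ‖a‖ ≤ 2 * ρ) :
    ∫⁻ y in Metric.closedBall (0 : ℂ) ρ, (ENNReal.ofReal (‖y - a‖ / (3 * ρ)))⁻¹ ≤
      ENNReal.ofReal (3 * ρ) * ∫⁻ z in Metric.closedBall (0 : ℂ) (3 * ρ),
        (ENNReal.ofReal ‖z‖)⁻¹ := by
  rcases le_or_gt ρ 0 with h | hρ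
  · have hρ : ρ ≤ 0 := h
    rcases hρ.lt_or_eq with h1 | h1
    · rw [Metric.closedBall_eq_empty.mpr h1]
      simp
    · rw [h1]
      simp
  · have hmeas : Measurable fun z : ℂ => (ENNReal.ofReal ‖z‖)⁻¹ := by fun_prop
    have h1 : ∀ y : ℂ, (ENNReal.ofReal (‖y - a‖ / (3 * ρ)))⁻¹ =
        ENNReal.ofReal (3 * ρ) * (ENNReal.ofReal ‖y - a‖)⁻¹ := by
      intro y
      rw [ENNReal.ofReal_div_of_pos (by positivity), ENNReal.inv_div (by simp) (by
        left
        simpa using hρ), div_eq_mul_inv]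
    simp_rw [h1]
    rw [lintegral_const_mul _ (by fun_prop)]
    gcongr ENNReal.ofReal (3 * ρ) * ?_
    rw [← lintegral_indicator Metric.isClosed_closedBall.measurableSet,
      ← lintegral_indicator Metric.isClosed_closedBall.measurableSet]
    calc ∫⁻ y, (Metric.closedBall (0 : ℂ) ρ).indicator (fun y => (ENNReal.ofReal ‖y - a‖)⁻¹) y
        ≤ ∫⁻ y, (Metric.closedBall (0 : ℂ) (3 * ρ)).indicator
          (fun z => (ENNReal.ofReal ‖z‖)⁻¹) (y - a) := by
          apply lintegral_mono
          intro y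
          by_cases hy : y ∈ Metric.closedBall (0 : ℂ) ρ
          · have hy2 : y - a ∈ Metric.closedBall (0 : ℂ) (3 * ρ) := by
              rw [mem_closedBall_zero_iff] at hy ⊢
              exact (norm_sub_le _ _).trans (by linarith)
            simp only [Set.indicator_of_mem hy, Set.indicator_of_mem hy2]
            exact le_rfl
          · rw [Set.indicator_of_notMem hy]
            exact zero_le
      _ = _ := lintegral_sub_right_eq_self _ a

/-- the integral of a product of negative powers of distances to points -/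
theorem lintegral_prod_le {ρ σ : ℝ} (hρ : 0 < ρ) {S : Multiset ℂ}
    (hS : ∀ a ∈ S, ‖a‖ ≤ 2 * ρ) (hN : σ * S.card ≤ 1) :
    ∫⁻ y in Metric.closedBall (0 : ℂ) ρ,
      (ENNReal.ofReal (S.map fun a => ‖y - a‖ / (3 * ρ)).prod) ^ (-σ) ≤
      max (volume (Metric.closedBall (0 : ℂ) ρ)) (ENNReal.ofReal (3 * ρ) *
        ∫⁻ z in Metric.closedBall (0 : ℂ) (3 * ρ), (ENNReal.ofReal ‖z‖)⁻¹) := by
  classical
  obtain ⟨l, rfl⟩ := Quot.exists_rep S
  set N := l.length with hNdef
  rcases Nat.eq_zero_or_pos N with h0 | hpos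
  · have : l = [] := List.length_eq_zero_iff.mp h0
    subst this
    simp
  · refine le_trans ?_ (le_max_right _ _)
    set I := ENNReal.ofReal (3 * ρ) *
        ∫⁻ z in Metric.closedBall (0 : ℂ) (3 * ρ), (ENNReal.ofReal ‖z‖)⁻¹ with hI
    have hS' : ∀ i : Fin N, ‖l.get i‖ ≤ 2 * ρ := fun i => hS _ (by
      change l.get i ∈ (l : Multiset ℂ)
      rw [Multiset.mem_coe]
      exact List.get_mem _ _)
    have hN' : σ * N ≤ 1 := by
      have : Multiset.card (Quot.mk (⇑(List.isSetoid ℂ)) l : Multiset ℂ) = N := rfl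
      rw [this] at hN
      exact hN
    have hNr : (0 : ℝ) < N := by exact_mod_cast hpos
    have hprod : ∀ y : ℂ, (Multiset.map (fun a => ‖y - a‖ / (3 * ρ))
        (Quot.mk (⇑(List.isSetoid ℂ)) l : Multiset ℂ)).prod =
        ∏ i : Fin N, (‖y - l.get i‖ / (3 * ρ)) := by
      intro y
      change (Multiset.map (fun a => ‖y - a‖ / (3 * ρ)) (l : Multiset ℂ)).prod = _
      rw [Multiset.map_coe, Multiset.prod_coe, ← List.prod_ofFn]
      congr 1
      apply List.ext_get
      · simp [hNdef]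
      · intro i h1 h2
        simp
    simp_rw [hprod]
    calc ∫⁻ y in Metric.closedBall (0 : ℂ) ρ,
          (ENNReal.ofReal (∏ i : Fin N, (‖y - l.get i‖ / (3 * ρ)))) ^ (-σ)
        ≤ ∫⁻ y in Metric.closedBall (0 : ℂ) ρ,
          ∏ i : Fin N, ((ENNReal.ofReal (‖y - l.get i‖ / (3 * ρ)))⁻¹) ^ ((1 : ℝ) / N) := by
          apply setLIntegral_mono' Metric.isClosed_closedBall.measurableSet
          intro y hy
          rw [mem_closedBall_zero_iff] at hy
          rw [ENNReal.ofReal_prod_of_nonneg (fun i _ => by positivity), ENNReal.rpow_neg,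
            ← ENNReal.inv_rpow, ENNReal.prod_inv_distrib (fun i _ j _ _ => Or.inr
              ENNReal.ofReal_ne_top), ENNReal.prod_rpow_of_nonneg (by positivity)]
          have h1 : 1 ≤ ∏ i : Fin N, (ENNReal.ofReal (‖y - l.get i‖ / (3 * ρ)))⁻¹ := by
            apply Finset.one_le_prod'
            intro i _
            rw [ENNReal.one_le_inv]
            rw [← ENNReal.ofReal_one]
            apply ENNReal.ofReal_le_ofReal
            rw [div_le_one (by positivity)]
            exact (norm_sub_le _ _).trans (by linarith [hS' i])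
          apply ENNReal.rpow_le_rpow_of_exponent_le h1
          rw [le_div_iff₀ hNr]
          exact hN'
      _ ≤ ∏ i : Fin N, (∫⁻ y in Metric.closedBall (0 : ℂ) ρ,
          (ENNReal.ofReal (‖y - l.get i‖ / (3 * ρ)))⁻¹) ^ ((1 : ℝ) / N) := by
          apply ENNReal.lintegral_prod_norm_pow_le
          · intro i _
            apply Measurable.aemeasurable
            fun_prop
          · simp only [Finset.sum_const, Finset.card_univ, Fintype.card_fin, nsmul_eq_mul]
            field_simp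
          · intro i _
            positivity
      _ ≤ ∏ i : Fin N, I ^ ((1 : ℝ) / N) := by
          apply Finset.prod_le_prod'
          intro i _
          apply ENNReal.rpow_le_rpow _ (by positivity)
          exact lintegral_inv_norm_sub_le (hS' i)
      _ = I := by
          rw [Finset.prod_const, Finset.card_univ, Fintype.card_fin, ← ENNReal.rpow_natCast,
            ← ENNReal.rpow_mul, one_div, inv_mul_cancel₀ hNr.ne', ENNReal.rpow_one]

end Pool.Agent.Helper853.Bk
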