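import Mathlib

open scoped Topology ContDiff ENNReal
open MeasureTheory Filter Metric

namespace Pool.Agent.Helper853.Bk

section oneVariable

lemma deriv_bound {g : ℂ → ℂ} {R M : ℝ} (hg : DifferentiableOn ℂ g (ball 0 R))
    (hM : ∀ z ∈ ball (0 : ℂ) R, ‖g z‖ ≤ M) {c : ℂ} {ρ : ℝ} (hρ : 0 < ρ) (hc : ‖c‖ + ρ < R) :
    ‖deriv g c‖ ≤ M / ρ := by
  have hsub : closedBall c ρ ⊆ ball 0 R := by
    intro z hz
    rw [mem_closedBall, dist_eq_norm] at hz
    rw [mem_ball_zero_iff]
    calc ‖z‖ = ‖c + (z - c)‖ := by rw [add_sub_cancel]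
      _ ≤ ‖c‖ + ‖z - c‖ := norm_add_le _ _
      _ < R := by linarith
  apply Complex.norm_deriv_le_of_forall_mem_sphere_norm_le hρ
  · apply DifferentiableOn.diffContOnCl
    rw [closure_ball c hρ.ne']
    exact hg.mono hsub
  · intro z hz
    exact hM z (hsub (sphere_subset_closedBall hz))

lemma deriv2_bound {g : ℂ → ℂ} {R M : ℝ} (hR : 0 < R) (hg : DifferentiableOn ℂ g (ball 0 R))
    (hM : ∀ z ∈ ball (0 : ℂ) R, ‖g z‖ ≤ M) {c : ℂ} (hc : ‖c‖ ≤ R / 2) :
    ‖deriv (deriv g) c‖ ≤ 32 * M / R ^ 2 := by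
  have hd : DifferentiableOn ℂ (deriv g) (ball 0 R) := hg.deriv isOpen_ball
  have hb : ∀ z ∈ ball c (R / 7), ‖deriv g z‖ ≤ M / (R / 4) := by
    intro z hz
    rw [mem_ball, dist_eq_norm] at hz
    apply deriv_bound hg hM (by positivity)
    have : ‖z‖ ≤ ‖c‖ + ‖z - c‖ := by
      calc ‖z‖ = ‖c + (z - c)‖ := by rw [add_sub_cancel]
        _ ≤ ‖c‖ + ‖z - c‖ := norm_add_le _ _
    linarith
  have hsub : closedBall c (R / 8) ⊆ ball 0 R := by
    intro z hz
    rw [mem_closedBall, dist_eq_norm] at hz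
    rw [mem_ball_zero_iff]
    calc ‖z‖ = ‖c + (z - c)‖ := by rw [add_sub_cancel]
      _ ≤ ‖c‖ + ‖z - c‖ := norm_add_le _ _
      _ < R := by linarith
  have h1 : ‖deriv (deriv g) c‖ ≤ (M / (R / 4)) / (R / 8) := by
    apply Complex.norm_deriv_le_of_forall_mem_sphere_norm_le (by positivity)
    · apply DifferentiableOn.diffContOnCl
      rw [closure_ball c (by positivity)]
      exact hd.mono hsub
    · intro z hz
      apply hb
      rw [mem_sphere, dist_eq_norm] at hz
      rw [mem_ball, dist_eq_norm, hz]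
      linarith
  refine h1.trans (le_of_eq ?_)
  field_simp
  ring

lemma remainder_one {g : ℂ → ℂ} {R M : ℝ} (hR : 2 ≤ R) (hg : DifferentiableOn ℂ g (ball 0 R))
    (hM : ∀ z ∈ ball (0 : ℂ) R, ‖g z‖ ≤ M) : ‖g 1 - g 0 - deriv g 0‖ ≤ 32 * M / R ^ 2 := by
  have hRp : 0 < R := by linarith
  have hin : closedBall (0 : ℂ) 1 ⊆ ball 0 R := by
    intro z hz
    rw [mem_closedBall_zero_iff] at hz
    rw [mem_ball_zero_iff]
    linarith
  have hd : DifferentiableOn ℂ (deriv g) (ball 0 R) := hg.deriv isOpen_ball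
  have hdat : ∀ z ∈ closedBall (0 : ℂ) 1, DifferentiableAt ℂ g z := fun z hz =>
    hg.differentiableAt (isOpen_ball.mem_nhds (hin hz))
  have hdat2 : ∀ z ∈ closedBall (0 : ℂ) 1, DifferentiableAt ℂ (deriv g) z := fun z hz =>
    hd.differentiableAt (isOpen_ball.mem_nhds (hin hz))
  -- the derivative is close to its value at 0
  have hM0 : 0 ≤ 32 * M / R ^ 2 := by
    have : 0 ≤ M := (norm_nonneg _).trans (hM 0 (mem_ball_self hRp))
    positivity
  have h1 : ∀ z ∈ closedBall (0 : ℂ) 1, ‖deriv g z - deriv g 0‖ ≤ 32 * M / R ^ 2 := by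
    intro z hz
    have := (convex_closedBall (0 : ℂ) 1).norm_image_sub_le_of_norm_deriv_le (f := deriv g)
      (C := 32 * M / R ^ 2) hdat2 (fun w hw => by
        rw [mem_closedBall_zero_iff] at hw
        exact deriv2_bound hRp hg hM (by linarith))
      (mem_closedBall_self zero_le_one) hz
    rw [sub_zero] at this
    rw [mem_closedBall_zero_iff] at hz
    exact this.trans (mul_le_of_le_one_right hM0 hz)
  have h2 := (convex_closedBall (0 : ℂ) 1).norm_image_sub_le_of_norm_deriv_le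
    (f := fun z => g z - z * deriv g 0) (C := 32 * M / R ^ 2)
    (fun z hz => (hdat z hz).sub ((differentiableAt_id).mul_const _))
    (fun z hz => by
      have e : deriv (fun z => g z - z * deriv g 0) z = deriv g z - deriv g 0 := by
        rw [deriv_fun_sub (hdat z hz) (by fun_prop)]
        simp
      rw [e]
      exact h1 z hz)
    (mem_closedBall_self zero_le_one) (show (1 : ℂ) ∈ closedBall (0 : ℂ) 1 by simp)
  simp only [one_mul, zero_mul, sub_zero, norm_one, mul_one] at h2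
  have e : g 1 - deriv g 0 - g 0 = g 1 - g 0 - deriv g 0 := by ring
  rwa [e] at h2

end oneVariable

section several

variable {E : Type*} [NormedAddCommGroup E] [NormedSpace ℂ E]

lemma line_diff {G : E → ℂ} {z : E} {r : ℝ} (hr : 0 < r) (hG : DifferentiableOn ℂ G (ball z r))
    {h : E} (hh : h ≠ 0) : DifferentiableOn ℂ (fun ζ : ℂ => G (z + ζ • h)) (ball 0 (r / ‖h‖)) ∧
      (∀ ζ ∈ ball (0 : ℂ) (r / ‖h‖), z + ζ • h ∈ ball z r) ∧
      deriv (fun ζ : ℂ => G (z + ζ • h)) 0 = fderiv ℂ G z h := by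
  have hn : 0 < ‖h‖ := norm_pos_iff.mpr hh
  have hin : ∀ ζ ∈ ball (0 : ℂ) (r / ‖h‖), z + ζ • h ∈ ball z r := by
    intro ζ hζ
    rw [mem_ball_zero_iff, lt_div_iff₀ hn] at hζ
    rw [mem_ball, dist_eq_norm, add_sub_cancel_left, norm_smul]
    exact hζ
  refine ⟨?_, hin, ?_⟩
  · exact hG.comp (by fun_prop) hin
  · have hd : DifferentiableAt ℂ G z := hG.differentiableAt (isOpen_ball.mem_nhds
      (mem_ball_self hr))
    have h1 : HasDerivAt (fun ζ : ℂ => z + ζ • h) h 0 := by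
      have := ((hasDerivAt_id (0 : ℂ)).smul_const h).const_add z
      simpa using this
    have h2 : HasFDerivAt G (fderiv ℂ G z) (z + (0 : ℂ) • h) := by
      rw [zero_smul, add_zero]
      exact hd.hasFDerivAt
    exact (h2.comp_hasDerivAt (0 : ℂ) h1).deriv

lemma fderiv_apply_bound {G : E → ℂ} {z : E} {r M : ℝ} (hr : 0 < r)
    (hG : DifferentiableOn ℂ G (ball z r)) (hM : ∀ w ∈ ball z r, ‖G w‖ ≤ M) (h : E) :
    ‖fderiv ℂ G z h‖ ≤ 2 * M / r * ‖h‖ := by
  by_cases hh : h = 0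
  · subst hh; simp
  · obtain ⟨h1, h2, h3⟩ := line_diff hr hG hh
    have hn : 0 < ‖h‖ := norm_pos_iff.mpr hh
    have hR : 0 < r / ‖h‖ := by positivity
    rw [← h3]
    refine (deriv_bound h1 (fun ζ hζ => hM _ (h2 ζ hζ)) (ρ := r / ‖h‖ / 2) (by positivity)
      (by rw [norm_zero]; linarith)).trans (le_of_eq ?_)
    field_simp

lemma remainder {G : E → ℂ} {z : E} {r M : ℝ} (hr : 0 < r)
    (hG : DifferentiableOn ℂ G (ball z r)) (hM : ∀ w ∈ ball z r, ‖G w‖ ≤ M) {h : E}
    (hh : ‖h‖ ≤ r / 2) : ‖G (z + h) - G z - fderiv ℂ G z h‖ ≤ 32 * M / r ^ 2 * ‖h‖ ^ 2 := by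
  by_cases hh0 : h = 0
  · subst hh0; simp
  · obtain ⟨h1, h2, h3⟩ := line_diff hr hG hh0
    have hn : 0 < ‖h‖ := norm_pos_iff.mpr hh0
    have hR : 2 ≤ r / ‖h‖ := by
      rw [le_div_iff₀ hn]
      linarith
    have h4 := remainder_one hR h1 (fun ζ hζ => hM _ (h2 ζ hζ))
    simp only [one_smul, zero_smul, add_zero] at h4
    rw [h3] at h4
    refine h4.trans (le_of_eq ?_)
    field_simp

lemma lipschitz_bound {G : E → ℂ} {z : E} {r M : ℝ} (hr : 0 < r)
    (hG : DifferentiableOn ℂ G (ball z (2 * r))) (hM : ∀ w ∈ ball z (2 * r), ‖G w‖ ≤ M)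
    {x y : E} (hx : x ∈ ball z r) (hy : y ∈ ball z r) :
    ‖G y - G x‖ ≤ 2 * M / r * ‖y - x‖ := by
  have hM0 : 0 ≤ M := (norm_nonneg _).trans (hM z (mem_ball_self (by positivity)))
  have hsub : ∀ w ∈ ball z r, ball w r ⊆ ball z (2 * r) := by
    intro w hw v hv
    rw [mem_ball] at hw hv ⊢
    calc dist v z ≤ dist v w + dist w z := dist_triangle _ _ _
      _ < 2 * r := by linarith
  apply (convex_ball z r).norm_image_sub_le_of_norm_fderiv_le (𝕜 := ℂ) (f := G) _ _ hx hy
  · intro w hw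
    exact hG.differentiableAt (isOpen_ball.mem_nhds (hsub w hw (mem_ball_self hr)))
  · intro w hw
    apply ContinuousLinearMap.opNorm_le_bound _ (by positivity)
    intro h
    exact fderiv_apply_bound hr (hG.mono (hsub w hw)) (fun v hv => hM v (hsub w hw hv)) h

variable [FiniteDimensional ℂ E]

/-- A pointwise limit of locally uniformly bounded holomorphic functions is holomorphic. -/
theorem differentiableAt_of_tendsto {G : ℕ → E → ℂ} {g : E → ℂ} {z : E} {r M : ℝ} (hr : 0 < r)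
    (hG : ∀ᶠ k in atTop, DifferentiableOn ℂ (G k) (ball z r) ∧ ∀ w ∈ ball z r, ‖G k w‖ ≤ M)
    (hlim : ∀ w ∈ ball z r, Tendsto (fun k => G k w) atTop (𝓝 (g w))) :
    DifferentiableAt ℂ g z := by
  set L : ℕ → E →L[ℂ] ℂ := fun k => fderiv ℂ (G k) z with hL
  obtain ⟨N₀, hN₀⟩ := eventually_atTop.mp hG
  have hM0 : 0 ≤ M := (norm_nonneg _).trans ((hN₀ N₀ le_rfl).2 z (mem_ball_self hr))
  set C : ℝ := 32 * M / r ^ 2 with hC
  have hC0 : 0 ≤ C := by positivity
  have hrem : ∀ k ≥ N₀, ∀ h : E, ‖h‖ ≤ r / 2 →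
      ‖G k (z + h) - G k z - L k h‖ ≤ C * ‖h‖ ^ 2 := fun k hk h hh =>
    remainder hr (hN₀ k hk).1 (hN₀ k hk).2 hh
  -- the derivatives converge pointwise
  have hcau : ∀ h : E, ∃ l : ℂ, Tendsto (fun k => L k h) atTop (𝓝 l) := by
    intro h
    apply cauchySeq_tendsto_of_complete
    rw [Metric.cauchySeq_iff']
    intro ε hε
    -- choose t
    set t : ℝ := min (r / (2 * (‖h‖ + 1))) (ε / (8 * (C + 1) * (‖h‖ ^ 2 + 1))) with ht
    have htpos : 0 < t := lt_min (by positivity) (by positivity)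
    have ht1 : t * ‖h‖ ≤ r / 2 := by
      calc t * ‖h‖ ≤ r / (2 * (‖h‖ + 1)) * ‖h‖ := by
            gcongr
            exact min_le_left _ _
        _ ≤ r / (2 * (‖h‖ + 1)) * (‖h‖ + 1) := by
            gcongr
            linarith
        _ = r / 2 := by field_simp
    have ht2 : C * t * ‖h‖ ^ 2 ≤ ε / 8 := by
      calc C * t * ‖h‖ ^ 2 ≤ (C + 1) * (ε / (8 * (C + 1) * (‖h‖ ^ 2 + 1))) * (‖h‖ ^ 2 + 1) := by
            gcongr
            · linarith
            · exact min_le_right _ _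
            · linarith
        _ = ε / 8 := by field_simp
    have hnorm : ‖(t : ℂ) • h‖ = t * ‖h‖ := by
      rw [norm_smul, Complex.norm_real, Real.norm_of_nonneg htpos.le]
    have hz1 : z + (t : ℂ) • h ∈ ball z r := by
      rw [mem_ball, dist_eq_norm, add_sub_cancel_left, hnorm]
      linarith
    have c1 : CauchySeq fun k => G k (z + (t : ℂ) • h) := (hlim _ hz1).cauchySeq
    have c2 : CauchySeq fun k => G k z := (hlim _ (mem_ball_self hr)).cauchySeq
    rw [Metric.cauchySeq_iff'] at c1 c2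
    obtain ⟨N₁, hN₁⟩ := c1 (ε * t / 8) (by positivity)
    obtain ⟨N₂, hN₂⟩ := c2 (ε * t / 8) (by positivity)
    set N := max N₀ (max N₁ N₂) with hN
    have hNN₀ : N₀ ≤ N := le_max_left _ _
    have hNN₁ : N₁ ≤ N := (le_max_left _ _).trans (le_max_right _ _)
    have hNN₂ : N₂ ≤ N := (le_max_right _ _).trans (le_max_right _ _)
    refine ⟨N, ?_⟩
    intro k hk
    rw [dist_eq_norm]
    have e1 := hrem k (hNN₀.trans hk) ((t : ℂ) • h) (by rw [hnorm]; exact ht1)
    have e2 := hrem N hNN₀ ((t : ℂ) • h) (by rw [hnorm]; exact ht1)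
    rw [hnorm, map_smul, smul_eq_mul] at e1 e2
    have d1 : ‖G k (z + (t : ℂ) • h) - G N (z + (t : ℂ) • h)‖ < ε * t / 4 := by
      have a1 := hN₁ k (hNN₁.trans hk)
      have a2 := hN₁ N hNN₁
      rw [dist_eq_norm] at a1 a2
      calc ‖G k (z + (t : ℂ) • h) - G N (z + (t : ℂ) • h)‖
          = ‖(G k (z + (t : ℂ) • h) - G N₁ (z + (t : ℂ) • h)) -
            (G N (z + (t : ℂ) • h) - G N₁ (z + (t : ℂ) • h))‖ := by congr 1; ring
        _ ≤ _ := norm_sub_le _ _
        _ < ε * t / 4 := by linarith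
    have d2 : ‖G k z - G N z‖ < ε * t / 4 := by
      have a1 := hN₂ k (hNN₂.trans hk)
      have a2 := hN₂ N hNN₂
      rw [dist_eq_norm] at a1 a2
      calc ‖G k z - G N z‖ = ‖(G k z - G N₂ z) - (G N z - G N₂ z)‖ := by congr 1; ring
        _ ≤ _ := norm_sub_le _ _
        _ < ε * t / 4 := by linarith
    have key : t * ‖L k h - L N h‖ < ε * t := by
      have e3 : (t : ℂ) * (L k h - L N h) =
          (G k (z + (t : ℂ) • h) - G N (z + (t : ℂ) • h)) - (G k z - G N z) -
          (G k (z + (t : ℂ) • h) - G k z - (t : ℂ) * L k h) +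
          (G N (z + (t : ℂ) • h) - G N z - (t : ℂ) * L N h) := by ring
      have e4 : t * ‖L k h - L N h‖ = ‖(t : ℂ) * (L k h - L N h)‖ := by
        rw [norm_mul, Complex.norm_real, Real.norm_of_nonneg htpos.le]
      rw [e4, e3]
      have e5 : C * (t * ‖h‖) ^ 2 ≤ ε * t / 8 := by
        calc C * (t * ‖h‖) ^ 2 = (C * t * ‖h‖ ^ 2) * t := by ring
          _ ≤ ε / 8 * t := by gcongr
          _ = ε * t / 8 := by ring
      calc _ ≤ ‖(G k (z + (t : ℂ) • h) - G N (z + (t : ℂ) • h)) - (G k z - G N z) -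
          (G k (z + (t : ℂ) • h) - G k z - (t : ℂ) * L k h)‖ +
          ‖(G N (z + (t : ℂ) • h) - G N z - (t : ℂ) * L N h)‖ := norm_add_le _ _
        _ ≤ (‖(G k (z + (t : ℂ) • h) - G N (z + (t : ℂ) • h)) - (G k z - G N z)‖ +
          ‖(G k (z + (t : ℂ) • h) - G k z - (t : ℂ) * L k h)‖) +
          ‖(G N (z + (t : ℂ) • h) - G N z - (t : ℂ) * L N h)‖ := by
            gcongr
            exact norm_sub_le _ _
        _ ≤ ((‖G k (z + (t : ℂ) • h) - G N (z + (t : ℂ) • h)‖ + ‖G k z - G N z‖) +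
          ‖(G k (z + (t : ℂ) • h) - G k z - (t : ℂ) * L k h)‖) +
          ‖(G N (z + (t : ℂ) • h) - G N z - (t : ℂ) * L N h)‖ := by
            gcongr
            exact norm_sub_le _ _
        _ < ε * t := by
            have : 0 < ε * t := by positivity
            linarith
    exact lt_of_mul_lt_mul_left (by linarith) htpos.le
  choose l hl using hcau
  set ℓ : E →ₗ[ℂ] ℂ := linearMapOfTendsto l (fun k => ((L k : E →L[ℂ] ℂ) : E →ₗ[ℂ] ℂ))
    (l := atTop) (tendsto_pi_nhds.mpr hl) with hℓ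
  have hℓl : ∀ h, ℓ h = l h := fun h => rfl
  have hfin : ∀ h : E, ‖h‖ ≤ r / 2 → ‖g (z + h) - g z - ℓ h‖ ≤ C * ‖h‖ ^ 2 := by
    intro h hh
    have hz1 : z + h ∈ ball z r := by
      rw [mem_ball, dist_eq_norm, add_sub_cancel_left]
      linarith
    have hl1 : Tendsto (fun k => G k (z + h) - G k z - L k h) atTop
        (𝓝 (g (z + h) - g z - ℓ h)) :=
      ((hlim _ hz1).sub (hlim _ (mem_ball_self hr))).sub (hl h)
    apply le_of_tendsto hl1.norm
    filter_upwards [eventually_ge_atTop N₀] with k hk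
    exact hrem k hk h hh
  have : HasFDerivAt g (LinearMap.toContinuousLinearMap ℓ) z := by
    rw [hasFDerivAt_iff_isLittleO_nhds_zero]
    have hO : (fun h => g (z + h) - g z - (LinearMap.toContinuousLinearMap ℓ) h) =O[𝓝 0]
        fun h => ‖h‖ ^ 2 := by
      apply Asymptotics.IsBigO.of_bound C
      filter_upwards [closedBall_mem_nhds (0 : E) (show 0 < r / 2 by positivity)] with h hh
      rw [mem_closedBall_zero_iff] at hh
      have := hfin h hh
      simpa using this
    apply hO.trans_isLittleO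
    have h2 : (fun h : E => ‖h‖ ^ 2) =o[𝓝 0] fun h => ‖h‖ := by
      have h3 : (fun h : E => ‖h‖ ^ 2) = (fun x : ℝ => x ^ 2) ∘ fun h : E => ‖h‖ := rfl
      rw [h3]
      have h4 := (Asymptotics.isLittleO_pow_id (𝕜 := ℝ) (n := 2) (by norm_num)).comp_tendsto
        (tendsto_norm_zero (E := E))
      exact h4
    exact h2.trans_isBigO (Asymptotics.isBigO_refl _ _).norm_left
  exact this.differentiableAt

/-- The derivative of a holomorphic function in a fixed direction is holomorphic. -/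
theorem differentiableOn_fderiv_apply {Ω : Set E} (hΩ : IsOpen Ω) {G : E → ℂ}
    (hG : DifferentiableOn ℂ G Ω) (v : E) : DifferentiableOn ℂ (fun z => fderiv ℂ G z v) Ω := by
  intro z hz
  apply DifferentiableAt.differentiableWithinAt
  -- a ball on which G is bounded
  have hc : ContinuousAt G z := (hG.differentiableAt (hΩ.mem_nhds hz)).continuousAt
  have hb0 : ∀ᶠ w in 𝓝 z, w ∈ Ω := hΩ.mem_nhds hz
  have hb : ∀ᶠ w in 𝓝 z, w ∈ Ω ∧ ‖G w‖ < ‖G z‖ + 1 :=
    hb0.and (hc.norm.eventually (gt_mem_nhds (by linarith)))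
  obtain ⟨R, hR, hRb⟩ := Metric.eventually_nhds_iff_ball.mp hb
  set r : ℝ := R / 4 with hr
  have hrp : 0 < r := by positivity
  set M : ℝ := ‖G z‖ + 1 with hM
  have h4R : 4 * r = R := by rw [hr]; ring
  have hGd : DifferentiableOn ℂ G (ball z (4 * r)) := by
    apply hG.mono
    intro w hw
    rw [h4R] at hw
    exact (hRb w hw).1
  have hGb : ∀ w ∈ ball z (4 * r), ‖G w‖ ≤ M := by
    intro w hw
    rw [h4R] at hw
    exact (hRb w hw).2.le
  have h4 : 2 * (2 * r) = 4 * r := by ring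
  -- difference quotients
  set q : ℕ → E → ℂ := fun k w => ((k : ℂ) + 1) • (G (w + ((k : ℂ) + 1)⁻¹ • v) - G w) with hq
  have hsmall : ∀ᶠ k : ℕ in atTop, ‖((k : ℂ) + 1)⁻¹ • v‖ < r := by
    have h1 : Tendsto (fun k : ℕ => ‖v‖ / ((k : ℝ) + 1)) atTop (𝓝 0) :=
      tendsto_const_nhds.div_atTop (tendsto_atTop_add_const_right _ _ tendsto_natCast_atTop_atTop)
    filter_upwards [h1.eventually (gt_mem_nhds hrp)] with k hk
    rw [norm_smul, norm_inv]
    have : ‖(k : ℂ) + 1‖ = (k : ℝ) + 1 := by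
      have : ((k : ℂ) + 1) = (((k : ℝ) + 1 : ℝ) : ℂ) := by push_cast; rfl
      rw [this, Complex.norm_real, Real.norm_of_nonneg (by positivity)]
    rw [this, inv_mul_eq_div]
    exact hk
  apply differentiableAt_of_tendsto (G := q) (r := r) (M := 2 * M / (2 * r) * ‖v‖) hrp
  · filter_upwards [hsmall] with k hk
    constructor
    · apply DifferentiableOn.fun_const_smul
      apply DifferentiableOn.fun_sub
      · apply hGd.comp (by fun_prop)
        intro w hw
        rw [mem_ball, dist_eq_norm] at hw ⊢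
        calc ‖w + ((k : ℂ) + 1)⁻¹ • v - z‖ = ‖(w - z) + ((k : ℂ) + 1)⁻¹ • v‖ := by
              congr 1; abel
          _ ≤ ‖w - z‖ + ‖((k : ℂ) + 1)⁻¹ • v‖ := norm_add_le _ _
          _ < 4 * r := by linarith
      · exact hGd.mono (ball_subset_ball (by linarith))
    · intro w hw
      have hw1 : w ∈ ball z (2 * r) := ball_subset_ball (by linarith) hw
      have hw2 : w + ((k : ℂ) + 1)⁻¹ • v ∈ ball z (2 * r) := by
        rw [mem_ball, dist_eq_norm] at hw ⊢
        calc ‖w + ((k : ℂ) + 1)⁻¹ • v - z‖ = ‖(w - z) + ((k : ℂ) + 1)⁻¹ • v‖ := by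
              congr 1; abel
          _ ≤ ‖w - z‖ + ‖((k : ℂ) + 1)⁻¹ • v‖ := norm_add_le _ _
          _ < 2 * r := by linarith
      have h5 := lipschitz_bound (r := 2 * r) (by positivity) (by rw [h4]; exact hGd)
        (by rw [h4]; exact hGb) hw1 hw2
      rw [add_sub_cancel_left] at h5
      simp only [hq]
      rw [norm_smul]
      have hk1 : ‖(k : ℂ) + 1‖ ≠ 0 := by
        rw [norm_ne_zero_iff]
        exact_mod_cast Nat.succ_ne_zero k
      calc ‖(k : ℂ) + 1‖ * ‖G (w + ((k : ℂ) + 1)⁻¹ • v) - G w‖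
          ≤ ‖(k : ℂ) + 1‖ * (2 * M / (2 * r) * ‖((k : ℂ) + 1)⁻¹ • v‖) := by gcongr
        _ = 2 * M / (2 * r) * ‖v‖ := by
          rw [norm_smul, norm_inv]
          field_simp
  · intro w hw
    have hwd : DifferentiableAt ℂ G w := hGd.differentiableAt
      (isOpen_ball.mem_nhds (ball_subset_ball (by linarith) hw))
    exact hwd.hasFDerivAt.lim v (by
      have : ∀ k : ℕ, ‖(k : ℂ) + 1‖ = (k : ℝ) + 1 := by
        intro k
        have : ((k : ℂ) + 1) = (((k : ℝ) + 1 : ℝ) : ℂ) := by push_cast; rfl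
        rw [this, Complex.norm_real, Real.norm_of_nonneg (by positivity)]
      simp_rw [this]
      exact tendsto_atTop_add_const_right _ _ tendsto_natCast_atTop_atTop)

/-- Holomorphic functions of several variables are smooth. -/
theorem contDiffOn_of_differentiableOn {Ω : Set E} (hΩ : IsOpen Ω) {G : E → ℂ}
    (hG : DifferentiableOn ℂ G Ω) : ContDiffOn ℂ ∞ G Ω := by
  have key : ∀ k : ℕ, ∀ G : E → ℂ, DifferentiableOn ℂ G Ω → ContDiffOn ℂ k G Ω := by
    intro k
    induction k with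
    | zero =>
      intro G hG
      rw [Nat.cast_zero, contDiffOn_zero]
      exact hG.continuousOn
    | succ k ih =>
      intro G hG
      rw [Nat.cast_succ, contDiffOn_succ_iff_fderiv_of_isOpen hΩ]
      refine ⟨hG, ?_, ?_⟩
      · intro h
        exact absurd h (by simp)
      · rw [contDiffOn_clm_apply]
        intro v
        exact ih _ (differentiableOn_fderiv_apply hΩ hG v)
  rw [contDiffOn_infty]
  intro k
  exact key k G hG

end several

end Pool.Agent.Helper853.Bk
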